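import Pool.Agent.Lib.MP_6b2d39_agHx.Large
import Pool.Agent.Lib.MP_6b2d39_agHl.ToGen

set_option autoImplicit false

namespace Pool.Agent.Lib.MP_6b2d39_agHx

open Pool.Agent.Lib.MP_6b2d39_agCr Pool.Agent.Lib.MP_6b2d39_agHl

private theorem vd_step {n : ℕ} (μ : Fin n → ℕ) {d d' : ℕ} (h : d < d') :
    vd d μ + (d' + 1) ≤ vd d' μ := by
  unfold vd
  have h1 : (d' + 2).choose 2 = (d' + 1).choose 1 + (d' + 1).choose 2 := Nat.choose_succ_succ' _ _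
  have h2 : (d + 2).choose 2 ≤ (d' + 1).choose 2 := Nat.choose_le_choose 2 (by omega)
  rw [Nat.choose_one_right] at h1
  omega

private theorem vd_pair {n : ℕ} (μ : Fin n → ℕ) {d d' : ℕ} (h : d < d')
    (h1 : |((vd d μ : ℤ) : ℝ)| < (1 / 2 : ℝ) * d)
    (h2 : |((vd d' μ : ℤ) : ℝ)| < (1 / 2 : ℝ) * d') : False := by
  have h3 := vd_step μ h
  have h4 : ((vd d μ : ℤ) : ℝ) + (d' + 1) ≤ ((vd d' μ : ℤ) : ℝ) := by exact_mod_cast h3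
  have h5 := (abs_lt.1 h1).1
  have h6 := (abs_lt.1 h2).2
  have h7 : (d : ℝ) < d' := by exact_mod_cast h
  linarith

/-- HX37. `vd` increases by `d + 2` from `d` to `d + 1`, so `|vd| < d / 2` for at most one `d` -/
theorem unique_degree {n : ℕ} (μ : Fin n → ℕ) : ∃ d0 : ℕ, ∀ d : ℕ, d ≠ d0 →
    (1 / 2 : ℝ) * d ≤ |((vd d μ : ℤ) : ℝ)| := by
  by_cases h : ∃ d0 : ℕ, |((vd d0 μ : ℤ) : ℝ)| < (1 / 2 : ℝ) * d0
  · obtain ⟨d0, h0⟩ := h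
    refine ⟨d0, fun d hd => ?_⟩
    by_contra hcon
    have h1 := not_le.1 hcon
    rcases lt_or_gt_of_ne hd with h2 | h2
    · exact vd_pair μ h2 h1 h0
    · exact vd_pair μ h2 h0 h1
  · refine ⟨0, fun d _ => ?_⟩
    by_contra hcon
    exact h ⟨d, not_le.1 hcon⟩

/-- THEOREM HX. -/
theorem one_degree (ε : ℝ) (hε : 0 < ε) (hε' : ε ≤ 1 / 2) (A : ℕ) : ∃ N0 : ℕ, ∀ n m : ℕ,
    N0 ≤ n → 3 * √n ≤ ε * m → m ≤ n ^ A → ∀ μ : Fin n → ℕ, (∀ i, μ i = m ∨ μ i = m + 1) →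
    ∃ d0 : ℕ, ∀ d : ℕ, d ≠ d0 ∨ ε * d ≤ |((vd d μ : ℤ) : ℝ)| →
      General (fun P => (Module.finrank ℂ (curves d μ P) : ℤ) = max (vd d μ) 0) := by
  obtain ⟨N0, h⟩ := large_one ε hε hε' A
  refine ⟨N0, fun n m hn hm hmA μ hμ => ?_⟩
  obtain ⟨d0, hd0⟩ := unique_degree μ
  refine ⟨d0, fun d hd => general_of_emp (h n hn d m μ hμ hm hmA ?_)⟩
  rcases hd with hd | hd
  · refine le_trans ?_ (hd0 d hd)
    exact mul_le_mul_of_nonneg_right hε' (Nat.cast_nonneg d)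
  · exact hd

end Pool.Agent.Lib.MP_6b2d39_agHx
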