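import Pool.Agent.Lib.MP_6b2d39_agHx.Defs
import Pool.Agent.Lib.MP_6b2d39_agHl.Three
import Pool.Agent.Lib.MP_6b2d39_agHl.Count

set_option autoImplicit false

namespace Pool.Agent.Lib.MP_6b2d39_agHx

open Pool.Agent.Lib.MP_6b2d39_agHl

/-- HX2. -/
theorem Tch.le {x0 x : ℝ} (h : Tch x0 x) (h0 : 0 < x0) : x0 ≤ x := by
  induction h with
  | refl => exact le_rfl
  | @step y y' s _ e1 e2 ih =>
    have hy : 0 < y := h0.trans_le ih
    have h1 : y * y ≤ y * y' := by
      rw [e1, ← pow_two]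
      exact e2
    exact ih.trans (le_of_mul_le_mul_left h1 hy)

theorem Tch.trans {x0 x y : ℝ} (h : Tch x0 x) (h' : Tch x y) : Tch x0 y := by
  induction h' with
  | refl => exact h
  | step _ e1 e2 ih => exact ih.step e1 e2

/-- HX3. the rows along a chain of crude steps (induction; `stepC_up`, `step_lo`, `stp_zero`):
with `A / x3 + (x - x3) = α` the bound `x α` becomes `x' / x (x α + (s - x ^ 2)) = x' (α + x' - x)`;
the row `0` is at most `max (r 0) (x' max α 0)`. -/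
theorem top_rows {N : ℕ} {x3 xf A L B : ℝ} (h3 : 0 < x3) (hc : Tch x3 xf) {r : ℕ → ℕ}
    (h0 : ∀ b, N ≤ b → r b = 0) (hA : ∀ b, 1 ≤ b → (r b : ℝ) ≤ max (A - x3 ^ 2 * b) 0)
    (hB : (r 0 : ℝ) ≤ B) (hL : ∀ b, L - x3 ^ 2 * b ≤ (r b : ℝ)) :
    ∃ r', Red N r r' ∧ (∀ b, N ≤ b → r' b = 0) ∧
      (∀ b, 1 ≤ b → (r' b : ℝ) ≤ max (xf * (A / x3 + (xf - x3)) - xf ^ 2 * b) 0) ∧
      (r' 0 : ℝ) ≤ max B (xf * max (A / x3 + (xf - x3)) 0) ∧
      ∀ b, xf * (L / x3 - (xf - x3)) - xf ^ 2 * b ≤ (r' b : ℝ) := by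
  induction hc with
  | refl =>
    have e1 : x3 * (A / x3 + (x3 - x3)) = A := by
      field_simp
      ring
    have e2 : x3 * (L / x3 - (x3 - x3)) = L := by
      field_simp
      ring
    refine ⟨r, Relation.ReflTransGen.refl, h0, fun b hb => ?_, hB.trans (le_max_left _ _),
      fun b => ?_⟩
    · rw [e1]
      exact hA b hb
    · rw [e2]
      exact hL b
  | @step x x' s hx e1 e2 ih =>
    obtain ⟨r', i1, i2, i3, i4, i5⟩ := ih
    have hx3 : x3 ≤ x := hx.le h3
    have hx0 : 0 < x := h3.trans_le hx3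
    have h1 : x * x ≤ x * x' := by
      rw [e1, ← pow_two]
      exact e2
    have hxx : x ≤ x' := le_of_mul_le_mul_left h1 hx0
    have hx'0 : 0 < x' := hx0.trans_le hxx
    have hs : 1 ≤ s := by
      have h2 : (0 : ℝ) < s := lt_of_lt_of_le (by positivity) e2
      exact_mod_cast h2
    obtain ⟨j1, j2⟩ := stepC_up hx0 e1 e2 i3
    have j3 := step_lo hx0 e1 e2 i2 i5
    have f1 : x' / x * (x * (A / x3 + (x - x3)) + (s - x ^ 2)) =
        x' * (A / x3 + (x' - x3)) := by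
      rw [← e1]
      field_simp
      ring
    have f2 : x' / x * (x * (L / x3 - (x - x3)) - (s - x ^ 2)) =
        x' * (L / x3 - (x' - x3)) := by
      rw [← e1]
      field_simp
      ring
    have f3 : x' / x * max (x * (A / x3 + (x - x3))) 0 = x' * max (A / x3 + (x - x3)) 0 := by
      have h2 : max (x * (A / x3 + (x - x3))) 0 = x * max (A / x3 + (x - x3)) 0 := by
        rw [mul_max_of_nonneg _ _ hx0.le, mul_zero]
      rw [h2, ← mul_assoc, div_mul_cancel₀ _ hx0.ne']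
    have g1 : max (A / x3 + (x - x3)) 0 ≤ max (A / x3 + (x' - x3)) 0 :=
      max_le_max (add_le_add le_rfl (sub_le_sub_right hxx x3)) le_rfl
    have g2 : x' * max (A / x3 + (x - x3)) 0 ≤ x' * max (A / x3 + (x' - x3)) 0 :=
      mul_le_mul_of_nonneg_left g1 hx'0.le
    have g3 : x * max (A / x3 + (x - x3)) 0 ≤ x' * max (A / x3 + (x' - x3)) 0 :=
      (mul_le_mul_of_nonneg_right hxx (le_max_right _ _)).trans g2
    refine ⟨stp s N r', i1.tail ⟨s, hs, rfl⟩, fun b hb => stp_zero hb, fun b hb => ?_, ?_,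
      fun b => ?_⟩
    · rw [← f1]
      exact j1 b hb
    · refine j2.trans (max_le (i4.trans (max_le_max le_rfl g3)) ?_)
      rw [f3]
      exact g2.trans (le_max_right _ _)
    · rw [← f2]
      exact j3 b

end Pool.Agent.Lib.MP_6b2d39_agHx
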