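import Pool.Agent.Lib.MP_6b2d39_agHx.StepN
import Pool.Agent.Lib.MP_6b2d39_agHx.Top

set_option autoImplicit false

namespace Pool.Agent.Lib.MP_6b2d39_agHx

open Pool.Agent.Lib.MP_6b2d39_agHl

/-- HX4. the first three steps from the triangle of side `N`: step `a` (`stepA_up`, `stepA_lo` with
`x = 1`, `x' = a`, `A = L = N`: rows `≤ a (N - (a - 1) / 2) + 1 / 8 - a ^ 2 b` except one of length
`≤ a ^ 2 / 2`), step `s1` (`stepN_up`, `stepA_lo`; `(s1 - a ^ 2) / 2 = a (x2 - a) / 2`), step `s2`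
(`stepB_up`: the exceptional row has length `≤ x2 ^ 2 / 2 + a ^ 2 / 2 ≤ s2`; `step_lo`);
`a ≤ x2` from `l1`, `stp_zero` for the rows `≥ N`. -/
theorem three_rows {x2 x3 xf : ℝ} {a s1 s2 : ℕ} (hp : Hp x2 x3 xf a s1 s2) (N : ℕ) :
    ∃ r, Red N (tri N) r ∧ (∀ b, N ≤ b → r b = 0) ∧
      (∀ b, 1 ≤ b → (r b : ℝ) ≤ max (x3 * al N x2 a - x3 ^ 2 * b) 0) ∧
      (r 0 : ℝ) ≤ x3 * max (al N x2 a) 0 + x2 ^ 2 / 2 + (a : ℝ) ^ 2 / 2 ∧
      ∀ b, x3 * (be N x2 a - (x3 - x2)) - x3 ^ 2 * b ≤ (r b : ℝ) := by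
  have ha1 : (1 : ℝ) ≤ (a : ℝ) := by exact_mod_cast hp.ha
  have ha0 : (0 : ℝ) < (a : ℝ) := by linarith
  have hax : (a : ℝ) ≤ x2 := by
    have h1 : (a : ℝ) * a ≤ a * x2 := by
      rw [hp.e1, ← pow_two]
      exact hp.l1
    exact le_of_mul_le_mul_left h1 ha0
  have hx2 : 0 < x2 := ha0.trans_le hax
  have h23 : x2 ≤ x3 := by
    have h1 : x2 * x2 ≤ x2 * x3 := by
      rw [hp.e2, ← pow_two]
      exact hp.l2
    exact le_of_mul_le_mul_left h1 hx2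
  have hx3 : 0 < x3 := hx2.trans_le h23
  have hs1 : 1 ≤ s1 := by
    have h1 : (0 : ℝ) < s1 := lt_of_lt_of_le (by positivity) hp.l1
    exact_mod_cast h1
  have hs2 : 1 ≤ s2 := by
    have h1 : (0 : ℝ) < s2 := lt_of_lt_of_le (by positivity) hp.l2
    exact_mod_cast h1
  -- the first step
  obtain ⟨r1, hr1⟩ : ∃ r1, r1 = stp a N (tri N) := ⟨_, rfl⟩
  have u0 : ∀ b : ℕ, ((tri N b : ℕ) : ℝ) ≤ max ((N : ℝ) - 1 ^ 2 * b) 0 := by
    intro b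
    unfold tri
    rcases le_total b N with h | h
    · rw [Nat.cast_sub h, one_pow, one_mul]
      exact le_max_left _ _
    · rw [Nat.sub_eq_zero_of_le h, Nat.cast_zero]
      exact le_max_right _ _
  have l0 : ∀ b : ℕ, (N : ℝ) - 1 ^ 2 * b ≤ ((tri N b : ℕ) : ℝ) := by
    intro b
    unfold tri
    rw [one_pow, one_mul, sub_le_iff_le_add]
    have h1 : N ≤ (N - b) + b := by omega
    exact_mod_cast h1
  have z0 : ∀ b, N ≤ b → tri N b = 0 := fun b hb => Nat.sub_eq_zero_of_le hb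
  have hle1 : (1 : ℝ) ^ 2 ≤ (a : ℝ) := by
    rw [one_pow]
    exact ha1
  obtain ⟨R1, u1, v1⟩ := stepA_up (n := N) one_pos (one_mul (a : ℝ)) hle1 u0
  have l1 := stepA_lo (n := N) one_pos (one_mul (a : ℝ)) hle1 z0 l0
  rw [← hr1] at u1 v1 l1
  have z1 : ∀ b, N ≤ b → r1 b = 0 := fun b hb => by
    rw [hr1]
    exact stp_zero hb
  -- the second step
  obtain ⟨r2, hr2⟩ : ∃ r2, r2 = stp s1 N r1 := ⟨_, rfl⟩
  obtain ⟨R2, u2, v2⟩ := stepN_up (n := N) ha0 hp.e1 hp.l1 (R := R1) v1 u1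
  have l2 := stepA_lo (n := N) ha0 hp.e1 hp.l1 z1 l1
  rw [← hr2] at u2 v2 l2
  have z2 : ∀ b, N ≤ b → r2 b = 0 := fun b hb => by
    rw [hr2]
    exact stp_zero hb
  have e1 : (s1 : ℝ) = a * x2 := hp.e1.symm
  have e2 : (s2 : ℝ) = x2 * x3 := hp.e2.symm
  have fA : x2 / a * ((a : ℝ) / 1 * (N - (a - 1 ^ 2) / 2) + 1 ^ 2 / 8 - (s1 - (a : ℝ) ^ 2) / 2) +
      5 * (a : ℝ) ^ 2 / 8 = x2 * al N x2 a := by
    unfold al
    rw [e1]
    field_simp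
    ring
  have fL : x2 / a * ((a : ℝ) / 1 * (N - (a - 1 ^ 2) / 2) - 1 ^ 2 / 8 - (s1 - (a : ℝ) ^ 2) / 2) -
      (a : ℝ) ^ 2 / 8 = x2 * be N x2 a := by
    unfold be
    rw [e1]
    field_simp
    ring
  have u2' : ∀ b, b ≠ R2 → (r2 b : ℝ) ≤ max (x2 * al N x2 a - x2 ^ 2 * b) 0 := by
    intro b hb
    have h1 := u2 b hb
    rwa [fA] at h1
  have l2' : ∀ b : ℕ, x2 * be N x2 a - x2 ^ 2 * b ≤ (r2 b : ℝ) := by
    intro b
    have h1 := l2 b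
    rwa [fL] at h1
  -- the third step
  have hR2 : r2 R2 ≤ s2 := by
    have h1 : (a : ℝ) ^ 2 ≤ x2 ^ 2 := pow_le_pow_left₀ ha0.le hax 2
    have h2 : (r2 R2 : ℝ) ≤ s2 := by
      have h3 := hp.l2
      linarith
    exact_mod_cast h2
  obtain ⟨u3, v3⟩ := stepB_up (n := N) hx2 hp.e2 hp.l2 hR2 u2'
  have l3 := step_lo (n := N) hx2 hp.e2 hp.l2 z2 l2'
  have gA : x3 / x2 * (x2 * al N x2 a) = x3 * al N x2 a := by
    field_simp
  have gL : x3 / x2 * (x2 * be N x2 a - (s2 - x2 ^ 2)) = x3 * (be N x2 a - (x3 - x2)) := by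
    rw [e2]
    field_simp
  refine ⟨stp s2 N r2, ?_, fun b hb => stp_zero hb, fun b hb => ?_, ?_, fun b => ?_⟩
  · refine ((Relation.ReflTransGen.single ⟨a, hp.ha, hr1⟩).tail ⟨s1, hs1, hr2⟩).tail
      ⟨s2, hs2, rfl⟩
  · have h1 := u3 b hb
    rwa [gA] at h1
  · rw [gA] at v3
    have h1 : max (x3 * al N x2 a) 0 = x3 * max (al N x2 a) 0 := by
      rw [mul_max_of_nonneg _ _ hx3.le, mul_zero]
    rw [h1] at v3
    linarith
  · have h1 := l3 b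
    rwa [gL] at h1

/-- HX5. (`three_rows`, `top_rows`) -/
theorem all_rows {x2 x3 xf : ℝ} {a s1 s2 : ℕ} (hp : Hp x2 x3 xf a s1 s2) (N : ℕ) :
    ∃ r, Red N (tri N) r ∧
      (∀ b, 1 ≤ b → (r b : ℝ) ≤ max (xf * (al N x2 a + (xf - x3)) - xf ^ 2 * b) 0) ∧
      (r 0 : ℝ) ≤ max (x3 * max (al N x2 a) 0 + x2 ^ 2 / 2 + (a : ℝ) ^ 2 / 2)
        (xf * max (al N x2 a + (xf - x3)) 0) ∧
      ∀ b, xf * (be N x2 a - (xf - x2)) - xf ^ 2 * b ≤ (r b : ℝ) := by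
  have hx2 : 0 < x2 := by
    have h1 : (0 : ℝ) < (a : ℝ) := by exact_mod_cast hp.ha
    have h2 : 0 < (a : ℝ) * x2 := by
      rw [hp.e1]
      exact lt_of_lt_of_le (by positivity) hp.l1
    exact (pos_iff_pos_of_mul_pos h2).1 h1
  have hx3 : 0 < x3 := by
    have h2 : 0 < x2 * x3 := by
      rw [hp.e2]
      exact lt_of_lt_of_le (by positivity) hp.l2
    exact (pos_iff_pos_of_mul_pos h2).1 hx2
  obtain ⟨r, hr, h0, h1, h2, h3⟩ := three_rows hp N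
  obtain ⟨r', hr', -, h1', h2', h3'⟩ := top_rows hx3 hp.hc h0 h1 h2 h3
  refine ⟨r', hr.trans hr', ?_, ?_, ?_⟩
  · intro b hb
    have h4 := h1' b hb
    rwa [mul_div_cancel_left₀ _ hx3.ne'] at h4
  · rwa [mul_div_cancel_left₀ _ hx3.ne'] at h2'
  · intro b
    have h4 := h3' b
    rw [mul_div_cancel_left₀ _ hx3.ne'] at h4
    have h5 : be N x2 a - (x3 - x2) - (xf - x3) = be N x2 a - (xf - x2) := by ring
    rwa [h5] at h4

end Pool.Agent.Lib.MP_6b2d39_agHx
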