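import Mathlib

set_option autoImplicit false

namespace Pool.Agent.Lib.MP_6b2d39_agHx

private theorem block_hi_poly {z D : ℝ} (hD : 40 ≤ D) (hz : 16 * D ^ 2 ≤ z) :
    9 * D * (z + 1 + D) ^ 2 ≤ 10 * z * (D * z - 2 * z - 2) := by
  have hD0 : 0 < D := by linarith
  have hz0 : 0 < z := by nlinarith
  have hz1 : 1 ≤ z := by nlinarith
  have h1 : 16 * D ^ 2 * z ≤ z ^ 2 := by nlinarith
  have h2 : D / 2 * (16 * D ^ 2 * z) ≤ (D - 20) * z ^ 2 := by
    have h3 : D / 2 ≤ D - 20 := by linarith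
    calc D / 2 * (16 * D ^ 2 * z) ≤ D / 2 * z ^ 2 := mul_le_mul_of_nonneg_left h1 (by linarith)
      _ ≤ (D - 20) * z ^ 2 := mul_le_mul_of_nonneg_right h3 (by positivity)
  have h4 : 18 * D * (1 + D) + 20 ≤ D ^ 3 := by nlinarith [mul_pos hD0 hD0]
  have h5 : (18 * D * (1 + D) + 20) * z ≤ D ^ 3 * z := mul_le_mul_of_nonneg_right h4 hz0.le
  have h6 : 9 * D * (1 + D) ^ 2 ≤ 7 * (D ^ 3 * z) := by
    have h7 : (1 + D) ^ 2 ≤ 2 * D ^ 2 := by nlinarith
    have h8 : 9 * D * (1 + D) ^ 2 ≤ 9 * D * (2 * D ^ 2) :=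
      mul_le_mul_of_nonneg_left h7 (by linarith)
    have h9 : D ^ 3 * 18 ≤ D ^ 3 * (7 * z) :=
      mul_le_mul_of_nonneg_left (by nlinarith) (by positivity)
    nlinarith
  nlinarith

private theorem block_hi_real {z D : ℝ} (hD' : 40 ≤ D) (hz' : 16 * D ^ 2 ≤ z) :
    9 / 10 * D ^ 2 / z ^ 2 ≤
      2 * Real.log (1 + D / (z + 1)) - Real.log ((z + 2 * D) / z) := by
  have hD0 : 0 < D := by linarith
  have hz0 : 0 < z := by nlinarith
  have hpoly := block_hi_poly hD' hz'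
  have hy : 0 < z + 1 + D := by linarith
  have e1 : 1 + D / (z + 1) = (z + 1 + D) / (z + 1) := by
    field_simp
  have e2 : 2 * Real.log (1 + D / (z + 1)) - Real.log ((z + 2 * D) / z) =
      Real.log ((z + 1 + D) ^ 2 * z / ((z + 1) ^ 2 * (z + 2 * D))) := by
    rw [e1, Real.log_div (by positivity) (by positivity), Real.log_div (by positivity) (by positivity),
      Real.log_div (by positivity) (by positivity), Real.log_mul (by positivity) (by positivity),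
      Real.log_mul (by positivity) (by positivity), Real.log_pow, Real.log_pow]
    push_cast
    ring
  rw [e2]
  have hR : 0 < (z + 1 + D) ^ 2 * z / ((z + 1) ^ 2 * (z + 2 * D)) := by positivity
  refine le_trans ?_ (Real.one_sub_inv_le_log_of_pos hR)
  have e3 : 1 - ((z + 1 + D) ^ 2 * z / ((z + 1) ^ 2 * (z + 2 * D)))⁻¹ =
      D * (D * z - 2 * z - 2) / ((z + 1 + D) ^ 2 * z) := by
    rw [inv_div]
    field_simp
    ring
  rw [e3, div_le_div_iff₀ (by positivity) (by positivity)]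
  have h1 : (D * z) * (9 * D * (z + 1 + D) ^ 2) ≤ (D * z) * (10 * z * (D * z - 2 * z - 2)) :=
    mul_le_mul_of_nonneg_left hpoly (by positivity)
  nlinarith

/-- HX26. `2 log (1 + D / (z + 1)) - log ((z + 2 D) / z) = log (1 + y)`,
`y = D (D z - 2 z - 2) / ((z + 2 D) (z + 1) ^ 2) ≥ 94 / 100 D ^ 2 / z ^ 2` -/
theorem block_hi {z D : ℕ} (hD : 40 ≤ D) (hz : 16 * D ^ 2 ≤ z) :
    9 / 10 * (D : ℝ) ^ 2 / (z : ℝ) ^ 2 ≤
      2 * Real.log (1 + (D : ℝ) / ((z : ℝ) + 1)) - Real.log (((z : ℝ) + 2 * D) / z) :=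
  block_hi_real (by exact_mod_cast hD) (by exact_mod_cast hz)

end Pool.Agent.Lib.MP_6b2d39_agHx
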