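import Mathlib

set_option autoImplicit false

namespace Pool.Agent.Lib.MP_6b2d39_agHx

/-- HX27. `p = D - 1`: `y = D (D z - 2 p z - 2 p ^ 2) / ((z + 2 D) (z + p) ^ 2)`
`≤ - D (D - 2) z / ((z + 2 D) (z + D) ^ 2) ≤ - 94 / 100 D ^ 2 / z ^ 2`, `log (1 + y) ≤ y` -/
theorem block_lo {z D : ℕ} (hD : 40 ≤ D) (hz : 16 * D ^ 2 ≤ z) :
    2 * Real.log (1 + (D : ℝ) / ((z : ℝ) + ((D - 1 : ℕ) : ℝ))) - Real.log (((z : ℝ) + 2 * D) / z) ≤
      -(9 / 10 * (D : ℝ) ^ 2 / (z : ℝ) ^ 2) := by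
  rw [Nat.cast_sub (by omega : 1 ≤ D), Nat.cast_one]
  have hd : (40 : ℝ) ≤ D := by exact_mod_cast hD
  have hZ : 16 * (D : ℝ) ^ 2 ≤ z := by exact_mod_cast hz
  generalize (D : ℝ) = d at *
  generalize (z : ℝ) = Z at *
  have hZ1 : 640 * d ≤ Z := by nlinarith
  have hZ0 : 0 < Z := by linarith
  have hw : 0 < Z + (d - 1) := by linarith
  have hZ2 : 0 < Z + 2 * d := by linarith
  have hd0 : 0 < d := by linarith
  obtain ⟨x, hx⟩ : ∃ x : ℝ, x = (1 + d / (Z + (d - 1))) ^ 2 / ((Z + 2 * d) / Z) := ⟨_, rfl⟩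
  have ha : 0 < 1 + d / (Z + (d - 1)) := by positivity
  have hb : 0 < (Z + 2 * d) / Z := by positivity
  have hx0 : 0 < x := by
    rw [hx]
    positivity
  have hlog : Real.log x = 2 * Real.log (1 + d / (Z + (d - 1))) - Real.log ((Z + 2 * d) / Z) := by
    rw [hx, Real.log_div (pow_pos ha 2).ne' hb.ne', Real.log_pow]
    norm_num
  rw [← hlog]
  refine (Real.log_le_sub_one_of_pos hx0).trans ?_
  have e1 : x - 1 = -(d * ((d - 2) * Z + 2 * (d - 1) ^ 2) / ((Z + 2 * d) * (Z + (d - 1)) ^ 2)) := by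
    rw [hx]
    field_simp
    ring
  rw [e1, neg_le_neg_iff, div_le_div_iff₀ (by positivity) (by positivity)]
  have f1 : Z + 2 * d ≤ 321 / 320 * Z := by linarith
  have f2 : Z + (d - 1) ≤ 641 / 640 * Z := by linarith
  have f3 : (Z + (d - 1)) ^ 2 ≤ (641 / 640 * Z) ^ 2 := pow_le_pow_left₀ hw.le f2 2
  have f4 : (Z + 2 * d) * (Z + (d - 1)) ^ 2 ≤ 321 / 320 * Z * (641 / 640 * Z) ^ 2 :=
    mul_le_mul f1 f3 (by positivity) (by positivity)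
  have f5 : 9 / 10 * d ^ 2 * ((Z + 2 * d) * (Z + (d - 1)) ^ 2) ≤
      9 / 10 * d ^ 2 * (321 / 320 * Z * (641 / 640 * Z) ^ 2) :=
    mul_le_mul_of_nonneg_left f4 (by positivity)
  have f6 : 9 / 10 * d ^ 2 * (321 / 320 * Z * (641 / 640 * Z) ^ 2) ≤ 95 / 100 * d ^ 2 * Z ^ 3 := by
    have : 0 ≤ d ^ 2 * Z ^ 3 := by positivity
    nlinarith
  have f7 : 95 / 100 * d ^ 2 * Z ^ 3 ≤ d * ((d - 2) * Z) * Z ^ 2 := by
    have h1 : 0 ≤ d * Z ^ 3 := by positivity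
    have h2 : 0 ≤ 5 / 100 * d - 2 := by linarith
    nlinarith [mul_nonneg h1 h2]
  have f8 : d * ((d - 2) * Z) * Z ^ 2 ≤ d * ((d - 2) * Z + 2 * (d - 1) ^ 2) * Z ^ 2 := by
    have : 0 ≤ d * (2 * (d - 1) ^ 2) * Z ^ 2 := by positivity
    nlinarith
  linarith

end Pool.Agent.Lib.MP_6b2d39_agHx
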