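import Pool.Agent.Lib.MP_6b2d39_agHx.WdB

set_option autoImplicit false

namespace Pool.Agent.Lib.MP_6b2d39_agHx

/-- HX21. (`v0 = 0`, the empty word) -/
theorem cov_zero {n B : ℕ} {η : ℝ} : Cov n B 0 η η := by
  intro z _ _
  refine ⟨0, fun t h0 h1 => ⟨0, Wd.nil z, ?_⟩⟩
  rw [zero_add, zero_sub, abs_neg, abs_of_nonneg h0]
  exact h1

theorem cov_mono {n B Λ : ℕ} {H H' η : ℝ} (h : Cov n B Λ H η) (hH : H' ≤ H) :
    Cov n B Λ H' η := by
  intro z h1 h2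
  obtain ⟨v0, hv⟩ := h z h1 h2
  exact ⟨v0, fun t h0 ht => hv t h0 (ht.trans hH)⟩

/-- a gadget in front: for `t ≤ H` its smaller value, for `t > H` its larger value -/
theorem cov_add {n B Λ l : ℕ} {H g η : ℝ} (hg : 0 ≤ g) (h : Cov n B Λ H η)
    (hG : ∀ z : ℕ, n ≤ 2 * z → z + l ≤ n → ∃ v w : ℝ, Wd B z (z + l) v ∧ Wd B z (z + l) w ∧
      g ≤ v - w ∧ v - w ≤ H) : Cov n B (l + Λ) (H + g) η := by
  intro z h1 h2
  obtain ⟨v, w, hv, hw, hg1, hg2⟩ := hG z h1 (by omega)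
  obtain ⟨v0, hc⟩ := h (z + l) (by omega) (by omega)
  have hzz : z + (l + Λ) = z + l + Λ := by omega
  rw [hzz]
  refine ⟨w + v0, fun t h0 ht => ?_⟩
  rcases le_or_gt t H with hH | hH
  · obtain ⟨u, hu, hu'⟩ := hc t h0 hH
    refine ⟨w + u, hw.append hu, ?_⟩
    have e : w + u - (w + v0 + t) = u - (v0 + t) := by ring
    rw [e]
    exact hu'
  · obtain ⟨u, hu, hu'⟩ := hc (t - (v - w)) (by linarith) (by linarith)
    refine ⟨v + u, hv.append hu, ?_⟩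
    have e : v + u - (w + v0 + t) = u - (v0 + (t - (v - w))) := by ring
    rw [e]
    exact hu'

end Pool.Agent.Lib.MP_6b2d39_agHx
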