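import Pool.Agent.Lib.MP_6b2d39_agHx.Defs

set_option autoImplicit false

namespace Pool.Agent.Lib.MP_6b2d39_agHx

open Pool.Agent.Lib.MP_ed661f_ag.G

private theorem gl_length (e i : ℕ) : (gl e i).length = i + 2 := by
  induction i with
  | zero => rfl
  | succ i ih =>
    show (gl e i).length + 1 = i + 1 + 2
    rw [ih]

private theorem gl_nonneg (e i : ℕ) : ∀ t ∈ gl e i, 0 ≤ t := by
  induction i with
  | zero =>
    intro t ht
    simp only [gl, List.mem_cons, List.not_mem_nil, or_false] at ht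
    rcases ht with rfl | rfl <;> positivity
  | succ i ih =>
    intro t ht
    simp only [gl, List.mem_cons] at ht
    rcases ht with rfl | ht
    · positivity
    · exact ih t ht

private theorem gl_prod (e i : ℕ) : (gl e i).prod =
    2 * 8 ^ i * 2 ^ (i * (i - 1) / 2) * (e : ℝ) ^ (i + 2) := by
  induction i with
  | zero =>
    simp [gl]
    ring
  | succ i ih =>
    show (2 ^ i * (8 * e) : ℝ) * (gl e i).prod = _
    rw [ih, Nat.triangle_succ, pow_add 2 (i * (i - 1) / 2) i]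
    ring

private theorem gl_sum (e i : ℕ) : (gl e i).sum = 3 * (e : ℝ) + 8 * e * (2 ^ i - 1) := by
  induction i with
  | zero =>
    simp [gl]
    ring
  | succ i ih =>
    show (2 ^ i * (8 * e) : ℝ) + (gl e i).sum = _
    rw [ih]
    ring

/-- HX20. `dl_log_bounds`; the product of the steps is `2 * 8 ^ i * 2 ^ (i * (i - 1) / 2) * e ^ (i + 2)`,
their sum is `3 e + 8 e (2 ^ i - 1)`, so `n / 2 ≤ z + 1` and `z + 1 + sum ≤ n`;
`K = (i + 1)! * 2 * 8 ^ i * 2 ^ (i * (i - 1) / 2)`. -/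
theorem gad_bounds (i : ℕ) : ∃ K : ℝ, 1 ≤ K ∧ ∀ e n z : ℕ, 2 ≤ e → n ≤ 2 * z →
    z + 2 ^ i * (8 * e) ≤ n →
    K * ((e : ℝ) / n) ^ (i + 2) ≤ -dl (gl e i) Real.log ((z : ℝ) + 1) ∧
    -dl (gl e i) Real.log ((z : ℝ) + 1) ≤ 2 ^ (i + 2) * K * ((e : ℝ) / n) ^ (i + 2) := by
  refine ⟨((i + 1).factorial : ℝ) * (2 * 8 ^ i * 2 ^ (i * (i - 1) / 2)), ?_, ?_⟩
  · have h1 : (1 : ℝ) ≤ ((i + 1).factorial : ℝ) := by
      exact_mod_cast Nat.succ_le_of_lt (Nat.factorial_pos (i + 1))
    have h2 : (1 : ℝ) ≤ 8 ^ i := one_le_pow₀ (by norm_num)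
    have h3 : (1 : ℝ) ≤ 2 ^ (i * (i - 1) / 2) := one_le_pow₀ (by norm_num)
    have h4 : (1 : ℝ) ≤ 2 * 8 ^ i := by linarith
    exact one_le_mul_of_one_le_of_one_le h1 (one_le_mul_of_one_le_of_one_le h4 h3)
  · intro e n z he hz hn
    set C : ℝ := ((i + 1).factorial : ℝ) * (2 * 8 ^ i * 2 ^ (i * (i - 1) / 2)) with hC
    have hC0 : 0 ≤ C := by positivity
    have he' : (2 : ℝ) ≤ e := by exact_mod_cast he
    have hz' : (n : ℝ) ≤ 2 * z := by exact_mod_cast hz
    have hn' : (z : ℝ) + 2 ^ i * (8 * e) ≤ n := by exact_mod_cast hn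
    have hz0 : (0 : ℝ) ≤ z := Nat.cast_nonneg z
    have hp : (0 : ℝ) < 2 ^ i * (8 * e) := by positivity
    have hn0 : (0 : ℝ) < n := by linarith
    have hz1 : (0 : ℝ) < (z : ℝ) + 1 := by linarith
    have key : C * (e : ℝ) ^ (i + 2) / ((z : ℝ) + 1 + (gl e i).sum) ^ (i + 2) ≤
        -dl (gl e i) Real.log ((z : ℝ) + 1) ∧
        -dl (gl e i) Real.log ((z : ℝ) + 1) ≤ C * (e : ℝ) ^ (i + 2) / ((z : ℝ) + 1) ^ (i + 2) := by
      have hl := gl_length e i
      have hpr := gl_prod e i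
      have hnn := gl_nonneg e i
      rcases hg : gl e i with _ | ⟨t, hs⟩
      · rw [hg] at hl
        simp at hl
      · rw [hg] at hl hpr hnn
        have hlen : hs.length = i + 1 := by
          simp only [List.length_cons] at hl
          omega
        have h := dl_log_bounds (t := t) (hs := hs) (hnn t (by simp))
          (fun x hx => hnn x (by simp [hx])) hz1
        rw [hlen, hpr] at h
        have h5 : ((i + 1).factorial : ℝ) *
            (2 * 8 ^ i * 2 ^ (i * (i - 1) / 2) * (e : ℝ) ^ (i + 2)) = C * (e : ℝ) ^ (i + 2) := by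
          rw [hC]
          ring
        rw [h5] at h
        exact h
    have hsum := gl_sum e i
    have hs0 : 0 ≤ (gl e i).sum := List.sum_nonneg (gl_nonneg e i)
    constructor
    · refine le_trans ?_ key.1
      have h6 : (z : ℝ) + 1 + (gl e i).sum ≤ n := by
        rw [hsum]
        nlinarith
      rw [div_pow, ← mul_div_assoc]
      exact div_le_div_of_nonneg_left (by positivity) (by positivity)
        (pow_le_pow_left₀ (by positivity) h6 _)
    · refine le_trans key.2 ?_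
      have h7 : (n : ℝ) / 2 ≤ (z : ℝ) + 1 := by linarith
      have h8 : C * (e : ℝ) ^ (i + 2) / ((z : ℝ) + 1) ^ (i + 2) ≤
          C * (e : ℝ) ^ (i + 2) / ((n : ℝ) / 2) ^ (i + 2) :=
        div_le_div_of_nonneg_left (by positivity) (by positivity)
          (pow_le_pow_left₀ (by positivity) h7 _)
      refine h8.trans (le_of_eq ?_)
      rw [div_pow, div_pow]
      field_simp

end Pool.Agent.Lib.MP_6b2d39_agHx
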