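import Pool.Agent.Lib.MP_6b2d39_agHx.WdB

set_option autoImplicit false

namespace Pool.Agent.Lib.MP_6b2d39_agHx

open Pool.Agent.Lib.MP_ed661f_ag.G

/-- HX19. Thue-Morse words. `i = 0`: the letters `(2 e, 1)`, `(2 e, 1)` and `(2 e, 1 + e)`,
`(2 e, 1)`; `i + 1`: `v z` followed by `w (z + 2 ^ i (8 e))`, and conversely. -/
theorem gadget (e : ℕ) (he : 2 ≤ e) (i : ℕ) : ∀ z : ℕ, ∃ v w : ℝ,
    Wd (2 * e) z (z + 2 ^ i * (8 * e)) v ∧ Wd (2 * e) z (z + 2 ^ i * (8 * e)) w ∧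
    v - w = -dl (gl e i) Real.log ((z : ℝ) + 1) := by
  induction i with
  | zero =>
    intro z
    have hz : (z + 2 * (2 * e)) + 2 * (2 * e) = z + 2 ^ 0 * (8 * e) := by omega
    have hn : Wd (2 * e) ((z + 2 * (2 * e)) + 2 * (2 * e)) (z + 2 ^ 0 * (8 * e)) 0 := by
      rw [hz]
      exact Wd.nil _
    refine ⟨_, _, Wd.cons (2 * e) 1 le_rfl (by omega) le_rfl
        (Wd.cons (2 * e) 1 le_rfl (by omega) le_rfl hn),
      Wd.cons (2 * e) (1 + e) (by omega) (by omega) le_rfl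
        (Wd.cons (2 * e) 1 le_rfl (by omega) le_rfl hn), ?_⟩
    have hz0 : (0 : ℝ) ≤ (z : ℝ) := Nat.cast_nonneg z
    have he0 : (0 : ℝ) ≤ (e : ℝ) := Nat.cast_nonneg e
    have h1 : (0 : ℝ) < (z : ℝ) + 1 := by linarith
    have h2 : (0 : ℝ) < (z : ℝ) + 1 + e := by linarith
    have h3 : (0 : ℝ) < (z : ℝ) + 1 + 2 * e := by linarith
    have h4 : (0 : ℝ) < (z : ℝ) + 1 + e + 2 * e := by linarith
    have e1 : (1 : ℝ) + ((2 * e : ℕ) : ℝ) / ((z : ℝ) + ((1 : ℕ) : ℝ)) =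
        ((z : ℝ) + 1 + 2 * e) / ((z : ℝ) + 1) := by
      push_cast
      field_simp
    have e2 : (1 : ℝ) + ((2 * e : ℕ) : ℝ) / ((z : ℝ) + ((1 + e : ℕ) : ℝ)) =
        ((z : ℝ) + 1 + e + 2 * e) / ((z : ℝ) + 1 + e) := by
      push_cast
      rw [← add_assoc]
      field_simp
    rw [e1, e2, Real.log_div h3.ne' h1.ne', Real.log_div h4.ne' h2.ne']
    simp only [gl, dl]
    ring
  | succ i ih =>
    intro z
    obtain ⟨v, w, hv, hw, h⟩ := ih z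
    obtain ⟨v', w', hv', hw', h'⟩ := ih (z + 2 ^ i * (8 * e))
    have hz : z + 2 ^ i * (8 * e) + 2 ^ i * (8 * e) = z + 2 ^ (i + 1) * (8 * e) := by
      rw [pow_succ]
      ring
    rw [hz] at hv' hw'
    refine ⟨v + w', w + v', hv.append hw', hw.append hv', ?_⟩
    have e1 : v + w' - (w + v') = (v - w) - (v' - w') := by ring
    have e2 : ((z + 2 ^ i * (8 * e) : ℕ) : ℝ) + 1 = (z : ℝ) + 1 + 2 ^ i * (8 * e) := by
      push_cast
      ring
    rw [e1, h, h', e2]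
    simp only [gl, dl]
    ring

end Pool.Agent.Lib.MP_6b2d39_agHx
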