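import Pool.Agent.Lib.MP_6b2d39_agHx.CovB
import Pool.Agent.Lib.MP_6b2d39_agHx.Gadget
import Pool.Agent.Lib.MP_6b2d39_agHx.GadB

set_option autoImplicit false

namespace Pool.Agent.Lib.MP_6b2d39_agHx

private theorem covS_bern (c : ℝ) (h0 : 0 ≤ c) (h1 : c ≤ 1) (j : ℕ) :
    (1 + c) ^ j ≤ 1 + (2 ^ j - 1) * c := by
  induction j with
  | zero => simp
  | succ j ih =>
    have h2 : (1 : ℝ) ≤ 2 ^ j := one_le_pow₀ (by norm_num)
    have h3 : (2 ^ j - 1) * (c * c) ≤ (2 ^ j - 1) * c :=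
      mul_le_mul_of_nonneg_left (by nlinarith) (by linarith)
    calc (1 + c) ^ (j + 1) = (1 + c) ^ j * (1 + c) := pow_succ _ _
      _ ≤ (1 + (2 ^ j - 1) * c) * (1 + c) := mul_le_mul_of_nonneg_right ih (by linarith)
      _ = 1 + 2 ^ j * c + (2 ^ j - 1) * (c * c) := by ring
      _ ≤ 1 + 2 ^ j * c + (2 ^ j - 1) * c := by linarith
      _ = 1 + (2 ^ (j + 1) - 1) * c := by ring

private theorem covS_pow (K : ℝ) (hK : 1 ≤ K) (a : ℝ) (ha : 1 ≤ a) (i : ℕ) :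
    K ≤ (a * K) ^ (i + 2) := by
  have h1 : 1 ≤ a * K := one_le_mul_of_one_le_of_one_le ha hK
  have h2 : (1 : ℝ) ≤ (a * K) ^ (i + 1) := one_le_pow₀ h1
  calc K = 1 * (1 * K) := by ring
    _ ≤ (a * K) ^ (i + 1) * (a * K) := by
        apply mul_le_mul h2 _ (by linarith) (by linarith)
        exact mul_le_mul_of_nonneg_right ha (by linarith)
    _ = (a * K) ^ (i + 2) := by ring

/-- HX22. one gadget. `K` from `gad_bounds i`, `j = i + 2`, `u0 = 12 K`, `e = ⌊u / (4 K)⌋₊`, so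
`2 ≤ e`, `u / (8 K) ≤ e ≤ u / (4 K)`, `2 e ≤ B`; the gadget has the value at most
`2 ^ j K (u / (4 K n)) ^ j ≤ (u / n) ^ j` and at least `γ (u / n) ^ j`, `γ = K / (8 K) ^ j ≤ 1`;
`c = γ / 2 ^ j`, `(1 + c) ^ j ≤ 1 + 2 ^ j c = 1 + γ`; length `2 ^ i 8 e ≤ 2 ^ (i + 1) u`,
`C = 2 ^ (i + 1) / c`. (`gadget`, `Wd.mono`, `cov_add`, `cov_mono`) -/
theorem cov_step (i : ℕ) : ∃ C u0 c : ℝ, 0 < C ∧ 1 ≤ u0 ∧ 0 < c ∧ c ≤ 1 ∧
    ∀ (n B Λ : ℕ) (η u : ℝ), 1 ≤ n → u0 ≤ u → u ≤ 2 * B → Cov n B Λ ((u / n) ^ (i + 2)) η →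
      ∃ Λ' : ℕ, (Λ' : ℝ) ≤ Λ + C * ((1 + c) * u - u) ∧
        Cov n B Λ' (((1 + c) * u / n) ^ (i + 2)) η := by
  obtain ⟨K, hK, hb⟩ := gad_bounds i
  have hK0 : 0 < K := by linarith
  have h8 : K ≤ (8 * K) ^ (i + 2) := covS_pow K hK 8 (by norm_num) i
  have h2K : K ≤ (2 * K) ^ (i + 2) := covS_pow K hK 2 (by norm_num) i
  have h8pos : 0 < (8 * K) ^ (i + 2) := by positivity
  have h2pos : (0 : ℝ) < 2 ^ (i + 2) := by positivity
  have h2ge : (1 : ℝ) ≤ 2 ^ (i + 2) := one_le_pow₀ (by norm_num)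
  obtain ⟨γ, hγ⟩ : ∃ γ : ℝ, γ = K / (8 * K) ^ (i + 2) := ⟨_, rfl⟩
  have hγ0 : 0 < γ := by rw [hγ]; positivity
  have hγ1 : γ ≤ 1 := by rw [hγ]; exact (div_le_one h8pos).2 h8
  obtain ⟨c, hc⟩ : ∃ c : ℝ, c = γ / 2 ^ (i + 2) := ⟨_, rfl⟩
  have hc0 : 0 < c := by rw [hc]; positivity
  have hc1 : c ≤ 1 := by
    rw [hc, div_le_one h2pos]; linarith
  have hcγ : 2 ^ (i + 2) * c = γ := by rw [hc]; field_simp
  refine ⟨2 ^ (i + 1) / c, 12 * K, c, by positivity, by linarith, hc0, hc1, ?_⟩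
  intro n B Λ η u hn hu huB hcov
  have hn0 : (0 : ℝ) < n := by exact_mod_cast hn
  have hu0 : 0 < u := by linarith
  obtain ⟨e, he⟩ : ∃ e : ℕ, e = ⌊u / (4 * K)⌋₊ := ⟨_, rfl⟩
  have hq : 3 ≤ u / (4 * K) := by
    rw [le_div_iff₀ (by positivity)]; linarith
  have he1 : (e : ℝ) ≤ u / (4 * K) := by
    rw [he]; exact Nat.floor_le (by positivity)
  have he2 : u / (4 * K) < e + 1 := by
    rw [he]; exact Nat.lt_floor_add_one _
  have he3 : 2 ≤ e := by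
    rw [he]; exact Nat.le_floor (by push_cast; linarith)
  have he4 : u / (8 * K) ≤ e := by
    have : u / (8 * K) = u / (4 * K) / 2 := by
      rw [div_div]; congr 1; ring
    rw [this]; linarith
  have hle : u / (4 * K) ≤ u / 4 := by
    apply div_le_div_of_nonneg_left hu0.le (by norm_num) (by linarith)
  have he5 : 2 * e ≤ B := by
    have : (2 * e : ℝ) ≤ B := by linarith
    exact_mod_cast this
  obtain ⟨x, hx⟩ : ∃ x : ℝ, x = u / n := ⟨_, rfl⟩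
  have hx0 : 0 < x := by rw [hx]; positivity
  have hpow : 0 < x ^ (i + 2) := by positivity
  have hlow : γ * x ^ (i + 2) ≤ K * ((e : ℝ) / n) ^ (i + 2) := by
    have h1 : x / (8 * K) ≤ (e : ℝ) / n := by
      rw [hx, div_right_comm]
      exact div_le_div_of_nonneg_right he4 hn0.le
    have h2 : (x / (8 * K)) ^ (i + 2) ≤ ((e : ℝ) / n) ^ (i + 2) :=
      pow_le_pow_left₀ (by positivity) h1 _
    calc γ * x ^ (i + 2) = K * (x / (8 * K)) ^ (i + 2) := by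
          rw [hγ, div_pow]; ring
      _ ≤ K * ((e : ℝ) / n) ^ (i + 2) := mul_le_mul_of_nonneg_left h2 hK0.le
  have hup : 2 ^ (i + 2) * K * ((e : ℝ) / n) ^ (i + 2) ≤ x ^ (i + 2) := by
    have h1 : 2 * ((e : ℝ) / n) ≤ x / (2 * K) := by
      have : (e : ℝ) / n ≤ u / (4 * K) / n := div_le_div_of_nonneg_right he1 hn0.le
      have h3 : x / (2 * K) = 2 * (u / (4 * K) / n) := by
        rw [hx]; field_simp; ring
      rw [h3]; linarith
    have h2 : (2 * ((e : ℝ) / n)) ^ (i + 2) ≤ (x / (2 * K)) ^ (i + 2) :=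
      pow_le_pow_left₀ (by positivity) h1 _
    calc 2 ^ (i + 2) * K * ((e : ℝ) / n) ^ (i + 2) = K * (2 * ((e : ℝ) / n)) ^ (i + 2) := by
          rw [mul_pow]; ring
      _ ≤ K * (x / (2 * K)) ^ (i + 2) := mul_le_mul_of_nonneg_left h2 hK0.le
      _ = K / (2 * K) ^ (i + 2) * x ^ (i + 2) := by rw [div_pow]; ring
      _ ≤ 1 * x ^ (i + 2) := mul_le_mul_of_nonneg_right
          ((div_le_one (by positivity)).2 h2K) hpow.le
      _ = x ^ (i + 2) := one_mul _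
  have hadd := cov_add (n := n) (B := B) (Λ := Λ) (l := 2 ^ i * (8 * e)) (H := (u / n) ^ (i + 2))
    (g := γ * x ^ (i + 2)) (η := η) (by positivity) hcov (by
      intro z hz hzl
      obtain ⟨v, w, hv, hw, hvw⟩ := gadget e he3 i z
      obtain ⟨hb1, hb2⟩ := hb e n z he3 hz hzl
      refine ⟨v, w, hv.mono he5, hw.mono he5, ?_, ?_⟩
      · rw [hvw]; exact hlow.trans hb1
      · rw [hvw, ← hx]; exact hb2.trans hup)
  refine ⟨2 ^ i * (8 * e) + Λ, ?_, cov_mono hadd ?_⟩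
  · push_cast
    have h1 : (e : ℝ) ≤ u / 4 := he1.trans hle
    have h2 : (2 : ℝ) ^ i * (8 * e) ≤ 2 ^ (i + 1) * u := by
      have h3 : (0 : ℝ) < 2 ^ i := by positivity
      calc (2 : ℝ) ^ i * (8 * e) ≤ 2 ^ i * (8 * (u / 4)) :=
            mul_le_mul_of_nonneg_left (by linarith) h3.le
        _ = 2 ^ (i + 1) * u := by ring
    have h4 : 2 ^ (i + 1) / c * ((1 + c) * u - u) = 2 ^ (i + 1) * u := by
      field_simp; ring
    rw [h4]; linarith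
  · have h1 : (1 + c) ^ (i + 2) ≤ 1 + γ := by
      have := covS_bern c hc0.le hc1 (i + 2)
      have h3 : (2 ^ (i + 2) - 1) * c = γ - c := by rw [sub_mul, hcγ, one_mul]
      linarith
    calc ((1 + c) * u / n) ^ (i + 2) = (1 + c) ^ (i + 2) * x ^ (i + 2) := by
          rw [hx, mul_div_assoc, mul_pow]
      _ ≤ (1 + γ) * x ^ (i + 2) := mul_le_mul_of_nonneg_right h1 hpow.le
      _ = (u / n) ^ (i + 2) + γ * x ^ (i + 2) := by rw [← hx]; ring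

end Pool.Agent.Lib.MP_6b2d39_agHx
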