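import Pool.Agent.Lib.MP_6b2d39_agHl.Defs
import Pool.Agent.Lib.MP_ed661f_ag.G.Diff

/-!
Homogeneous systems, all degrees but one (THEOREM HX): definitions.
-/

set_option autoImplicit false

namespace Pool.Agent.Lib.MP_6b2d39_agHx

/-- chains of steps of length at least the slope: from `x` to `x' = s / x` if `x ^ 2 ≤ s` -/
inductive Tch (x0 : ℝ) : ℝ → Prop
  | refl : Tch x0 x0
  | step {x x' : ℝ} {s : ℕ} : Tch x0 x → x * x' = s → x ^ 2 ≤ s → Tch x0 x'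

/-- words from the integer `z` to the integer `z'` with the value `v`; the letter `(D, p)` at `z`
stands for the two steps of lengths `z + p`, `z + p + D`, which multiply `x` by
`1 + D / (z + p)` -/
inductive Wd (B : ℕ) : ℕ → ℕ → ℝ → Prop
  | nil (z : ℕ) : Wd B z z 0
  | cons {z z' : ℕ} {v : ℝ} (D p : ℕ) : 1 ≤ p → p + 1 ≤ D → D ≤ B → Wd B (z + 2 * D) z' v →
      Wd B z z' (Real.log (1 + (D : ℝ) / ((z : ℝ) + p)) + v)

/-- the words of length `Λ` starting at `z` (with `n / 2 ≤ z`, `z + Λ ≤ n`) take all the values of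
an interval of length `H`, up to `η` -/
def Cov (n B Λ : ℕ) (H η : ℝ) : Prop :=
  ∀ z : ℕ, n ≤ 2 * z → z + Λ ≤ n → ∃ v0 : ℝ, ∀ t : ℝ, 0 ≤ t → t ≤ H →
    ∃ v : ℝ, Wd B z (z + Λ) v ∧ |v - (v0 + t)| ≤ η

/-- the steps of the iterated difference of the logarithm belonging to a gadget -/
noncomputable def gl (e : ℕ) : ℕ → List ℝ
  | 0 => [(e : ℝ), 2 * e]
  | i + 1 => (2 ^ i * (8 * e) : ℝ) :: gl e i

/-- the steps before the last chain: `a` (from the triangle), `s1 = a x2`, `s2 = x2 x3` -/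
structure Hp (x2 x3 xf : ℝ) (a s1 s2 : ℕ) : Prop where
  ha : 1 ≤ a
  e1 : a * x2 = s1
  e2 : x2 * x3 = s2
  l1 : (a : ℝ) ^ 2 ≤ s1
  l2 : x2 ^ 2 ≤ s2
  hc : Tch x3 xf

/-- their sizes -/
structure Sz (n A : ℕ) (ε x2 x3 xf : ℝ) (a : ℕ) : Prop where
  ha : 100 ≤ 8 * ε * a
  ha2 : (a : ℝ) ^ 2 ≤ ε / 4 * √n
  h2 : √n - ε / 3 ≤ x2
  h23 : x2 ≤ x3
  h3 : x3 ≤ √n - ε / 5
  h3f : x3 ≤ xf
  hf : xf ^ 2 ≤ n
  hf' : n * (1 - 1 / (n : ℝ) ^ (A + 1)) ≤ xf ^ 2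

/-- upper degree -/
noncomputable def al (N : ℕ) (x2 : ℝ) (a : ℕ) : ℝ :=
  N + 1 / 2 - x2 / 2 + 1 / (8 * a) + 5 * a ^ 2 / (8 * x2)

/-- lower degree -/
noncomputable def be (N : ℕ) (x2 : ℝ) (a : ℕ) : ℝ :=
  N + 1 / 2 - x2 / 2 - 1 / (8 * a) - a ^ 2 / (8 * x2)

end Pool.Agent.Lib.MP_6b2d39_agHx
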