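import Mathlib

set_option autoImplicit false

namespace Pool.Agent.Lib.MP_6b2d39_agHx

/-- HX6. With `Y = (S + n / 2) / √n ≥ √n m ≥ 3 n / ε` and `(d + 3 / 2) ^ 2 ≤ Y ^ 2 + 1 / 4 - 2 ε d`:
otherwise `Y - 4 / 5 ε < d + 3 / 2`, so `2 ε (Y - 4 / 5 ε - 3 / 2) < 2 ε d < 1 / 4 + 8 / 5 ε Y`,
`2 / 5 ε Y < 1 / 4 + 3 ε + 8 / 5 ε ^ 2 < 10`, but `ε Y ≥ 3 n`. -/
theorem deg_neg {n d m : ℕ} {ε S T : ℝ} (hn : 10000 ≤ n) (hε : 0 < ε) (hε' : ε ≤ 1 / 2)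
    (hm : 3 * √n ≤ ε * m) (hS : (n : ℝ) * m ≤ S)
    (hT : T ≤ (S + n / 2) ^ 2 / (2 * n))
    (hd : ((d : ℝ) + 1) * (d + 2) / 2 - T ≤ -(ε * d)) :
    (d : ℝ) + 3 / 2 ≤ (S + n / 2) / √n - 4 / 5 * ε := by
  have hn' : (10000 : ℝ) ≤ n := by exact_mod_cast hn
  have hn0 : (0 : ℝ) < n := by linarith
  have hs0 : 0 < √(n : ℝ) := Real.sqrt_pos.mpr hn0
  have hss : √(n : ℝ) * √(n : ℝ) = n := Real.mul_self_sqrt hn0.le
  obtain ⟨Y, hY⟩ : ∃ Y : ℝ, Y = (S + n / 2) / √n := ⟨_, rfl⟩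
  have hYs : Y * √(n : ℝ) = S + n / 2 := by
    rw [hY]
    exact div_mul_cancel₀ _ hs0.ne'
  have hYT : (S + n / 2) ^ 2 / (2 * n) = Y ^ 2 / 2 := by
    rw [← hYs]
    have h1 : (Y * √(n : ℝ)) ^ 2 = Y ^ 2 * n := by
      rw [mul_pow, pow_two (√(n : ℝ)), hss]
    rw [h1]
    field_simp
  have hεY : 3 * (n : ℝ) ≤ ε * Y := by
    have h1 : (n : ℝ) * (3 * √(n : ℝ)) ≤ n * (ε * m) := mul_le_mul_of_nonneg_left hm hn0.le
    have h2 : ε * (n * m) ≤ ε * S := mul_le_mul_of_nonneg_left hS hε.le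
    have h3 : 0 ≤ ε * (n / 2) := by positivity
    have h4 : (3 * (n : ℝ)) * √(n : ℝ) ≤ (ε * Y) * √(n : ℝ) := by
      have h5 : (ε * Y) * √(n : ℝ) = ε * S + ε * (n / 2) := by
        rw [mul_assoc, hYs]
        ring
      rw [h5]
      linarith
    exact le_of_mul_le_mul_right h4 hs0
  rw [hYT] at hT
  rw [← hY]
  by_contra hc
  have hc := not_le.mp hc
  have hY0 : 0 < Y - 4 / 5 * ε := by
    have h1 : ε * Y ≤ 1 / 2 * Y ∨ Y < 0 := by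
      by_cases h : 0 ≤ Y
      · exact Or.inl (mul_le_mul_of_nonneg_right hε' h)
      · exact Or.inr (not_le.mp h)
    rcases h1 with h1 | h1
    · linarith
    · have := mul_neg_of_pos_of_neg hε h1
      linarith
  have hsq : (Y - 4 / 5 * ε) ^ 2 < ((d : ℝ) + 3 / 2) ^ 2 := by
    exact pow_lt_pow_left₀ hc hY0.le (by norm_num)
  have hd2 : ((d : ℝ) + 3 / 2) ^ 2 ≤ Y ^ 2 + 1 / 4 - 2 * (ε * d) := by nlinarith
  have hεd : ε * (Y - 4 / 5 * ε - 3 / 2) ≤ ε * d :=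
    mul_le_mul_of_nonneg_left (by linarith) hε.le
  have hε2 : ε ^ 2 ≤ 1 / 4 := by nlinarith
  nlinarith

end Pool.Agent.Lib.MP_6b2d39_agHx
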