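import Mathlib

set_option autoImplicit false

namespace Pool.Agent.Lib.MP_6b2d39_agHx

/-- HX7. With `Y = (S + n / 2) / √n ≥ √n m ≥ 3 n / ε` and
`(d + 3 / 2) ^ 2 ≥ Y ^ 2 - n / 4 + 1 / 4 + 2 ε d`: first `d + 3 / 2 ≥ Y - ε / 6` (`ε Y / 3 ≥ n`);
otherwise `d + 3 / 2 < Y + 4 / 5 ε`, so `8 / 5 ε Y + 16 / 25 ε ^ 2 > - n / 4 + 2 ε d`
`≥ - n / 4 + 2 ε Y - 4 ε`, `2 / 5 ε Y < n / 4 + 10`, but `ε Y ≥ 3 n`. -/
theorem deg_pos {n d m : ℕ} {ε S T : ℝ} (hn : 10000 ≤ n) (hε : 0 < ε) (hε' : ε ≤ 1 / 2)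
    (hm : 3 * √n ≤ ε * m) (hS : (n : ℝ) * m ≤ S)
    (hT : (S + n / 2) ^ 2 / (2 * n) - n / 8 ≤ T)
    (hd : ε * d ≤ ((d : ℝ) + 1) * (d + 2) / 2 - T) :
    (S + n / 2) / √n + 4 / 5 * ε ≤ (d : ℝ) + 3 / 2 := by
  have hnR : (10000 : ℝ) ≤ n := by exact_mod_cast hn
  have hn0 : (0 : ℝ) < n := by linarith
  have hs0 : 0 < √(n : ℝ) := Real.sqrt_pos.2 hn0
  have hss : √(n : ℝ) * √(n : ℝ) = n := Real.mul_self_sqrt hn0.le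
  obtain ⟨Y, hY⟩ : ∃ Y, Y = (S + n / 2) / √n := ⟨_, rfl⟩
  have hYs : Y * √(n : ℝ) = S + n / 2 := by
    rw [hY, div_mul_cancel₀ _ hs0.ne']
  have hYY : Y ^ 2 * n = (S + n / 2) ^ 2 := by
    rw [← hYs, mul_pow, pow_two (√(n : ℝ)), hss]
  have hT' : Y ^ 2 / 2 - n / 8 ≤ T := by
    have : (S + n / 2) ^ 2 / (2 * n) = Y ^ 2 / 2 := by
      rw [← hYY]
      field_simp
    rwa [this] at hT
  have hYm : √(n : ℝ) * m ≤ Y := by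
    have h1 : (√(n : ℝ) * m) * √(n : ℝ) ≤ Y * √(n : ℝ) := by
      rw [hYs]
      have h2 : (√(n : ℝ) * m) * √(n : ℝ) = n * m := by
        rw [mul_right_comm, hss]
      rw [h2]
      linarith
    exact le_of_mul_le_mul_right h1 hs0
  have hεY : 3 * (n : ℝ) ≤ ε * Y := by
    calc 3 * (n : ℝ) = 3 * √(n : ℝ) * √(n : ℝ) := by rw [mul_assoc, hss]
      _ ≤ ε * m * √(n : ℝ) := mul_le_mul_of_nonneg_right hm hs0.le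
      _ = ε * (√(n : ℝ) * m) := by ring
      _ ≤ ε * Y := mul_le_mul_of_nonneg_left hYm hε.le
  have hd0 : (0 : ℝ) ≤ d := Nat.cast_nonneg d
  have hY0 : 1 ≤ Y := by
    by_contra h
    rw [not_le] at h
    nlinarith
  rw [← hY]
  generalize (d : ℝ) = D at hd hd0 ⊢
  have hε2 : ε ^ 2 ≤ 1 / 4 := by nlinarith
  have hmain : Y ^ 2 - n / 4 + 1 / 4 + 2 * (ε * D) ≤ (D + 3 / 2) ^ 2 := by nlinarith
  have h1 : Y - ε / 6 ≤ D + 3 / 2 := by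
    by_contra h
    rw [not_le] at h
    have h2 : (D + 3 / 2) ^ 2 ≤ (Y - ε / 6) ^ 2 := pow_le_pow_left₀ (by linarith) h.le 2
    have h3 : (0 : ℝ) ≤ ε * D := mul_nonneg hε.le hd0
    nlinarith
  by_contra h
  rw [not_le] at h
  have h2 : (D + 3 / 2) ^ 2 ≤ (Y + 4 / 5 * ε) ^ 2 := pow_le_pow_left₀ (by linarith) h.le 2
  have h3 : ε * (Y - ε / 6) ≤ ε * (D + 3 / 2) := mul_le_mul_of_nonneg_left h1 hε.le
  nlinarith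

end Pool.Agent.Lib.MP_6b2d39_agHx
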