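import Mathlib

set_option autoImplicit false

namespace Pool.Agent.Lib.MP_6b2d39_agHx

/-- HX10. Discrete continuity modulo `T`. With `w i = u i - T ∑ l < i, q l` (increments in
`[c1, c2]`, `w K ≥ w 0 + T`) take the integer `q` with `w 0 ≤ τ + T q ≤ w 0 + T` and the least `i`
with `τ + T q ≤ w i` (`Nat.find`, or induction on `K`). -/
theorem hit {u : ℕ → ℝ} {T c1 c2 : ℝ} {K : ℕ} (hT : 0 < T) (h1 : 0 < c1) (hK : T ≤ K * c1)
    (h : ∀ i < K, ∃ q : ℤ, c1 ≤ u (i + 1) - u i - T * q ∧ u (i + 1) - u i - T * q ≤ c2) (τ : ℝ) :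
    ∃ i ≤ K, ∃ q : ℤ, 0 ≤ u i - τ - T * q ∧ u i - τ - T * q ≤ c2 := by
  have key : ∀ i ≤ K, (∃ j ≤ i, ∃ q : ℤ, 0 ≤ u j - τ - T * q ∧ u j - τ - T * q ≤ c2) ∨
      (∃ q : ℤ, i * c1 - T ≤ u i - τ - T * q ∧ u i - τ - T * q < 0) := by
    intro i
    induction i with
    | zero =>
      intro _
      right
      refine ⟨⌊(u 0 - τ) / T⌋ + 1, ?_, ?_⟩
      · have h2 := Int.floor_le ((u 0 - τ) / T)
        rw [le_div_iff₀ hT] at h2
        push_cast
        nlinarith
      · have h2 := Int.lt_floor_add_one ((u 0 - τ) / T)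
        rw [div_lt_iff₀ hT] at h2
        push_cast
        nlinarith
    | succ i ih =>
      intro hi
      rcases ih (Nat.le_of_succ_le hi) with ⟨j, hj, q, hq⟩ | ⟨q, hq1, hq2⟩
      · exact Or.inl ⟨j, hj.trans (Nat.le_succ i), q, hq⟩
      · obtain ⟨p, hp1, hp2⟩ := h i hi
        have h3 : u (i + 1) - τ - T * ((q + p : ℤ) : ℝ) =
            (u i - τ - T * q) + (u (i + 1) - u i - T * p) := by
          push_cast
          ring
        by_cases h4 : 0 ≤ u (i + 1) - τ - T * ((q + p : ℤ) : ℝ)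
        · left
          refine ⟨i + 1, le_rfl, q + p, h4, ?_⟩
          rw [h3]
          linarith
        · right
          refine ⟨q + p, ?_, lt_of_not_ge h4⟩
          rw [h3]
          push_cast
          linarith
  rcases key K le_rfl with ⟨j, hj, q, hq⟩ | ⟨q, hq1, hq2⟩
  · exact ⟨j, hj, q, hq⟩
  · exfalso
    linarith

end Pool.Agent.Lib.MP_6b2d39_agHx
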