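import Pool.Agent.Lib.MP_6b2d39_agHx.Defs

set_option autoImplicit false

namespace Pool.Agent.Lib.MP_6b2d39_agHx

/-- HX8. `1 / (8 a) ≤ ε / 100`, `5 a ^ 2 / (8 x2) ≤ 157 / 1000 ε`, `√n - x2 ≤ ε / 3`, so
`al + (xf - x3) ≤ S / √n - 13 / 100 ε` and `al ≤ S / √n`; the products with `xf ≤ √n` and
`x3 ≤ √n - ε / 5`; `η n (m + 1) ≤ ε √n / 100`; `ε S / (5 √n) ≥ 3 n / 5`,
`x2 ^ 2 / 2 + a ^ 2 / 2 ≤ n / 2 + √n / 16 ≤ 3 n / 5`. -/
theorem neg_fin {n A a d m : ℕ} {ε η x2 x3 xf S : ℝ} (hn : 10000 ≤ n) (hε : 0 < ε)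
    (hε' : ε ≤ 1 / 2) (hz : Sz n A ε x2 x3 xf a) (hη : 0 ≤ η)
    (hηm : η * √n * (m + 2) ≤ ε / 100) (hm : 3 * √n ≤ ε * m) (hS : (n : ℝ) * m ≤ S)
    (hd : (d : ℝ) + 3 / 2 ≤ (S + n / 2) / √n - 4 / 5 * ε) :
    xf * (al (d + 1) x2 a + (xf - x3)) ≤ S - η * n * (m + 1) ∧
    x3 * max (al (d + 1) x2 a) 0 + x2 ^ 2 / 2 + (a : ℝ) ^ 2 / 2 ≤ S ∧
    xf * max (al (d + 1) x2 a + (xf - x3)) 0 ≤ S := by
  obtain ⟨h1, h2, h3, h4, h5, h6, h7, -⟩ := hz
  have hn0 : (0 : ℝ) ≤ n := Nat.cast_nonneg n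
  have hn1 : (10000 : ℝ) ≤ n := by exact_mod_cast hn
  obtain ⟨r, hr⟩ : ∃ r : ℝ, r = √n := ⟨_, rfl⟩
  rw [← hr] at hηm hm hd h2 h3 h5
  have hr0 : 0 ≤ r := by rw [hr]; exact Real.sqrt_nonneg _
  have hrr : r * r = n := by rw [hr]; exact Real.mul_self_sqrt hn0
  have hr100 : 100 ≤ r := by nlinarith
  have hrp : 0 < r := by linarith
  have hx2 : 0 < x2 := by linarith
  have ha : (0 : ℝ) < a := by
    by_contra hcon
    have h8 : (a : ℝ) ≤ 0 := not_lt.mp hcon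
    nlinarith
  have hxf : xf ≤ r := by
    rw [hr]
    exact Real.le_sqrt_of_sq_le h7
  have hxf0 : 0 ≤ xf := by linarith
  -- the terms of `al`
  have t1 : 1 / (8 * (a : ℝ)) ≤ ε / 100 := by
    rw [div_le_div_iff₀ (by positivity) (by norm_num)]
    nlinarith
  have t2 : 5 * (a : ℝ) ^ 2 / (8 * x2) ≤ 157 / 1000 * ε := by
    rw [div_le_iff₀ (by positivity)]
    have h8 : r - 1 / 6 ≤ x2 := by linarith
    have h9 : ε * (r - 1 / 6) ≤ ε * x2 := mul_le_mul_of_nonneg_left h8 hε.le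
    nlinarith [mul_nonneg hε.le (sub_nonneg.mpr hr100)]
  have hal : al (d + 1) x2 a ≤ S / r - 46 / 100 * ε := by
    unfold al
    have h8 : (S + (n : ℝ) / 2) / r = S / r + r / 2 := by
      rw [← hrr]
      field_simp
    rw [h8] at hd
    push_cast
    linarith
  have hal2 : al (d + 1) x2 a + (xf - x3) ≤ S / r - 12 / 100 * ε := by linarith
  have hm0 : 0 ≤ (m : ℝ) := Nat.cast_nonneg m
  have hεm : 300 ≤ ε * m := by linarith
  have hm600 : 600 ≤ (m : ℝ) := by nlinarith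
  have hS0 : r * 60000 ≤ S := by nlinarith
  have hSr : 60000 ≤ S / r := by
    rw [le_div_iff₀ hrp]
    linarith
  have hSr2 : r * (S / r) = S := by field_simp
  refine ⟨?_, ?_, ?_⟩
  · have h8 : xf * (al (d + 1) x2 a + (xf - x3)) ≤ xf * (S / r - 12 / 100 * ε) :=
      mul_le_mul_of_nonneg_left hal2 hxf0
    have h9 : xf * (S / r - 12 / 100 * ε) ≤ r * (S / r - 12 / 100 * ε) :=
      mul_le_mul_of_nonneg_right hxf (by linarith)
    have h10 : η * n * (m + 1) ≤ r * (ε / 100) := by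
      have h11 : η * n * (m + 1) = r * (η * r * (m + 1)) := by
        rw [← hrr]
        ring
      rw [h11]
      refine mul_le_mul_of_nonneg_left (le_trans ?_ hηm) hr0
      exact mul_le_mul_of_nonneg_left (by linarith) (mul_nonneg hη hr0)
    nlinarith
  · have h8 : max (al (d + 1) x2 a) 0 ≤ S / r := max_le (by linarith) (by linarith)
    have hx3 : 0 ≤ x3 := by linarith
    have h9 : x3 * max (al (d + 1) x2 a) 0 ≤ x3 * (S / r) := mul_le_mul_of_nonneg_left h8 hx3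
    have h10 : x3 * (S / r) ≤ (r - ε / 5) * (S / r) :=
      mul_le_mul_of_nonneg_right h5 (by linarith)
    have h11 : 3 * (n : ℝ) / 5 ≤ ε / 5 * (S / r) := by
      have h12 : (n : ℝ) * m / r ≤ S / r := div_le_div_of_nonneg_right hS hr0
      have h13 : (n : ℝ) * m / r = r * m := by
        rw [← hrr]
        field_simp
      rw [h13] at h12
      have h14 : ε / 5 * (r * m) ≤ ε / 5 * (S / r) :=
        mul_le_mul_of_nonneg_left h12 (by positivity)
      have h15 : r * (3 * r) ≤ r * (ε * m) := mul_le_mul_of_nonneg_left hm hr0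
      nlinarith
    have h16 : x2 ^ 2 ≤ n := by nlinarith
    have h17 : (a : ℝ) ^ 2 ≤ r / 8 := by nlinarith
    nlinarith
  · have h8 : max (al (d + 1) x2 a + (xf - x3)) 0 ≤ S / r := max_le (by linarith) (by linarith)
    calc xf * max (al (d + 1) x2 a + (xf - x3)) 0 ≤ xf * (S / r) :=
          mul_le_mul_of_nonneg_left h8 hxf0
      _ ≤ r * (S / r) := mul_le_mul_of_nonneg_right hxf (by linarith)
      _ = S := hSr2

end Pool.Agent.Lib.MP_6b2d39_agHx
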