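import Mathlib

set_option autoImplicit false

namespace Pool.Agent.Lib.MP_6b2d39_agHx

/-- HX34. `x2 ^ 2 = z + θ`, `s2 = z + 1`, `x3 = s2 / x2`: `x3 ^ 2 - (z + 2)
= (1 - (z + 2) θ) / (z + θ)`; `n - x2 ^ 2` lies between `9 / 5 τ √n - τ ^ 2` and `2 τ √n`. With
`z0 = z + 2`, `K = k - 1`. -/
theorem par_a (τ : ℝ) (hτ : 0 < τ) (hτ' : τ ≤ 1 / 8) : ∃ N0 : ℕ, ∀ (n z k : ℕ) (x2 : ℝ), N0 ≤ n →
    n = z + 2 * k → √n - τ ≤ x2 → x2 ≤ √n - 9 / 10 * τ → |x2 ^ 2 - z| ≤ τ ^ 2 / 32 →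
    1 ≤ k ∧ 4 / 5 * τ * √n ≤ ((k - 1 : ℕ) : ℝ) ∧ ((k - 1 : ℕ) : ℝ) ≤ 11 / 10 * τ * √n ∧
    0 < x2 ∧ x2 ^ 2 ≤ (z : ℝ) + 1 ∧ x2 ≤ ((z : ℝ) + 1) / x2 ∧
    ((z : ℝ) + 1) / x2 ≤ √n - 4 / 5 * τ ∧
    |(((z : ℝ) + 1) / x2) ^ 2 - ((z + 2 : ℕ) : ℝ)| ≤ τ ^ 2 / 16 := by
  refine ⟨⌈(12 / τ) ^ 2⌉₊, ?_⟩
  intro n z k x2 hn hnz h1 h2 h3
  have hn' : (12 / τ) ^ 2 ≤ (n : ℝ) := (Nat.le_ceil _).trans (by exact_mod_cast hn)
  have hs : 12 / τ ≤ √n := Real.le_sqrt_of_sq_le hn'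
  obtain ⟨s, hsd⟩ : ∃ s : ℝ, s = √n := ⟨_, rfl⟩
  have hss : s ^ 2 = n := by
    rw [hsd]
    exact Real.sq_sqrt (Nat.cast_nonneg n)
  rw [← hsd] at h1 h2 hs ⊢
  have hτs : 12 ≤ s * τ := (div_le_iff₀ hτ).1 hs
  have hs0 : 0 < s := lt_of_lt_of_le (by positivity) hs
  have hτ2 : τ ^ 2 ≤ 1 / 64 := by
    have h6 := pow_le_pow_left₀ hτ.le hτ' 2
    linarith
  have hτ20 : 0 < τ ^ 2 := by positivity
  have hx : 11 ≤ τ * x2 := by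
    have h6 : τ * (s - τ) ≤ τ * x2 := mul_le_mul_of_nonneg_left h1 hτ.le
    have h7 : τ * (s - τ) = s * τ - τ ^ 2 := by ring
    linarith
  have hx0 : 0 < x2 := by
    by_contra hcon
    have h4 : τ * x2 ≤ 0 := mul_nonpos_of_nonneg_of_nonpos hτ.le (not_lt.1 hcon)
    linarith
  obtain ⟨h4, h5⟩ := abs_le.1 h3
  have hnr : (n : ℝ) = z + 2 * k := by
    rw [hnz]
    push_cast
    ring
  have hu1 : 9 / 10 * τ ≤ s - x2 := by linarith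
  have hu2 : s - x2 ≤ τ := by linarith
  have hu3 : (s - x2) ^ 2 ≤ τ ^ 2 := by
    apply pow_le_pow_left₀ _ hu2
    linarith
  have hk : 2 * (k : ℝ) = 2 * s * (s - x2) - (s - x2) ^ 2 + (x2 ^ 2 - z) := by
    have h6 : 2 * (k : ℝ) = s ^ 2 - z := by
      rw [hss, hnr]
      ring
    rw [h6]
    ring
  have hk1 : 9 / 5 * τ * s - τ ^ 2 - τ ^ 2 / 32 ≤ 2 * (k : ℝ) := by
    have h6 : 2 * s * (9 / 10 * τ) ≤ 2 * s * (s - x2) :=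
      mul_le_mul_of_nonneg_left hu1 (by positivity)
    rw [hk]
    linarith
  have hk2 : 2 * (k : ℝ) ≤ 2 * τ * s + τ ^ 2 / 32 := by
    have h6 : 2 * s * (s - x2) ≤ 2 * s * τ := mul_le_mul_of_nonneg_left hu2 (by positivity)
    have h7 : 0 ≤ (s - x2) ^ 2 := sq_nonneg _
    rw [hk]
    linarith
  have hkpos : 1 ≤ k := by
    rcases Nat.eq_zero_or_pos k with h | h
    · exfalso
      rw [h, Nat.cast_zero] at hk1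
      linarith
    · exact h
  have hkc : ((k - 1 : ℕ) : ℝ) = (k : ℝ) - 1 := by
    rw [Nat.cast_sub hkpos, Nat.cast_one]
  have hz0 : (0 : ℝ) ≤ z := Nat.cast_nonneg z
  refine ⟨hkpos, ?_, ?_, hx0, ?_, ?_, ?_, ?_⟩
  · rw [hkc]
    linarith
  · rw [hkc]
    linarith
  · linarith
  · rw [le_div_iff₀ hx0]
    have h6 : x2 * x2 = x2 ^ 2 := by ring
    linarith
  · rw [div_le_iff₀ hx0]
    have h6 : (x2 + 1 / 10 * τ) * x2 ≤ (s - 4 / 5 * τ) * x2 :=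
      mul_le_mul_of_nonneg_right (by linarith) hx0.le
    have h7 : (x2 + 1 / 10 * τ) * x2 = x2 ^ 2 + 1 / 10 * (τ * x2) := by ring
    linarith
  · have hx2 : 0 < x2 ^ 2 := by positivity
    have h6 : (((z : ℝ) + 1) / x2) ^ 2 - ((z + 2 : ℕ) : ℝ) =
        (1 - ((z : ℝ) + 2) * (x2 ^ 2 - z)) / x2 ^ 2 := by
      push_cast
      field_simp
      ring
    have hsq : 121 ≤ τ ^ 2 * x2 ^ 2 := by
      have h7 : τ ^ 2 * x2 ^ 2 = (τ * x2) * (τ * x2) := by ring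
      have h9 : (11 : ℝ) * 11 ≤ (τ * x2) * (τ * x2) :=
        mul_le_mul hx hx (by norm_num) (by linarith)
      rw [h7]
      linarith
    rw [h6, abs_div, abs_of_pos hx2, div_le_iff₀ hx2]
    have h8 : |1 - ((z : ℝ) + 2) * (x2 ^ 2 - z)| ≤ 1 + ((z : ℝ) + 2) * (τ ^ 2 / 32) := by
      refine (abs_sub _ _).trans ?_
      rw [abs_one, abs_mul, abs_of_nonneg (by linarith : (0 : ℝ) ≤ (z : ℝ) + 2)]
      have h9 : ((z : ℝ) + 2) * |x2 ^ 2 - z| ≤ ((z : ℝ) + 2) * (τ ^ 2 / 32) :=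
        mul_le_mul_of_nonneg_left h3 (by linarith)
      linarith
    have h10 : ((z : ℝ) + 2) * (τ ^ 2 / 32) ≤ (x2 ^ 2 + 3) * (τ ^ 2 / 32) :=
      mul_le_mul_of_nonneg_right (by linarith) (by positivity)
    have h11 : (x2 ^ 2 + 3) * (τ ^ 2 / 32) = τ ^ 2 * x2 ^ 2 / 32 + 3 * τ ^ 2 / 32 := by ring
    have h12 : τ ^ 2 / 16 * x2 ^ 2 = τ ^ 2 * x2 ^ 2 / 16 := by ring
    rw [h12]
    linarith

end Pool.Agent.Lib.MP_6b2d39_agHx
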