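import Pool.Agent.Lib.MP_6b2d39_agHx.WdB
import Pool.Agent.Lib.MP_6b2d39_agHx.Top

set_option autoImplicit false

namespace Pool.Agent.Lib.MP_6b2d39_agHx

/-- HX15. one letter: `x ^ 2 = z + θ`, `|θ| ≤ 1 / 2`. The steps `s = z + p ≥ x ^ 2` and
`s' = z + p + D ≥ (s / x) ^ 2`, since `(z + p) ^ 2 ≤ (z - 1 / 2) (z + p + D)` for `D ≥ p + 1`,
`4 D ^ 2 ≤ z`. Moreover `x'' ^ 2 - (z + 2 D) = θ + 2 D (θ - p) / (z + p) + D ^ 2 (z + θ) / (z + p) ^ 2`
with `- 2 D ^ 2 / z ≤ 2 D (θ - p) / (z + p) ≤ 0` (`p + 1 / 2 ≤ D`) and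
`0 ≤ D ^ 2 (z + θ) / (z + p) ^ 2 ≤ D ^ 2 / z`. -/
theorem letter {D p z : ℕ} {x : ℝ} (hp : 1 ≤ p) (hD : p + 1 ≤ D) (hz : 4 * D ^ 2 ≤ z)
    (hx : 0 < x) (hθ : |x ^ 2 - z| ≤ 1 / 2) :
    Tch x (x * (1 + (D : ℝ) / ((z : ℝ) + p))) ∧
    |(x * (1 + (D : ℝ) / ((z : ℝ) + p))) ^ 2 - ((z : ℝ) + 2 * D)| ≤
      |x ^ 2 - z| + 2 * (D : ℝ) ^ 2 / z := by
  have hp' : (1 : ℝ) ≤ p := by exact_mod_cast hp
  have hD' : (p : ℝ) + 1 ≤ D := by exact_mod_cast hD
  have hz' : 4 * (D : ℝ) ^ 2 ≤ z := by exact_mod_cast hz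
  have hz0 : (0 : ℝ) < z := by nlinarith
  have hm : (0 : ℝ) < (z : ℝ) + p := by linarith
  obtain ⟨t1, t2⟩ := abs_le.1 hθ
  set u : ℝ := (D : ℝ) / ((z : ℝ) + p) with hu
  have hum : u * ((z : ℝ) + p) = D := by rw [hu]; field_simp
  have hu0 : 0 < u := by rw [hu]; apply div_pos _ hm; linarith
  refine ⟨?_, ?_⟩
  · have h1 : Tch x (((z : ℝ) + p) / x) := by
      refine Tch.step (s := z + p) Tch.refl ?_ ?_
      · push_cast
        field_simp
      · push_cast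
        linarith
    refine Tch.step (s := z + p + D) h1 ?_ ?_
    · push_cast
      rw [← hum]
      field_simp
    · push_cast
      rw [div_pow, div_le_iff₀ (by positivity)]
      have h2 : ((z : ℝ) + p + D) * (z - 1 / 2) ≤ ((z : ℝ) + p + D) * x ^ 2 := by
        apply mul_le_mul_of_nonneg_left _ (by positivity)
        linarith
      nlinarith [mul_nonneg hz0.le (sub_nonneg.2 hD')]
  · have e : (x * (1 + u)) ^ 2 - ((z : ℝ) + 2 * D) =
        (x ^ 2 - z) + 2 * (u * (x ^ 2 - z - p)) + u ^ 2 * x ^ 2 := by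
      rw [← hum]; ring
    have hw : 2 * (D : ℝ) ^ 2 / z = 2 * ((D : ℝ) ^ 2 / z) := by ring
    rw [e, hw]
    set w : ℝ := (D : ℝ) ^ 2 / z with hwd
    have hwz : w * z = (D : ℝ) ^ 2 := by rw [hwd]; field_simp
    have hw0 : 0 ≤ w := by rw [hwd]; positivity
    have b1 : u * (x ^ 2 - z - p) ≤ 0 := by
      apply mul_nonpos_of_nonneg_of_nonpos hu0.le; linarith
    have huz : u * z ≤ D := by
      rw [← hum]
      apply mul_le_mul_of_nonneg_left _ hu0.le; linarith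
    have b2 : -w ≤ u * (x ^ 2 - z - p) := by
      have h3 : u * (p + 1 / 2) ≤ w := by
        have h4 : u * z * (p + 1 / 2) ≤ D * D := by
          apply mul_le_mul huz _ (by positivity) (by positivity)
          linarith
        have h5 : u * (p + 1 / 2) * z ≤ w * z := by
          rw [hwz]; linarith
        exact le_of_mul_le_mul_right h5 hz0
      have h6 : u * (-(p + 1 / 2)) ≤ u * (x ^ 2 - z - p) := by
        apply mul_le_mul_of_nonneg_left _ hu0.le; linarith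
      linarith
    have b3 : 0 ≤ u ^ 2 * x ^ 2 := by positivity
    have b4 : u ^ 2 * x ^ 2 ≤ w := by
      have h7 : x ^ 2 * z ≤ ((z : ℝ) + p) ^ 2 := by nlinarith
      have h8 : u ^ 2 * x ^ 2 * z ≤ w * z := by
        rw [hwz, ← hum]
        calc u ^ 2 * x ^ 2 * z = u ^ 2 * (x ^ 2 * z) := by ring
          _ ≤ u ^ 2 * ((z : ℝ) + p) ^ 2 := mul_le_mul_of_nonneg_left h7 (by positivity)
          _ = (u * ((z : ℝ) + p)) ^ 2 := by ring
      exact le_of_mul_le_mul_right h8 hz0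
    have c1 : x ^ 2 - z ≤ |x ^ 2 - z| := le_abs_self _
    have c2 : -|x ^ 2 - z| ≤ x ^ 2 - z := neg_abs_le _
    rw [abs_le]
    constructor <;> linarith

end Pool.Agent.Lib.MP_6b2d39_agHx
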