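import Pool.Agent.Lib.MP_6b2d39_agHx.WdB
import Pool.Agent.Lib.MP_6b2d39_agHx.Letter

set_option autoImplicit false

namespace Pool.Agent.Lib.MP_6b2d39_agHx

/-- HX16. words (induction with `letter`, `Tch.trans`; `2 D ^ 2 / z ≤ B (2 D) / z0`) -/
theorem Wd.tch {B z0 z z' : ℕ} {v : ℝ} (h : Wd B z z' v) (h0 : 1 ≤ z0) (hz : z0 ≤ z)
    (hB : 4 * B ^ 2 ≤ z0) {x : ℝ} (hx : 0 < x)
    (hθ : |x ^ 2 - z| + B * ((z' : ℝ) - z) / z0 ≤ 1 / 2) :
    Tch x (x * Real.exp v) ∧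
    |(x * Real.exp v) ^ 2 - z'| ≤ |x ^ 2 - z| + B * ((z' : ℝ) - z) / z0 := by
  have hz0 : (0 : ℝ) < z0 := by
    have : 0 < z0 := h0
    exact_mod_cast this
  induction h generalizing x with
  | nil z =>
    rw [Real.exp_zero, mul_one]
    refine ⟨Tch.refl, ?_⟩
    rw [sub_self, mul_zero, zero_div, add_zero]
  | @cons z z' v D p hp hD hDB hw ih =>
    obtain ⟨w, hw'⟩ := hw.even
    have hzz : ((z + 2 * D : ℕ) : ℝ) = (z : ℝ) + 2 * D := by push_cast; ring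
    have hz'r : (z' : ℝ) = (z : ℝ) + 2 * D + 2 * w := by
      rw [hw']
      push_cast
      ring
    have hzr : (z0 : ℝ) ≤ z := by exact_mod_cast hz
    have hDr : (0 : ℝ) ≤ D := Nat.cast_nonneg D
    have hBr : (0 : ℝ) ≤ B := Nat.cast_nonneg B
    have hDBr : (D : ℝ) ≤ B := by exact_mod_cast hDB
    have hwr : (0 : ℝ) ≤ w := Nat.cast_nonneg w
    have h4 : 4 * D ^ 2 ≤ z :=
      (Nat.mul_le_mul_left 4 (Nat.pow_le_pow_left hDB 2)).trans (hB.trans hz)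
    have hnn : 0 ≤ (B : ℝ) * ((z' : ℝ) - z) / z0 := by
      apply div_nonneg _ hz0.le
      apply mul_nonneg hBr
      rw [hz'r]
      linarith
    have hθ1 : |x ^ 2 - z| ≤ 1 / 2 := by linarith
    obtain ⟨t1, t2⟩ := letter hp hD h4 hx hθ1
    have hpos : (0 : ℝ) < 1 + (D : ℝ) / ((z : ℝ) + p) := by positivity
    have hx1 : 0 < x * (1 + (D : ℝ) / ((z : ℝ) + p)) := mul_pos hx hpos
    have hle : 2 * (D : ℝ) ^ 2 / z ≤ B * (2 * D) / z0 := by
      apply div_le_div₀ (by positivity) _ hz0 hzr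
      nlinarith
    have hsum : (B : ℝ) * (2 * D) / z0 + B * ((z' : ℝ) - ((z : ℝ) + 2 * D)) / z0 =
        B * ((z' : ℝ) - z) / z0 := by
      rw [← add_div]
      congr 1
      ring
    have hIH := ih (hz.trans (Nat.le_add_right _ _)) hx1 (by rw [hzz]; linarith)
    rw [hzz] at hIH
    obtain ⟨i1, i2⟩ := hIH
    have he : x * Real.exp (Real.log (1 + (D : ℝ) / ((z : ℝ) + p)) + v) =
        x * (1 + (D : ℝ) / ((z : ℝ) + p)) * Real.exp v := by
      rw [Real.exp_add, Real.exp_log hpos, mul_assoc]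
    rw [he]
    exact ⟨t1.trans i1, by linarith⟩

end Pool.Agent.Lib.MP_6b2d39_agHx
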