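import Pool.Agent.Lib.MP_6b2d39_agHx.Word
import Pool.Agent.Lib.MP_6b2d39_agHx.WdT

set_option autoImplicit false

namespace Pool.Agent.Lib.MP_6b2d39_agHx

/-- the last step -/
private theorem tg_last {n k A : ℕ} {y η V : ℝ} (hn : 1 ≤ n) (hk : 1 ≤ k) (hkn : k < n)
    (hy : 0 < y) (h4 : 4 * η ≤ 1 / (n : ℝ) ^ (A + 1))
    (hV : Real.log (((n : ℝ) - k) / √n) - Real.log y ≤ V)
    (hV' : V ≤ Real.log (((n : ℝ) - k) / √n) - Real.log y + 2 * η)
    (hT : Tch y (y * Real.exp V)) :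
    ∃ xf : ℝ, Tch y xf ∧ xf ^ 2 ≤ n ∧ n * (1 - 1 / (n : ℝ) ^ (A + 1)) ≤ xf ^ 2 := by
  have hnr : (1 : ℝ) ≤ n := by exact_mod_cast hn
  have hn0 : (0 : ℝ) < n := by linarith
  have hkr : (1 : ℝ) ≤ k := by exact_mod_cast hk
  have hknr : (k : ℝ) < n := by exact_mod_cast hkn
  have hs0 : 0 < √(n : ℝ) := Real.sqrt_pos.2 hn0
  have hss : √(n : ℝ) * √(n : ℝ) = n := Real.mul_self_sqrt hn0.le
  obtain ⟨s, hs⟩ : ∃ s, s = √(n : ℝ) := ⟨_, rfl⟩
  rw [← hs] at hV hV' hs0 hss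
  obtain ⟨m, hm⟩ : ∃ m : ℝ, m = (n : ℝ) - k := ⟨_, rfl⟩
  rw [← hm] at hV hV'
  have hm0 : 0 < m := by
    rw [hm]
    linarith
  have hq : 0 < m / s := div_pos hm0 hs0
  obtain ⟨xe, hxe⟩ : ∃ xe, xe = y * Real.exp V := ⟨_, rfl⟩
  have hxe0 : 0 < xe := by
    rw [hxe]
    exact mul_pos hy (Real.exp_pos _)
  have hlog : Real.log xe = Real.log y + V := by
    rw [hxe, Real.log_mul hy.ne' (Real.exp_pos _).ne', Real.log_exp]
  -- lower bound for `xe`
  have h1 : m / s ≤ xe := by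
    rw [← Real.log_le_log_iff hq hxe0, hlog]
    linarith
  have h2 : xe ≤ m / s * Real.exp (2 * η) := by
    rw [← Real.log_le_log_iff hxe0 (mul_pos hq (Real.exp_pos _)), hlog,
      Real.log_mul hq.ne' (Real.exp_pos _).ne', Real.log_exp]
    linarith
  have h3 : m ≤ xe * s := by
    rwa [div_le_iff₀ hs0] at h1
  have h5 : xe * s ≤ m * Real.exp (2 * η) := by
    have h6 := mul_le_mul_of_nonneg_right h2 hs0.le
    have h7 : m / s * Real.exp (2 * η) * s = m * Real.exp (2 * η) := by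
      field_simp
    rwa [h7] at h6
  have hexp : Real.exp (2 * η) * Real.exp (2 * η) = Real.exp (4 * η) := by
    rw [← Real.exp_add]
    congr 1
    ring
  have hpow : 1 / (n : ℝ) ^ (A + 1) ≤ 1 / n := by
    apply one_div_le_one_div_of_le hn0
    exact le_self_pow₀ hnr (by omega)
  -- the last step is long enough
  have h8 : m * Real.exp (4 * η) ≤ n := by
    have h9 : Real.exp (4 * η) ≤ Real.exp (1 / (n : ℝ)) :=
      Real.exp_le_exp.2 (h4.trans hpow)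
    have h10 : m ≤ n * (1 - 1 / (n : ℝ)) := by
      rw [mul_sub, mul_one, mul_one_div_cancel hn0.ne', hm]
      linarith
    have h11 : 1 - 1 / (n : ℝ) ≤ Real.exp (-(1 / (n : ℝ))) := by
      have := Real.add_one_le_exp (-(1 / (n : ℝ)))
      linarith
    have h12 : m ≤ n * Real.exp (-(1 / (n : ℝ))) :=
      h10.trans (mul_le_mul_of_nonneg_left h11 hn0.le)
    calc m * Real.exp (4 * η) ≤ m * Real.exp (1 / (n : ℝ)) :=
          mul_le_mul_of_nonneg_left h9 hm0.le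
      _ ≤ n * Real.exp (-(1 / (n : ℝ))) * Real.exp (1 / (n : ℝ)) :=
          mul_le_mul_of_nonneg_right h12 (Real.exp_pos _).le
      _ = n := by
          rw [mul_assoc, ← Real.exp_add, neg_add_cancel, Real.exp_zero, mul_one]
  have h13 : xe ^ 2 ≤ m := by
    have h14 : (xe * s) * (xe * s) ≤ m * Real.exp (2 * η) * (m * Real.exp (2 * η)) :=
      mul_le_mul h5 h5 (mul_pos hxe0 hs0).le (mul_pos hm0 (Real.exp_pos _)).le
    have h15 : (xe * s) * (xe * s) = xe ^ 2 * n := by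
      rw [← hss]
      ring
    have h16 : m * Real.exp (2 * η) * (m * Real.exp (2 * η)) = m * (m * Real.exp (4 * η)) := by
      rw [← hexp]
      ring
    rw [h15, h16] at h14
    have h17 : xe ^ 2 * n ≤ m * n := h14.trans (mul_le_mul_of_nonneg_left h8 hm0.le)
    exact le_of_mul_le_mul_right h17 hn0
  have hcast : ((n - k : ℕ) : ℝ) = m := by
    rw [Nat.cast_sub hkn.le, hm]
  refine ⟨m / xe, ?_, ?_, ?_⟩
  · refine Tch.step (x := xe) (s := n - k) (hxe ▸ hT) ?_ ?_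
    · rw [hcast, mul_div_cancel₀ _ hxe0.ne']
    · rw [hcast]
      exact h13
  · have h14 : m / xe ≤ s := by
      rw [div_le_iff₀ hxe0, mul_comm]
      exact h3
    have h15 : 0 ≤ m / xe := (div_pos hm0 hxe0).le
    calc (m / xe) ^ 2 ≤ s ^ 2 := pow_le_pow_left₀ h15 h14 2
      _ = n := by rw [pow_two, hss]
  · have h14 : s * Real.exp (-(2 * η)) ≤ m / xe := by
      rw [le_div_iff₀ hxe0]
      have h15 := mul_le_mul_of_nonneg_right h5 (Real.exp_pos (-(2 * η))).le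
      have h16 : m * Real.exp (2 * η) * Real.exp (-(2 * η)) = m := by
        rw [mul_assoc, ← Real.exp_add, add_neg_cancel, Real.exp_zero, mul_one]
      rw [h16] at h15
      calc s * Real.exp (-(2 * η)) * xe = xe * s * Real.exp (-(2 * η)) := by ring
        _ ≤ m := h15
    have h15 : 0 ≤ s * Real.exp (-(2 * η)) := (mul_pos hs0 (Real.exp_pos _)).le
    have h16 : (s * Real.exp (-(2 * η))) ^ 2 = n * Real.exp (-(4 * η)) := by
      have h17 : Real.exp (-(2 * η)) * Real.exp (-(2 * η)) = Real.exp (-(4 * η)) := by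
        rw [← Real.exp_add]
        congr 1
        ring
      calc (s * Real.exp (-(2 * η))) ^ 2 =
            s * s * (Real.exp (-(2 * η)) * Real.exp (-(2 * η))) := by ring
        _ = n * Real.exp (-(4 * η)) := by rw [hss, h17]
    calc n * (1 - 1 / (n : ℝ) ^ (A + 1)) ≤ n * Real.exp (-(4 * η)) := by
          refine mul_le_mul_of_nonneg_left ?_ hn0.le
          have := Real.add_one_le_exp (-(4 * η))
          linarith
      _ = (s * Real.exp (-(2 * η))) ^ 2 := h16.symm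
      _ ≤ (m / xe) ^ 2 := pow_le_pow_left₀ h15 h14 2

/-- HX33. `exists_word`, `Wd.tch` (`|y ^ 2 - z0| + B (2 K) / z0 ≤ 1 / 2`), the last step
`s = n - k`, `xf = (n - k) / (y exp V)`, between `√n exp (- 2 η)` and `√n`;
`(y exp V) ^ 2 ≤ (n - k) ^ 2 / n * exp (4 η) ≤ n - k`. -/
theorem target (τ : ℝ) (hτ : 0 < τ) (hτ' : τ ≤ 1 / 8) (A : ℕ) : ∃ N0 : ℕ, ∀ (n z0 K : ℕ)
    (y : ℝ), N0 ≤ n → n = z0 + 2 * K → 4 / 5 * τ * √n ≤ K → (K : ℝ) ≤ 11 / 10 * τ * √n →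
    0 < y → |y ^ 2 - z0| ≤ τ ^ 2 / 16 →
    ∃ xf : ℝ, Tch y xf ∧ xf ^ 2 ≤ n ∧ n * (1 - 1 / (n : ℝ) ^ (A + 1)) ≤ xf ^ 2 := by
  obtain ⟨N0, hN0⟩ := exists_word τ hτ hτ' A
  refine ⟨max N0 4, fun n z0 K y hn hnz hK hK' hy hyz => ?_⟩
  have hn1 : N0 ≤ n := (le_max_left _ _).trans hn
  have hn4 : 4 ≤ n := (le_max_right _ _).trans hn
  obtain ⟨k, η, V, hk, hkK, hη, h4, hW, hV, hV'⟩ := hN0 n z0 K y hn1 hnz hK hK' hy hyz
  have hnr : (4 : ℝ) ≤ n := by exact_mod_cast hn4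
  have hs2 : 2 ≤ √(n : ℝ) := by
    rw [Real.le_sqrt' (by norm_num)]
    linarith
  have hss : √(n : ℝ) * √(n : ℝ) = n := Real.mul_self_sqrt (by linarith)
  obtain ⟨s, hs⟩ : ∃ s, s = √(n : ℝ) := ⟨_, rfl⟩
  rw [← hs] at hK' hs2 hss
  have hKs : (K : ℝ) ≤ 11 / 80 * s := by nlinarith
  have hnzr : (n : ℝ) = z0 + 2 * K := by exact_mod_cast hnz
  have hz0 : (n : ℝ) / 2 ≤ z0 := by nlinarith
  have hz0' : (0 : ℝ) < z0 := by linarith
  have hz1 : 1 ≤ z0 := by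
    have : (0 : ℕ) < z0 := by exact_mod_cast hz0'
    omega
  obtain ⟨B, hB⟩ : ∃ B, B = Nat.sqrt n / 4 := ⟨_, rfl⟩
  rw [← hB] at hW
  have hB2 : (4 * B) ^ 2 ≤ n := by
    have h1 : 4 * B ≤ Nat.sqrt n := by omega
    exact (Nat.pow_le_pow_left h1 2).trans (Nat.sqrt_le' n)
  have hB3 : (4 * (B : ℝ)) ^ 2 ≤ n := by exact_mod_cast hB2
  have hBs : 4 * (B : ℝ) ≤ s := by
    rw [hs]
    exact Real.le_sqrt_of_sq_le hB3
  have hB4 : 4 * B ^ 2 ≤ z0 := by
    have h1 : (4 : ℝ) * (B : ℝ) ^ 2 ≤ z0 := by nlinarith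
    exact_mod_cast h1
  have h2k : 2 * k ≤ n := by omega
  have hz' : ((n - 2 * k : ℕ) : ℝ) - z0 = 2 * (K : ℝ) - 2 * k := by
    rw [Nat.cast_sub h2k]
    push_cast
    linarith
  have hkr : (1 : ℝ) ≤ k := by exact_mod_cast hk
  have hfr : (B : ℝ) * (((n - 2 * k : ℕ) : ℝ) - z0) / z0 ≤ 1 / 4 := by
    rw [div_le_iff₀ hz0', hz']
    have hB0 : (0 : ℝ) ≤ B := Nat.cast_nonneg _
    have h1 : (B : ℝ) * (2 * (K : ℝ) - 2 * k) ≤ B * (22 / 80 * s) :=
      mul_le_mul_of_nonneg_left (by linarith) hB0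
    have h2 : (B : ℝ) * (22 / 80 * s) ≤ s / 4 * (22 / 80 * s) :=
      mul_le_mul_of_nonneg_right (by linarith) (by linarith)
    have h3 : s / 4 * (22 / 80 * s) = 22 / 320 * n := by
      rw [← hss]
      ring
    linarith
  have hτ2 : τ ^ 2 / 16 ≤ 1 / 4 := by nlinarith
  have hT := (hW.tch hz1 le_rfl hB4 hy (by linarith)).1
  have hkn : k < n := by omega
  rw [hs] at hs2
  exact tg_last (by omega) hk hkn hy h4 hV hV' hT

end Pool.Agent.Lib.MP_6b2d39_agHx
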