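import Pool.Agent.Lib.MP_6b2d39_agHx.SearchC
import Pool.Agent.Lib.MP_6b2d39_agHx.ParA
import Pool.Agent.Lib.MP_6b2d39_agHx.Target
import Pool.Agent.Lib.MP_6b2d39_agHx.Top

set_option autoImplicit false

namespace Pool.Agent.Lib.MP_6b2d39_agHx

/-- HX35. `τ = ε / 4`; `search_c` with `ρ = ε / 4`, `δ = τ ^ 2 / 32`, `M = 100 / (8 ε)`; `par_a`;
`target` with `y = x3 = (z + 1) / x2`, `z0 = z + 2`, `K = k - 1`; `Tch.le`;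
`a ^ 2 ≤ s1` since `a ≤ x2` for `n` large. -/
theorem par_ex (ε : ℝ) (hε : 0 < ε) (hε' : ε ≤ 1 / 2) (A : ℕ) : ∃ N0 : ℕ, ∀ n : ℕ, N0 ≤ n →
    ∃ (a s1 s2 : ℕ) (x2 x3 xf : ℝ), Hp x2 x3 xf a s1 s2 ∧ Sz n A ε x2 x3 xf a := by
  have hτ : 0 < ε / 4 := by linarith
  have hτ' : ε / 4 ≤ 1 / 8 := by linarith
  obtain ⟨N1, h1⟩ := search_c (ε / 4) (ε / 4) ((ε / 4) ^ 2 / 32) (100 / (8 * ε)) hτ hτ
    (by positivity)
  obtain ⟨N2, h2⟩ := par_a (ε / 4) hτ hτ'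
  obtain ⟨N3, h3⟩ := target (ε / 4) hτ hτ' A
  refine ⟨max N1 (max N2 N3), fun n hn => ?_⟩
  obtain ⟨a, s1, z, k, hM, ha, haρ, hlo, hhi, hz, hnz⟩ := h1 n (le_trans (le_max_left _ _) hn)
  have ha0 : (0 : ℝ) < a := by exact_mod_cast (by omega : 0 < a)
  have ha1 : (1 : ℝ) ≤ a := by exact_mod_cast ha
  obtain ⟨hk, hk1, hk2, hx, hxz, hx3, hx3n, hx3z⟩ := h2 n z k ((s1 : ℝ) / a)
    (le_trans (le_trans (le_max_left _ _) (le_max_right _ _)) hn) hnz hlo hhi hz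
  have hx3pos : 0 < ((z : ℝ) + 1) / ((s1 : ℝ) / a) := by positivity
  obtain ⟨xf, hT, hf, hf'⟩ := h3 n (z + 2) (k - 1) (((z : ℝ) + 1) / ((s1 : ℝ) / a))
    (le_trans (le_trans (le_max_right _ _) (le_max_right _ _)) hn) (by omega) hk1 hk2 hx3pos hx3z
  have e1 : (a : ℝ) * ((s1 : ℝ) / a) = s1 := mul_div_cancel₀ _ ha0.ne'
  have hax : (a : ℝ) ≤ (s1 : ℝ) / a := by
    nlinarith
  refine ⟨a, s1, z + 1, (s1 : ℝ) / a, ((z : ℝ) + 1) / ((s1 : ℝ) / a), xf,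
    ⟨ha, e1, ?_, ?_, ?_, hT⟩, ⟨?_, haρ, by linarith, hx3, by linarith, ?_, hf, hf'⟩⟩
  · rw [mul_div_cancel₀ _ hx.ne']
    push_cast
    ring
  · calc (a : ℝ) ^ 2 = a * a := by ring
      _ ≤ a * ((s1 : ℝ) / a) := mul_le_mul_of_nonneg_left hax ha0.le
      _ = s1 := e1
  · push_cast
    exact hxz
  · rw [div_le_iff₀ (by positivity)] at hM
    linarith
  · exact hT.le hx3pos

end Pool.Agent.Lib.MP_6b2d39_agHx
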