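import Pool.Agent.Lib.MP_6b2d39_agHx.Defs

set_option autoImplicit false

namespace Pool.Agent.Lib.MP_6b2d39_agHx

/-- HX9. `be - (xf - x2) ≥ S / √n + 2 / 5 ε` (`a ^ 2 / (8 x2) ≤ 32 / 1000 ε`, `xf - x2 ≤ ε / 3`),
`xf ≥ √n (1 - η)`, `η S ≤ η n (m + 1) ≤ ε √n / 100`. -/
theorem pos_fin {n A a d m : ℕ} {ε η x2 x3 xf S : ℝ} (hn : 10000 ≤ n) (hε : 0 < ε)
    (hε' : ε ≤ 1 / 2) (hz : Sz n A ε x2 x3 xf a) (hη : 0 ≤ η)
    (hηm : η * √n * (m + 2) ≤ ε / 100) (hf' : n * (1 - η) ≤ xf ^ 2)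
    (hS : (n : ℝ) * m ≤ S) (hS' : S ≤ n * (m + 1))
    (hd : (S + n / 2) / √n + 4 / 5 * ε ≤ (d : ℝ) + 3 / 2) :
    S ≤ xf * (be (d + 1) x2 a - (xf - x2)) ∧ m ≤ d := by
  obtain ⟨ha, ha2, h2, h23, h3, h3f, hf, -⟩ := hz
  obtain ⟨s, hs⟩ : ∃ s : ℝ, s = √n := ⟨_, rfl⟩
  rw [← hs] at hηm hd ha2 h2 h3
  have hm0 : (0 : ℝ) ≤ m := Nat.cast_nonneg m
  have hn' : (10000 : ℝ) ≤ n := by exact_mod_cast hn
  have hs0 : 0 ≤ s := by rw [hs]; exact Real.sqrt_nonneg _
  have hss : s * s = n := by rw [hs]; exact Real.mul_self_sqrt (Nat.cast_nonneg n)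
  have hs100 : 100 ≤ s := by
    by_contra h
    have h1 : s < 100 := not_le.1 h
    nlinarith
  have hspos : 0 < s := by linarith
  have hx2 : 0 < x2 := by linarith
  have hxf0 : 0 < xf := by linarith
  have hxs : xf ≤ s := by
    by_contra h
    have h1 : s < xf := not_le.1 h
    nlinarith
  have hηs : η * s ≤ ε / 100 := by
    have h1 : 0 ≤ η * s := mul_nonneg hη hs0
    have h4 : η * s * 1 ≤ η * s * ((m : ℝ) + 2) := mul_le_mul_of_nonneg_left (by linarith) h1
    linarith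
  have hη2 : η ≤ 1 / 2 := by
    have h1 : η * 100 ≤ η * s := mul_le_mul_of_nonneg_left hs100 hη
    linarith
  have hη1 : η ≤ 1 := by linarith
  have hxf : s * (1 - η) ≤ xf := by
    by_contra h
    have h1 : xf < s * (1 - η) := not_le.1 h
    have h4 : xf * xf < s * (1 - η) * (s * (1 - η)) := by
      have h5 : xf * xf ≤ xf * (s * (1 - η)) := mul_le_mul_of_nonneg_left h1.le hxf0.le
      have h6 : xf * (s * (1 - η)) < s * (1 - η) * (s * (1 - η)) :=
        mul_lt_mul_of_pos_right h1 (by linarith)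
      linarith
    have h7 : s * (1 - η) * (s * (1 - η)) ≤ n * (1 - η) := by
      have h8 : s * (1 - η) * (s * (1 - η)) = n * (1 - η) * (1 - η) := by rw [← hss]; ring
      have h9 : (0 : ℝ) ≤ n * (1 - η) := by
        apply mul_nonneg
        · linarith
        · linarith
      rw [h8]
      exact mul_le_of_le_one_right h9 (by linarith)
    have h27 : xf ^ 2 = xf * xf := sq xf
    linarith
  have ha0 : (0 : ℝ) < a := by
    by_contra h
    have h1 : (a : ℝ) ≤ 0 := not_lt.1 h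
    nlinarith
  have e1 : 1 / (8 * (a : ℝ)) ≤ ε / 100 := by
    rw [div_le_div_iff₀ (by linarith) (by norm_num)]
    linarith
  have e2 : (a : ℝ) ^ 2 / (8 * x2) ≤ 32 / 1000 * ε := by
    rw [div_le_iff₀ (by linarith)]
    have h4 : s ≤ 600 / 599 * x2 := by linarith
    have h5 : ε / 4 * s ≤ ε / 4 * (600 / 599 * x2) :=
      mul_le_mul_of_nonneg_left h4 (by linarith)
    have h6 : 0 < ε * x2 := mul_pos hε hx2
    linarith
  have hdiv : (S + n / 2) / s = S / s + s / 2 := by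
    rw [← hss]
    field_simp
  rw [hdiv] at hd
  have hS0 : 0 ≤ S := le_trans (mul_nonneg (by linarith) hm0) hS
  obtain ⟨q, hq⟩ : ∃ q : ℝ, q = S / s := ⟨_, rfl⟩
  rw [← hq] at hd
  have hqS : q * s = S := by rw [hq]; field_simp
  have hq0 : 0 ≤ q := by rw [hq]; exact div_nonneg hS0 hs0
  constructor
  · have hbe : q + 2 / 5 * ε ≤ be (d + 1) x2 a - (xf - x2) := by
      unfold be
      push_cast
      linarith
    have h10 : xf * (q + 2 / 5 * ε) ≤ xf * (be (d + 1) x2 a - (xf - x2)) :=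
      mul_le_mul_of_nonneg_left hbe hxf0.le
    refine le_trans ?_ h10
    have h11 : s * (1 - η) * (q + 2 / 5 * ε) ≤ xf * (q + 2 / 5 * ε) :=
      mul_le_mul_of_nonneg_right hxf (by linarith)
    refine le_trans ?_ h11
    -- η S ≤ s ε / 100
    have h12 : η * S ≤ s * (ε / 100) := by
      have h13 : η * S ≤ η * (n * (m + 1)) := mul_le_mul_of_nonneg_left hS' hη
      have h14 : η * ((n : ℝ) * (m + 1)) = s * (η * s * (m + 1)) := by rw [← hss]; ring
      have h15 : η * s * ((m : ℝ) + 1) ≤ ε / 100 := by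
        have h16 : 0 ≤ η * s := mul_nonneg hη hs0
        have h25 : η * s * ((m : ℝ) + 1) = η * s * (m + 2) - η * s := by ring
        linarith
      have h17 : s * (η * s * ((m : ℝ) + 1)) ≤ s * (ε / 100) := mul_le_mul_of_nonneg_left h15 hs0
      linarith
    have h18 : s * (1 - η) * (q + 2 / 5 * ε) = S - η * S + s * (1 - η) * (2 / 5 * ε) := by
      rw [← hqS]
      ring
    have h19 : s * (ε / 100) ≤ s * (1 - η) * (2 / 5 * ε) := by
      have h21 : ε / 100 ≤ (1 - η) * (2 / 5 * ε) := by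
        have h26 : 1 / 2 * (2 / 5 * ε) ≤ (1 - η) * (2 / 5 * ε) :=
          mul_le_mul_of_nonneg_right (by linarith) (by linarith)
        linarith
      calc s * (ε / 100) ≤ s * ((1 - η) * (2 / 5 * ε)) := mul_le_mul_of_nonneg_left h21 hs0
        _ = s * (1 - η) * (2 / 5 * ε) := by ring
    rw [h18]
    linarith
  · have h22 : s * m ≤ q := by
      rw [hq, le_div_iff₀ hspos]
      calc s * m * s = s * s * m := by ring
        _ = n * m := by rw [hss]
        _ ≤ S := hS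
    have h24 : 100 * (m : ℝ) ≤ s * m := mul_le_mul_of_nonneg_right hs100 hm0
    have h23 : (m : ℝ) ≤ d := by linarith
    exact_mod_cast h23

end Pool.Agent.Lib.MP_6b2d39_agHx
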