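import Pool.Agent.Lib.MP_6b2d39_agHx.AllRows
import Pool.Agent.Lib.MP_6b2d39_agHx.DegN
import Pool.Agent.Lib.MP_6b2d39_agHx.DegP
import Pool.Agent.Lib.MP_6b2d39_agHx.NegFin
import Pool.Agent.Lib.MP_6b2d39_agHx.PosFin
import Pool.Agent.Lib.MP_6b2d39_agHx.ParEx
import Pool.Agent.Lib.MP_6b2d39_agHl.Step
import Pool.Agent.Lib.MP_6b2d39_agHl.Last
import Pool.Agent.Lib.MP_6b2d39_agHl.RowsCmp

set_option autoImplicit false

namespace Pool.Agent.Lib.MP_6b2d39_agHx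

open Pool.Agent.Lib.MP_6b2d39_agCr Pool.Agent.Lib.MP_6b2d39_agNw Pool.Agent.Lib.MP_6b2d39_agHl

private theorem large_tri (d : ℕ) : ∑ b ∈ Finset.range (d + 1), tri (d + 1) b = (d + 2).choose 2 := by
  unfold tri
  induction d with
  | zero => rfl
  | succ d ih =>
    rw [Finset.sum_range_succ']
    have h1 : ∑ b ∈ Finset.range (d + 1), (d + 1 + 1 - (b + 1)) =
        ∑ b ∈ Finset.range (d + 1), (d + 1 - b) :=
      Finset.sum_congr rfl fun b _ => by omega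
    have h2 : (d + 1 + 2).choose 2 = (d + 2) + (d + 2).choose 2 := by
      have h3 := Nat.choose_succ_succ' (d + 2) 1
      rw [Nat.choose_one_right] at h3
      exact h3
    rw [h1, ih, h2, Nat.sub_zero, Nat.add_comm]

/-- `η √n (m + 2) ≤ 3 / √n ≤ ε / 100` -/
private theorem large_eta {ε : ℝ} (hε : 0 < ε) {A n m : ℕ} (hn : 1 ≤ n)
    (hn2 : (300 / ε) ^ 2 ≤ (n : ℝ)) (hmA : m ≤ n ^ A) :
    1 / (n : ℝ) ^ (A + 1) * √n * (m + 2) ≤ ε / 100 := by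
  have hn0 : (1 : ℝ) ≤ n := by exact_mod_cast hn
  have hnp : (0 : ℝ) < n := lt_of_lt_of_le one_pos hn0
  have hq : (1 : ℝ) ≤ (n : ℝ) ^ A := one_le_pow₀ hn0
  have hm : (m : ℝ) ≤ (n : ℝ) ^ A := by exact_mod_cast hmA
  have hs : 300 / ε ≤ √n := by
    rw [← Real.sqrt_sq (by positivity : (0 : ℝ) ≤ 300 / ε)]
    exact Real.sqrt_le_sqrt hn2
  have hs0 : (0 : ℝ) < √n := Real.sqrt_pos.2 hnp
  have hss : √(n : ℝ) * √n = n := Real.mul_self_sqrt hnp.le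
  have h1 : (m : ℝ) + 2 ≤ 3 * (n : ℝ) ^ A := by linarith
  calc 1 / (n : ℝ) ^ (A + 1) * √n * (m + 2)
      ≤ 1 / (n : ℝ) ^ (A + 1) * √n * (3 * (n : ℝ) ^ A) :=
        mul_le_mul_of_nonneg_left h1 (by positivity)
    _ = 3 * √n / n := by
        rw [pow_succ]
        field_simp
    _ = 3 / √n := by
        rw [div_eq_div_iff hnp.ne' hs0.ne', mul_assoc, hss]
    _ ≤ ε / 100 := by
        rw [div_le_iff₀ hs0]
        rw [div_le_iff₀ hε] at hs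
        linarith

/-- HX36. as `large_case` (`Hl/Large.lean`), with `par_ex`, `all_rows` (`N = d + 1`),
`deg_neg` / `neg_fin`, `deg_pos` / `pos_fin`, `η = 1 / n ^ (A + 1)`
(`η √n (m + 2) ≤ 3 / √n ≤ ε / 100`). -/
theorem large_one (ε : ℝ) (hε : 0 < ε) (hε' : ε ≤ 1 / 2) (A : ℕ) : ∃ N0 : ℕ, ∀ n : ℕ, N0 ≤ n →
    ∀ (d m : ℕ) (μ : Fin n → ℕ), (∀ i, μ i = m ∨ μ i = m + 1) → 3 * √n ≤ ε * m → m ≤ n ^ A →
    ε * d ≤ |((vd d μ : ℤ) : ℝ)| →
    EmpQ (dgm (tri (d + 1)) (d + 1))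
      (Sum.elim μ (fun _ => 1) : Fin n ⊕ Fin (vd d μ).toNat → ℕ) Finset.univ := by
  obtain ⟨N1, h1⟩ := par_ex ε hε hε' A
  refine ⟨max N1 (max 10000 ⌈(300 / ε) ^ 2⌉₊), ?_⟩
  intro n hn d m μ hμ hm hmA hV
  have hnN1 : N1 ≤ n := (le_max_left _ _).trans hn
  have hn10 : 10000 ≤ n := (le_max_left _ _).trans ((le_max_right _ _).trans hn)
  have hnc : (300 / ε) ^ 2 ≤ (n : ℝ) := by
    refine (Nat.le_ceil _).trans ?_
    exact_mod_cast (le_max_right 10000 _).trans ((le_max_right N1 _).trans hn)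
  have hn1 : 1 ≤ n := le_trans (by norm_num) hn10
  have hnr : (1 : ℝ) ≤ n := by exact_mod_cast hn1
  obtain ⟨η, hη⟩ : ∃ η : ℝ, η = 1 / (n : ℝ) ^ (A + 1) := ⟨_, rfl⟩
  have hη0 : 0 ≤ η := by rw [hη]; positivity
  have hη1 : η ≤ 1 := by
    rw [hη, div_le_one (by positivity)]
    exact one_le_pow₀ hnr
  have hηm : η * √n * (m + 2) ≤ ε / 100 := by
    rw [hη]
    exact large_eta hε hn1 hnc hmA
  obtain ⟨a, s1, s2, x2, x3, xf, hp, hz⟩ := h1 n hnN1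
  have hf' : n * (1 - η) ≤ xf ^ 2 := by
    rw [hη]
    exact hz.hf'
  obtain ⟨r, hred, hr1, hr0, hrL⟩ := all_rows hp (d + 1)
  obtain ⟨m1, m2⟩ := mass_bounds hμ
  obtain ⟨t1, t2⟩ := mass_real hn1 hμ
  have hvd := vd_real (d := d) μ
  have m1' : (n : ℝ) * m ≤ ((∑ i, μ i : ℕ) : ℝ) := by exact_mod_cast m1
  have m2' : ((∑ i, μ i : ℕ) : ℝ) ≤ (n : ℝ) * (m + 1) := by exact_mod_cast m2
  refine hred.emp (emp_last r (d + 1) μ ?_)
  rcases le_total ((vd d μ : ℤ) : ℝ) 0 with h0 | h0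
  · -- the empty side
    rw [abs_of_nonpos h0, hvd] at hV
    have hd := deg_neg (d := d) hn10 hε hε' hm m1' t1 (by linarith)
    obtain ⟨a1, a2, a3⟩ := neg_fin hn10 hε hε' hz hη0 hηm hm m1' hd
    have hle := rows_neg hμ hz.hf hf' hη0 hη1 a1 (max_le a2 a3) hr1 hr0
    rw [Finset.sum_eq_zero fun b _ => Nat.sub_eq_zero_of_le (hle b)]
    exact Nat.zero_le _
  · -- the nonempty side
    rw [abs_of_nonneg h0, hvd] at hV
    have hd := deg_pos hn10 hε hε' hm m1' t2 hV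
    obtain ⟨a1, a2⟩ := pos_fin hn10 hε hε' hz hη0 hηm hf' m1' m2' hd
    have hle := rows_pos hμ hz.hf a1 hrL
    have hsum := hred.sum
    rw [large_tri] at hsum
    have hdem := demand_sum (N := d + 1) hμ (by omega)
    have h5 : ∑ b ∈ Finset.range (d + 1), (r b - ∑ i, (μ i - b)) +
        ∑ b ∈ Finset.range (d + 1), ∑ i, (μ i - b) = ∑ b ∈ Finset.range (d + 1), r b := by
      rw [← Finset.sum_add_distrib]
      exact Finset.sum_congr rfl fun b _ => Nat.sub_add_cancel (hle b)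
    rw [hdem, hsum] at h5
    have h6 : vd d μ = ((d + 2).choose 2 : ℤ) - ((∑ i, (μ i + 1).choose 2 : ℕ) : ℤ) := by
      unfold vd
      push_cast
      rfl
    omega

end Pool.Agent.Lib.MP_6b2d39_agHx
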