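import Mathlib

set_option autoImplicit false

namespace Pool.Agent.Lib.MP_6b2d39_agHx

/-- the real computation behind `search_a`, with `t = √√n`. -/
private theorem searchA_core (β c t : ℝ) (hβ : 0 < β) (hβ' : β ≤ 1) (hc : 0 < c) (hc' : c ≤ 1)
    (ht : 1000 / (β ^ 3 * c) ≤ t) :
    ∃ a0 q : ℕ, β * t / 3 ≤ a0 ∧ (a0 : ℝ) ≤ β * t ∧
      q + c / 4 ≤ t ^ 2 / ((a0 : ℝ) * (a0 + 1)) ∧ t ^ 2 / ((a0 : ℝ) * (a0 + 1)) ≤ q + c / 2 := by
  have hβ3 : 0 < β ^ 3 := by positivity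
  have hβc : 0 < β ^ 3 * c := by positivity
  have h1000 : 1000 ≤ β ^ 3 * c * t := by
    rw [div_le_iff₀ hβc] at ht
    linarith
  have ht0 : 0 < t := by
    have : 0 < 1000 / (β ^ 3 * c) := by positivity
    linarith
  have hβ2le : β ^ 2 ≤ 1 := by nlinarith
  have hβ3le : β ^ 3 ≤ β ^ 2 := by nlinarith [sq_nonneg β]
  have hβ3le1 : β ^ 3 ≤ β := by nlinarith [sq_nonneg β]
  -- lower bounds for `t`
  have hb3t : 1000 ≤ β ^ 3 * t := by
    have : β ^ 3 * c * t ≤ β ^ 3 * t := by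
      have : β ^ 3 * t * c ≤ β ^ 3 * t * 1 := mul_le_mul_of_nonneg_left hc' (by positivity)
      linarith
    linarith
  have hb2t : 1000 ≤ β ^ 2 * t := by
    have : β ^ 3 * t ≤ β ^ 2 * t := mul_le_mul_of_nonneg_right hβ3le ht0.le
    linarith
  have hbt : 1000 ≤ β * t := by
    have : β ^ 3 * t ≤ β * t := mul_le_mul_of_nonneg_right hβ3le1 ht0.le
    linarith
  have htt : 1000 ≤ t := by
    have : β * t ≤ 1 * t := mul_le_mul_of_nonneg_right hβ' ht0.le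
    linarith
  obtain ⟨g, hg⟩ : ∃ g : ℕ → ℝ, ∀ a, g a = t ^ 2 / ((a : ℝ) * (a + 1)) := ⟨_, fun _ => rfl⟩
  obtain ⟨H, hH⟩ : ∃ H : ℕ, H = ⌊β * t⌋₊ := ⟨_, rfl⟩
  obtain ⟨l, hl⟩ : ∃ l : ℕ, l = ⌈β * t / 3⌉₊ := ⟨_, rfl⟩
  have hH1 : (H : ℝ) ≤ β * t := by rw [hH]; exact Nat.floor_le (by positivity)
  have hH2 : β * t < H + 1 := by rw [hH]; exact Nat.lt_floor_add_one _
  have hl1 : β * t / 3 ≤ l := by rw [hl]; exact Nat.le_ceil _
  have hl2 : (l : ℝ) < β * t / 3 + 1 := by rw [hl]; exact Nat.ceil_lt_add_one (by positivity)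
  have hlH : l ≤ H := by
    have : (l : ℝ) ≤ H := by linarith
    exact_mod_cast this
  -- value at the top
  have hgH : g H ≤ 1 / β ^ 2 + 1 := by
    rw [hg, div_le_iff₀ (by nlinarith)]
    have e1 : (β * t - 1) * (β * t) ≤ (H : ℝ) * (H + 1) :=
      mul_le_mul (by linarith) hH2.le (by positivity) (by linarith)
    have e2 : (1 / β ^ 2 + 1) * ((β * t - 1) * (β * t))
        = t ^ 2 + (β ^ 2 * t ^ 2 - β * t - t / β) := by
      field_simp
      ring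
    have e3 : t / β ≤ β ^ 2 * t ^ 2 / 1000 := by
      rw [div_le_iff₀ hβ]
      have : t * 1000 ≤ t * (β ^ 3 * t) := mul_le_mul_of_nonneg_left hb3t ht0.le
      nlinarith
    have e4 : β * t ≤ β ^ 2 * t ^ 2 / 1000 := by nlinarith
    have e5 : 0 ≤ β ^ 2 * t ^ 2 := by positivity
    calc t ^ 2 ≤ (1 / β ^ 2 + 1) * ((β * t - 1) * (β * t)) := by rw [e2]; linarith
      _ ≤ (1 / β ^ 2 + 1) * ((H : ℝ) * (H + 1)) :=
        mul_le_mul_of_nonneg_left e1 (by positivity)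
  -- value at the bottom
  have hgl : 1 / β ^ 2 + 3 ≤ g l := by
    have hlpos : (0 : ℝ) < l := by nlinarith
    rw [hg, le_div_iff₀ (by positivity)]
    have e1 : (l : ℝ) * (l + 1) ≤ (β * t / 3 + 1) * (β * t / 3 + 2) :=
      mul_le_mul (by linarith) (by linarith) (by positivity) (by positivity)
    have e2 : (1 / β ^ 2 + 3) * ((β * t / 3 + 1) * (β * t / 3 + 2))
        = t ^ 2 / 9 + β ^ 2 * t ^ 2 / 3 + t / β + 2 / β ^ 2 + 3 * β * t + 6 := by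
      field_simp
      ring
    have e3 : t / β ≤ t ^ 2 / 1000 := by
      rw [div_le_iff₀ hβ]
      have : t * 1000 ≤ t * (β * t) := mul_le_mul_of_nonneg_left hbt ht0.le
      nlinarith
    have e4 : 2 / β ^ 2 ≤ t / 500 := by
      rw [div_le_iff₀ (by positivity)]
      nlinarith
    have e5 : β ^ 2 * t ^ 2 ≤ t ^ 2 := by nlinarith [sq_nonneg t]
    have e6 : 3 * β * t ≤ 3 * t := by nlinarith
    have e7 : 1000 * t ≤ t ^ 2 := by nlinarith
    calc (1 / β ^ 2 + 3) * ((l : ℝ) * (l + 1))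
        ≤ (1 / β ^ 2 + 3) * ((β * t / 3 + 1) * (β * t / 3 + 2)) :=
          mul_le_mul_of_nonneg_left e1 (by positivity)
      _ ≤ t ^ 2 := by rw [e2]; linarith
  have hgH0 : 0 ≤ g H := by rw [hg]; positivity
  obtain ⟨q, hq⟩ : ∃ q : ℕ, q = ⌈g H⌉₊ := ⟨_, rfl⟩
  have hq1 : g H ≤ q := by rw [hq]; exact Nat.le_ceil _
  have hq2 : (q : ℝ) < g H + 1 := by rw [hq]; exact Nat.ceil_lt_add_one hgH0
  classical
  obtain ⟨a0, ha0⟩ : ∃ a0 : ℕ, a0 = Nat.findGreatest (fun a => (q : ℝ) + c / 4 ≤ g a) H :=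
    ⟨_, rfl⟩
  have hPl : (q : ℝ) + c / 4 ≤ g l := by linarith
  have hP0 : (q : ℝ) + c / 4 ≤ g a0 := by
    rw [ha0]
    exact Nat.findGreatest_spec (P := fun a => (q : ℝ) + c / 4 ≤ g a) hlH hPl
  have hla : l ≤ a0 := by
    rw [ha0]
    exact Nat.le_findGreatest (P := fun a => (q : ℝ) + c / 4 ≤ g a) hlH hPl
  have haH : a0 ≤ H := by rw [ha0]; exact Nat.findGreatest_le H
  have haH' : a0 < H := by
    rcases haH.lt_or_eq with h | h
    · exact h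
    · rw [h] at hP0
      linarith
  have hn1 : ¬ ((q : ℝ) + c / 4 ≤ g (a0 + 1)) := by
    intro h
    have := Nat.le_findGreatest (P := fun a => (q : ℝ) + c / 4 ≤ g a) haH' h
    rw [← ha0] at this
    omega
  push Not at hn1
  have hla' : (l : ℝ) ≤ a0 := by exact_mod_cast hla
  have haH'' : (a0 : ℝ) ≤ H := by exact_mod_cast haH
  have hA : β * t / 3 ≤ (a0 : ℝ) := by linarith
  have hA0 : (0 : ℝ) < a0 := by nlinarith
  refine ⟨a0, q, hA, by linarith, by rw [← hg]; exact hP0, ?_⟩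
  rw [← hg]
  have hdiff : g a0 - g (a0 + 1) ≤ c / 4 := by
    have e0 : g a0 - g (a0 + 1) = 2 * t ^ 2 / ((a0 : ℝ) * (a0 + 1) * (a0 + 2)) := by
      rw [hg, hg]
      push_cast
      have h1 : (a0 : ℝ) ≠ 0 := hA0.ne'
      have h2 : (a0 : ℝ) + 1 ≠ 0 := by positivity
      have h3 : (a0 : ℝ) + 1 + 1 ≠ 0 := by positivity
      have h4 : (a0 : ℝ) + 2 ≠ 0 := by positivity
      field_simp
      ring
    rw [e0, div_le_iff₀ (by positivity)]
    have f1 : (β * t / 3) * (β * t / 3) * (β * t / 3) ≤ (a0 : ℝ) * (a0 + 1) * (a0 + 2) := by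
      refine mul_le_mul (mul_le_mul hA (by linarith) (by positivity) (by positivity))
        (by linarith) (by positivity) (by positivity)
    have f2 : 2 * t ^ 2 ≤ c / 4 * ((β * t / 3) * (β * t / 3) * (β * t / 3)) := by
      have : c / 4 * ((β * t / 3) * (β * t / 3) * (β * t / 3))
          = (β ^ 3 * c * t) * t ^ 2 / 108 := by ring
      rw [this]
      have : 1000 * t ^ 2 ≤ (β ^ 3 * c * t) * t ^ 2 :=
        mul_le_mul_of_nonneg_right h1000 (by positivity)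
      nlinarith [sq_nonneg t]
    calc 2 * t ^ 2 ≤ c / 4 * ((β * t / 3) * (β * t / 3) * (β * t / 3)) := f2
      _ ≤ c / 4 * ((a0 : ℝ) * (a0 + 1) * (a0 + 2)) :=
        mul_le_mul_of_nonneg_left f1 (by positivity)
  linarith

/-- HX11. `g a = √n / (a (a + 1))` decreases from about `9 / β ^ 2` at `a ≈ β √√n / 3` to about
`1 / β ^ 2` at `a ≈ β √√n`, in steps `g (a - 1) - g a = 2 √n / ((a - 1) a (a + 1)) → 0`; the
interval `[q + c / 4, q + c / 2]` with `q = ⌈g a_hi⌉₊` lies in between (`Nat.find`). -/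
theorem search_a (β c : ℝ) (hβ : 0 < β) (hβ' : β ≤ 1) (hc : 0 < c) (hc' : c ≤ 1) :
    ∃ N0 : ℕ, ∀ n : ℕ, N0 ≤ n → ∃ a0 q : ℕ, β * √(√n) / 3 ≤ a0 ∧ (a0 : ℝ) ≤ β * √(√n) ∧
      q + c / 4 ≤ √n / ((a0 : ℝ) * (a0 + 1)) ∧ √n / ((a0 : ℝ) * (a0 + 1)) ≤ q + c / 2 := by
  obtain ⟨B, hB⟩ : ∃ B : ℝ, B = 1000 / (β ^ 3 * c) := ⟨_, rfl⟩
  have hB0 : 0 ≤ B := by rw [hB]; positivity
  refine ⟨⌈B ^ 4⌉₊, fun n hn => ?_⟩
  have hn' : B ^ 4 ≤ n := le_trans (Nat.le_ceil _) (by exact_mod_cast hn)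
  have h2 : B ^ 2 ≤ √n := by
    apply Real.le_sqrt_of_sq_le
    have h4 : (B ^ 2) ^ 2 = B ^ 4 := by ring
    rw [h4]
    exact hn'
  have h3 : B ≤ √(√n) := Real.le_sqrt_of_sq_le h2
  obtain ⟨a0, q, h⟩ := searchA_core β c (√(√n)) hβ hβ' hc hc' (by rw [← hB]; exact h3)
  have hsq : √(√(n : ℝ)) ^ 2 = √n := Real.sq_sqrt (Real.sqrt_nonneg _)
  rw [hsq] at h
  exact ⟨a0, q, h⟩

end Pool.Agent.Lib.MP_6b2d39_agHx
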