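import Pool.Agent.Lib.MP_6b2d39_agHx.Hit
import Pool.Agent.Lib.MP_6b2d39_agHx.SearchA

set_option autoImplicit false

namespace Pool.Agent.Lib.MP_6b2d39_agHx

private theorem inc_lo {A i : ℝ} (hA : 0 < A) (hi : 0 ≤ i) :
    1 / (A * (A + 1)) - 2 * i / A ^ 3 ≤ 1 / ((A + i) * (A + i + 1)) := by
  have h1 : 1 / (A * (A + 1)) - 1 / ((A + i) * (A + i + 1)) =
      i * (2 * A + i + 1) / (A * (A + 1) * ((A + i) * (A + i + 1))) := by
    field_simp
    ring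
  have h2 : i * (2 * A + i + 1) / (A * (A + 1) * ((A + i) * (A + i + 1))) ≤ 2 * i / A ^ 3 := by
    rw [div_le_div_iff₀ (by positivity) (by positivity)]
    have h3 : A ^ 3 ≤ A * (A + 1) * (A + i) := by
      have h4 : A * A ≤ A * (A + 1) := mul_le_mul_of_nonneg_left (by linarith) hA.le
      calc A ^ 3 = A * A * A := by ring
        _ ≤ A * (A + 1) * (A + i) := mul_le_mul h4 (by linarith) hA.le (by positivity)
    calc i * (2 * A + i + 1) * A ^ 3 ≤ i * (2 * A + i + 1) * (A * (A + 1) * (A + i)) :=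
          mul_le_mul_of_nonneg_left h3 (by positivity)
      _ ≤ i * (2 * (A + i + 1)) * (A * (A + 1) * (A + i)) := by
          refine mul_le_mul_of_nonneg_right (mul_le_mul_of_nonneg_left ?_ hi) (by positivity)
          linarith
      _ = 2 * i * (A * (A + 1) * ((A + i) * (A + i + 1))) := by ring
  linarith

private theorem inc_hi {A i : ℝ} (hA : 0 < A) (hi : 0 ≤ i) :
    1 / ((A + i) * (A + i + 1)) ≤ 1 / (A * (A + 1)) := by
  refine one_div_le_one_div_of_le (by positivity) ?_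
  exact mul_le_mul (by linarith) (by linarith) (by positivity) (by positivity)

/-- HX12. `search_a`, `hit` with `u i = - √n / (a0 + i)`, `T = 1`, `c1 = c / 8`, `c2 = c / 2`,
`K = ⌈8 / c⌉₊`, `τ = - c`: the increments `√n / ((a0 + i) (a0 + i + 1))` lie in
`[q + c / 8, q + c / 2]` for `i < K` (`K * 2 √n / a0 ^ 3 ≤ c / 8`, `a0 ≥ β √√n / 3`); `a = a0 + i`. -/
theorem search_b (β c : ℝ) (hβ : 0 < β) (hβ' : β ≤ 1) (hc : 0 < c) (hc' : c ≤ 1) :
    ∃ N0 : ℕ, ∀ n : ℕ, N0 ≤ n → ∃ (a : ℕ) (q : ℤ), β * √(√n) / 3 ≤ a ∧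
      (a : ℝ) ≤ 2 * (β * √(√n)) ∧ q + c / 2 ≤ √n / a ∧ √n / a ≤ q + c := by
  obtain ⟨N1, h1⟩ := search_a β c hβ hβ' hc hc'
  obtain ⟨K, hK⟩ : ∃ K : ℕ, 8 / c ≤ (K : ℝ) := exists_nat_ge _
  have hK0 : (0 : ℝ) < K := lt_of_lt_of_le (by positivity) hK
  obtain ⟨M, hM⟩ : ∃ M : ℕ, 432 * K / (β ^ 3 * c) + K / β + 1 ≤ (M : ℝ) := exists_nat_ge _
  refine ⟨max N1 (M ^ 4), fun n hn => ?_⟩
  obtain ⟨a0, q, ha1, ha2, hq1, hq2⟩ := h1 n (le_trans (le_max_left _ _) hn)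
  have hnM : (M : ℝ) ^ 4 ≤ n := by exact_mod_cast le_trans (le_max_right _ _) hn
  obtain ⟨x, hx⟩ : ∃ x : ℝ, x = √(√(n : ℝ)) := ⟨_, rfl⟩
  have hxx : x ^ 2 = √(n : ℝ) := by rw [hx]; exact Real.sq_sqrt (Real.sqrt_nonneg _)
  have hMx : (M : ℝ) ≤ x := by
    rw [hx]
    refine Real.le_sqrt_of_sq_le (Real.le_sqrt_of_sq_le ?_)
    have e0 : ((M : ℝ) ^ 2) ^ 2 = (M : ℝ) ^ 4 := by ring
    rw [e0]
    exact hnM
  have hp1 : 0 ≤ 432 * K / (β ^ 3 * c) := by positivity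
  have hp2 : 0 ≤ K / β := by positivity
  have hx0 : 0 < x := by linarith
  have hxa : 432 * K / (β ^ 3 * c) ≤ x := by linarith
  have hxb : K / β ≤ x := by linarith
  have hxb' : (K : ℝ) ≤ β * x := by
    rw [div_le_iff₀ hβ] at hxb
    linarith
  have hxa' : 432 * K ≤ x * (β ^ 3 * c) := by
    rwa [div_le_iff₀ (by positivity)] at hxa
  rw [← hx] at ha1 ha2 ⊢
  rw [← hxx] at hq1 hq2 ⊢
  have hA : (0 : ℝ) < a0 := lt_of_lt_of_le (by positivity) ha1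
  have hA3 : β ^ 3 * x ^ 3 ≤ 27 * (a0 : ℝ) ^ 3 := by
    have h3 : (β * x / 3) ^ 3 ≤ (a0 : ℝ) ^ 3 := pow_le_pow_left₀ (by positivity) ha1 3
    have h4 : (β * x / 3) ^ 3 = β ^ 3 * x ^ 3 / 27 := by ring
    rw [h4] at h3
    linarith
  -- the loss over `K` steps
  have hloss : x ^ 2 * (2 * K / (a0 : ℝ) ^ 3) ≤ c / 8 := by
    rw [← mul_div_assoc, div_le_div_iff₀ (by positivity) (by norm_num)]
    have h5 : 432 * K * x ^ 2 ≤ 27 * (a0 : ℝ) ^ 3 * c := by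
      calc 432 * K * x ^ 2 ≤ x * (β ^ 3 * c) * x ^ 2 :=
            mul_le_mul_of_nonneg_right hxa' (by positivity)
        _ = β ^ 3 * x ^ 3 * c := by ring
        _ ≤ 27 * (a0 : ℝ) ^ 3 * c := mul_le_mul_of_nonneg_right hA3 hc.le
    linarith
  obtain ⟨i, hi, p, hp1', hp2'⟩ := hit (u := fun i => -(x ^ 2 / ((a0 : ℝ) + i))) (T := 1)
    (c1 := c / 8) (c2 := c / 2) (K := K) one_pos (by positivity)
    (by
      rw [div_le_iff₀ hc] at hK
      linarith)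
    (by
      intro i hi
      refine ⟨q, ?_⟩
      have hi0 : (0 : ℝ) ≤ i := Nat.cast_nonneg i
      have hiK : (i : ℝ) ≤ K := by exact_mod_cast hi.le
      have e1 : -(x ^ 2 / ((a0 : ℝ) + ((i + 1 : ℕ) : ℝ))) - -(x ^ 2 / ((a0 : ℝ) + i)) =
          x ^ 2 * (1 / (((a0 : ℝ) + i) * ((a0 : ℝ) + i + 1))) := by
        have h6 : (0 : ℝ) < (a0 : ℝ) + i := by positivity
        have h7 : (0 : ℝ) < (a0 : ℝ) + i + 1 := by positivity
        push_cast
        rw [← add_assoc]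
        field_simp
        ring
      have e2 : x ^ 2 / ((a0 : ℝ) * (a0 + 1)) = x ^ 2 * (1 / ((a0 : ℝ) * (a0 + 1))) := by
        rw [mul_one_div]
      rw [e2] at hq1 hq2
      have h8 := inc_lo hA hi0
      have h9 := inc_hi hA hi0
      have h10 : x ^ 2 * (1 / ((a0 : ℝ) * (a0 + 1)) - 2 * i / (a0 : ℝ) ^ 3) ≤
          x ^ 2 * (1 / (((a0 : ℝ) + i) * ((a0 : ℝ) + i + 1))) :=
        mul_le_mul_of_nonneg_left h8 (by positivity)
      have h11 : x ^ 2 * (1 / (((a0 : ℝ) + i) * ((a0 : ℝ) + i + 1))) ≤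
          x ^ 2 * (1 / ((a0 : ℝ) * (a0 + 1))) :=
        mul_le_mul_of_nonneg_left h9 (by positivity)
      have h12 : x ^ 2 * (2 * i / (a0 : ℝ) ^ 3) ≤ x ^ 2 * (2 * K / (a0 : ℝ) ^ 3) := by
        refine mul_le_mul_of_nonneg_left ?_ (by positivity)
        exact div_le_div_of_nonneg_right (by linarith) (by positivity)
      rw [mul_sub] at h10
      constructor
      · show c / 8 ≤ -(x ^ 2 / ((a0 : ℝ) + ((i + 1 : ℕ) : ℝ))) - -(x ^ 2 / ((a0 : ℝ) + i)) -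
          1 * ((q : ℤ) : ℝ)
        rw [e1, Int.cast_natCast]
        linarith
      · show -(x ^ 2 / ((a0 : ℝ) + ((i + 1 : ℕ) : ℝ))) - -(x ^ 2 / ((a0 : ℝ) + i)) -
          1 * ((q : ℤ) : ℝ) ≤ c / 2
        rw [e1, Int.cast_natCast]
        linarith)
    (-c)
  have hiK : (i : ℝ) ≤ K := by exact_mod_cast hi
  have hi0 : (0 : ℝ) ≤ i := Nat.cast_nonneg i
  refine ⟨a0 + i, -p, ?_, ?_, ?_, ?_⟩
  · push_cast
    linarith
  · push_cast
    linarith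
  · push_cast
    linarith
  · push_cast
    linarith

end Pool.Agent.Lib.MP_6b2d39_agHx
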