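import Pool.Agent.Lib.MP_6b2d39_agHx.SearchG

set_option autoImplicit false

namespace Pool.Agent.Lib.MP_6b2d39_agHx

/-- HX13. `search_b` with `β = min 1 (√ρ / 2)`, `c = min 1 (δ / 2)`; `s0 = ⌈a (√n - τ)⌉₊`, `hit`
with `u i = ((s0 + i) / a) ^ 2`, `T = 2`, `c1 = c / 2`, `c2 = 5 c / 2`, `K = ⌈4 / c⌉₊`, target
`n - 5 c / 4`: the increments `(2 (s0 + i) + 1) / a ^ 2 = 2 √n / a - 2 τ / a + O (1 / a ^ 2)` lie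
in `2 q + [c / 2, 5 c / 2]`. Then `s1 = s0 + i`, `z = n + 2 q'`, `|u i - z| ≤ 5 c / 4`, and
`u i < n - 1` gives `q' < 0`, `k = - q'`. -/
theorem search_c (ρ τ δ M : ℝ) (hρ : 0 < ρ) (hτ : 0 < τ) (hδ : 0 < δ) :
    ∃ N0 : ℕ, ∀ n : ℕ, N0 ≤ n → ∃ a s1 z k : ℕ, M ≤ a ∧ 1 ≤ a ∧ (a : ℝ) ^ 2 ≤ ρ * √n ∧
      √n - τ ≤ (s1 : ℝ) / a ∧ (s1 : ℝ) / a ≤ √n - 9 / 10 * τ ∧
      |((s1 : ℝ) / a) ^ 2 - z| ≤ δ ∧ n = z + 2 * k :=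
  search_g ρ τ (9 / 10 * τ) δ M hρ (by positivity) (by linarith) hδ

end Pool.Agent.Lib.MP_6b2d39_agHx
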