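import Pool.Agent.Lib.MP_6b2d39_agHx.SearchB

set_option autoImplicit false

namespace Pool.Agent.Lib.MP_6b2d39_agHx

/-- HX13, general form. `search_b` with `β = min 1 (√ρ / 2)`, `c = min 1 (δ / 2)`; `s0 = ⌈a (√n - τ)⌉₊`, `hit`
with `u i = ((s0 + i) / a) ^ 2`, `T = 2`, `c1 = c / 2`, `c2 = 5 c / 2`, `K = ⌈4 / c⌉₊`, target
`n - 5 c / 4`: the increments `(2 (s0 + i) + 1) / a ^ 2 = 2 √n / a - 2 τ / a + O (1 / a ^ 2)` lie
in `2 q + [c / 2, 5 c / 2]`. Then `s1 = s0 + i`, `z = n + 2 q'`, `|u i - z| ≤ 5 c / 4`, and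
`u i < n - 1` gives `q' < 0`, `k = - q'`. -/
theorem search_g (ρ τ τ' δ M : ℝ) (hρ : 0 < ρ) (hτ' : 0 < τ') (hττ : τ' < τ) (hδ : 0 < δ) :
    ∃ N0 : ℕ, ∀ n : ℕ, N0 ≤ n → ∃ a s1 z k : ℕ, M ≤ a ∧ 1 ≤ a ∧ (a : ℝ) ^ 2 ≤ ρ * √n ∧
      √n - τ ≤ (s1 : ℝ) / a ∧ (s1 : ℝ) / a ≤ √n - τ' ∧
      |((s1 : ℝ) / a) ^ 2 - z| ≤ δ ∧ n = z + 2 * k := by
  have hτ : 0 < τ := hτ'.trans hττ
  have hd : 0 < τ - τ' := sub_pos.2 hττ
  obtain ⟨c, hc⟩ : ∃ c : ℝ, c = min 1 (δ / 2) := ⟨_, rfl⟩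
  have hc0 : 0 < c := by rw [hc]; exact lt_min one_pos (by positivity)
  have hc1 : c ≤ 1 := by rw [hc]; exact min_le_left _ _
  have hcδ : c ≤ δ / 2 := by rw [hc]; exact min_le_right _ _
  obtain ⟨β, hβ⟩ : ∃ β : ℝ, β = min 1 (√ρ / 2) := ⟨_, rfl⟩
  have hρ' : 0 < √ρ := Real.sqrt_pos.2 hρ
  have hβ0 : 0 < β := by rw [hβ]; exact lt_min one_pos (by positivity)
  have hβ1 : β ≤ 1 := by rw [hβ]; exact min_le_left _ _
  have hβρ : 4 * β ^ 2 ≤ ρ := by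
    have h1 : β ≤ √ρ / 2 := by rw [hβ]; exact min_le_right _ _
    have h2 : β ^ 2 ≤ (√ρ / 2) ^ 2 := pow_le_pow_left₀ hβ0.le h1 2
    have h3 : (√ρ / 2) ^ 2 = ρ / 4 := by
      rw [div_pow, Real.sq_sqrt hρ.le]
      norm_num
    linarith
  obtain ⟨N1, h1⟩ := search_b β c hβ0 hβ1 hc0 hc1
  obtain ⟨K, hK⟩ : ∃ K : ℕ, 4 / c ≤ (K : ℝ) := exists_nat_ge _
  obtain ⟨A, hA⟩ : ∃ A : ℝ, A = |M| + 1 + 4 * τ / c + 2 * (2 * K + 3) / c +
    (K + 1) / (τ - τ') := ⟨_, rfl⟩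
  obtain ⟨X, hX⟩ : ∃ X : ℕ, 3 * A / β + τ + 2 + (1 + τ' ^ 2) / τ' ≤ (X : ℝ) := exists_nat_ge _
  refine ⟨max N1 (X ^ 4), fun n hn => ?_⟩
  obtain ⟨a, q, ha1, ha2, hq1, hq2⟩ := h1 n (le_trans (le_max_left _ _) hn)
  have hnX : (X : ℝ) ^ 4 ≤ n := by exact_mod_cast le_trans (le_max_right _ _) hn
  obtain ⟨x, hx⟩ : ∃ x : ℝ, x = √(√(n : ℝ)) := ⟨_, rfl⟩
  obtain ⟨y, hy⟩ : ∃ y : ℝ, y = √(n : ℝ) := ⟨_, rfl⟩
  have hxx : x ^ 2 = y := by rw [hx, hy]; exact Real.sq_sqrt (Real.sqrt_nonneg _)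
  have hyy : y ^ 2 = n := by rw [hy]; exact Real.sq_sqrt (Nat.cast_nonneg n)
  have hXx : (X : ℝ) ≤ x := by
    rw [hx]
    refine Real.le_sqrt_of_sq_le (Real.le_sqrt_of_sq_le ?_)
    have e0 : ((X : ℝ) ^ 2) ^ 2 = (X : ℝ) ^ 4 := by ring
    rw [e0]
    exact hnX
  rw [← hx] at ha1 ha2
  rw [← hy] at hq1 hq2 ⊢
  have hKn : (0 : ℝ) ≤ K := Nat.cast_nonneg K
  have t1 : 0 ≤ |M| := abs_nonneg M
  have t2 : 0 ≤ 4 * τ / c := by positivity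
  have t3 : 0 ≤ 2 * (2 * (K : ℝ) + 3) / c := by positivity
  have t4 : 0 ≤ ((K : ℝ) + 1) / (τ - τ') := by positivity
  have hA1 : 1 ≤ A := by rw [hA]; linarith
  have t5 : 0 ≤ 3 * A / β := by positivity
  have t6 : 0 ≤ (1 + τ' ^ 2) / τ' := by positivity
  have hxA : 3 * A / β ≤ x := by linarith
  have hx1 : 1 ≤ x := by linarith
  have haA : A ≤ a := by
    rw [div_le_iff₀ hβ0] at hxA
    linarith
  have ha0 : (0 : ℝ) < a := by linarith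
  have ha1' : (1 : ℝ) ≤ a := by linarith
  have hxy : x ≤ y := by
    rw [← hxx]
    exact le_self_pow₀ hx1 two_ne_zero
  have hyτ : τ + 2 ≤ y := by linarith
  have hyT : 1 + τ' ^ 2 ≤ y * τ' := by
    have h2 : (1 + τ' ^ 2) / τ' ≤ y := by linarith
    rwa [div_le_iff₀ hτ'] at h2
  have haM : M ≤ a := by
    have h2 := le_abs_self M
    rw [hA] at haA
    linarith
  have haτ : 4 * τ ≤ a * c := by
    have h2 : 4 * τ / c ≤ a := by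
      rw [hA] at haA
      linarith
    rwa [div_le_iff₀ hc0] at h2
  have haK : 2 * (2 * (K : ℝ) + 3) ≤ a * c := by
    have h2 : 2 * (2 * (K : ℝ) + 3) / c ≤ a := by
      rw [hA] at haA
      linarith
    rwa [div_le_iff₀ hc0] at h2
  have haT : (K : ℝ) + 1 ≤ a * (τ - τ') := by
    have h2 : ((K : ℝ) + 1) / (τ - τ') ≤ a := by
      rw [hA] at haA
      linarith
    rwa [div_le_iff₀ hd] at h2
  have hsq : (a : ℝ) ^ 2 ≤ ρ * y := by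
    have h2 : (a : ℝ) ^ 2 ≤ (2 * (β * x)) ^ 2 := pow_le_pow_left₀ ha0.le ha2 2
    have h3 : (2 * (β * x)) ^ 2 = 4 * β ^ 2 * y := by rw [← hxx]; ring
    rw [h3] at h2
    have hy0 : 0 ≤ y := by linarith
    exact h2.trans (mul_le_mul_of_nonneg_right hβρ hy0)
  obtain ⟨s0, hs0⟩ : ∃ s0 : ℕ, s0 = ⌈(a : ℝ) * (y - τ)⌉₊ := ⟨_, rfl⟩
  have hpos : 0 ≤ (a : ℝ) * (y - τ) := mul_nonneg ha0.le (by linarith)
  have hs1 : (a : ℝ) * (y - τ) ≤ s0 := by rw [hs0]; exact Nat.le_ceil _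
  have hs2 : (s0 : ℝ) < a * (y - τ) + 1 := by rw [hs0]; exact Nat.ceil_lt_add_one hpos
  obtain ⟨i, hi, p, hp1, hp2⟩ := hit (u := fun i => (((s0 : ℝ) + i) / a) ^ 2) (T := 2)
    (c1 := c / 2) (c2 := 5 * c / 2) (K := K) two_pos (by positivity)
    (by
      rw [div_le_iff₀ hc0] at hK
      linarith)
    (by
      intro i hi
      refine ⟨q, ?_⟩
      have hi0 : (0 : ℝ) ≤ i := Nat.cast_nonneg i
      have hiK : (i : ℝ) ≤ K := by exact_mod_cast hi.le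
      have e1 : (((s0 : ℝ) + ((i + 1 : ℕ) : ℝ)) / a) ^ 2 - (((s0 : ℝ) + i) / a) ^ 2 =
          (2 * ((s0 : ℝ) + i) + 1) / a ^ 2 := by
        push_cast
        field_simp
        ring
      have e2 : 2 * (y / a) - 2 * τ / a ≤ (2 * ((s0 : ℝ) + i) + 1) / a ^ 2 := by
        have h3 : 2 * (y / a) - 2 * τ / a = 2 * (a * (y - τ)) / a ^ 2 := by
          field_simp
        rw [h3]
        exact div_le_div_of_nonneg_right (by linarith) (by positivity)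
      have e3 : (2 * ((s0 : ℝ) + i) + 1) / a ^ 2 ≤ 2 * (y / a) + (2 * K + 3) / a := by
        have h3 : 2 * (y / a) + (2 * K + 3) / a = (2 * (a * y) + a * (2 * K + 3)) / a ^ 2 := by
          field_simp
        rw [h3]
        refine div_le_div_of_nonneg_right ?_ (by positivity)
        have h4 : (a : ℝ) * (y - τ) = a * y - a * τ := by ring
        have h5 : 0 ≤ (a : ℝ) * τ := by positivity
        have h6 : 2 * (K : ℝ) + 3 ≤ a * (2 * K + 3) := le_mul_of_one_le_left (by linarith) ha1'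
        linarith
      have e4 : 2 * τ / a ≤ c / 2 := by
        rw [div_le_iff₀ ha0]
        linarith
      have e5 : (2 * (K : ℝ) + 3) / a ≤ c / 2 := by
        rw [div_le_iff₀ ha0]
        linarith
      constructor
      · show c / 2 ≤ (((s0 : ℝ) + ((i + 1 : ℕ) : ℝ)) / a) ^ 2 - (((s0 : ℝ) + i) / a) ^ 2 -
          2 * ((q : ℤ) : ℝ)
        rw [e1]
        linarith
      · show (((s0 : ℝ) + ((i + 1 : ℕ) : ℝ)) / a) ^ 2 - (((s0 : ℝ) + i) / a) ^ 2 -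
          2 * ((q : ℤ) : ℝ) ≤ 5 * c / 2
        rw [e1]
        linarith)
    (n - 5 * c / 4)
  have hiK : (i : ℝ) ≤ K := by exact_mod_cast hi
  have hi0 : (0 : ℝ) ≤ i := Nat.cast_nonneg i
  have hlo : y - τ ≤ ((s0 : ℝ) + i) / a := by
    rw [le_div_iff₀ ha0]
    linarith
  have hhi : ((s0 : ℝ) + i) / a ≤ y - τ' := by
    have e4 : (y - τ') * a = a * (y - τ) + a * (τ - τ') := by ring
    rw [div_le_iff₀ ha0, e4]
    linarith
  have hu1 : (4 : ℝ) ≤ (((s0 : ℝ) + i) / a) ^ 2 := by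
    have h2 : (2 : ℝ) ^ 2 ≤ (((s0 : ℝ) + i) / a) ^ 2 :=
      pow_le_pow_left₀ two_pos.le (by linarith) 2
    have h3 : (2 : ℝ) ^ 2 = 4 := by norm_num
    linarith
  have hu2 : (((s0 : ℝ) + i) / a) ^ 2 ≤ n - 1 := by
    have h2 : (((s0 : ℝ) + i) / a) ^ 2 ≤ (y - τ') ^ 2 :=
      pow_le_pow_left₀ (by linarith) hhi 2
    have h3 : (y - τ') ^ 2 ≤ n - 1 := by
      have h4 : (y - τ') ^ 2 = y ^ 2 - 2 * (y * τ') + τ' ^ 2 := by ring
      have h5 : 0 ≤ τ' ^ 2 := sq_nonneg τ'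
      rw [h4, hyy]
      linarith
    exact h2.trans h3
  have hp1' : 0 ≤ (((s0 : ℝ) + i) / a) ^ 2 - (n - 5 * c / 4) - 2 * p := hp1
  have hp2' : (((s0 : ℝ) + i) / a) ^ 2 - (n - 5 * c / 4) - 2 * p ≤ 5 * c / 2 := hp2
  have hp0 : p ≤ 0 := by
    have h2 : (p : ℝ) < 1 := by linarith
    have h3 : p < 1 := by exact_mod_cast h2
    omega
  have hz0 : 0 ≤ (n : ℤ) + 2 * p := by
    have h2 : (-1 : ℝ) < n + 2 * p := by linarith
    have h3 : (-1 : ℤ) < (n : ℤ) + 2 * p := by exact_mod_cast h2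
    omega
  refine ⟨a, s0 + i, ((n : ℤ) + 2 * p).toNat, (-p).toNat, haM, ?_, hsq, ?_, ?_, ?_, ?_⟩
  · exact_mod_cast ha1'
  · push_cast
    exact hlo
  · push_cast
    exact hhi
  · have h2 : ((((n : ℤ) + 2 * p).toNat : ℕ) : ℝ) = n + 2 * p := by
      have h3 : ((((n : ℤ) + 2 * p).toNat : ℕ) : ℤ) = n + 2 * p := Int.toNat_of_nonneg hz0
      exact_mod_cast congrArg (Int.cast : ℤ → ℝ) h3
    rw [h2, Nat.cast_add, abs_le]
    constructor <;> linarith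
  · omega

end Pool.Agent.Lib.MP_6b2d39_agHx
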