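import Pool.Agent.Lib.MP_6b2d39_agHx.CovL

set_option autoImplicit false

namespace Pool.Agent.Lib.MP_6b2d39_agHx

/-- HX25. one level down: the hypothesis with `c / 2` gives `κ1`; `cov_mono` from
`(κ1 / √n) ^ (i + 3)` to `(u0 / n) ^ (i + 2)` (smaller for `n` large, as `2 (i + 2) > i + 3`), then
`cov_level i` with `u = u0`, `u' = κ √n`, `κ = min (1 / 8) (c / (2 C))`. -/
theorem seg_down (i : ℕ) (η : ℕ → ℝ)
    (h : ∀ c : ℝ, 0 < c → ∃ κ : ℝ, 0 < κ ∧ κ ≤ 1 / 8 ∧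
      ∃ N0 : ℕ, ∀ n : ℕ, N0 ≤ n → ∃ Λ : ℕ, (Λ : ℝ) ≤ c * √n ∧
        Cov n (Nat.sqrt n / 4) Λ ((κ / √n) ^ (i + 3)) (η n)) :
    ∀ c : ℝ, 0 < c → ∃ κ : ℝ, 0 < κ ∧ κ ≤ 1 / 8 ∧
      ∃ N0 : ℕ, ∀ n : ℕ, N0 ≤ n → ∃ Λ : ℕ, (Λ : ℝ) ≤ c * √n ∧
        Cov n (Nat.sqrt n / 4) Λ ((κ / √n) ^ (i + 2)) (η n) := by
  intro c hc
  obtain ⟨κ1, hκ1, -, N1, h1⟩ := h (c / 2) (by positivity)
  obtain ⟨C, u0, hC, hu0, hlev⟩ := cov_level i
  have hu0' : 0 < u0 := by linarith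
  obtain ⟨κ, hκdef⟩ : ∃ κ : ℝ, κ = min (1 / 8) (c / (2 * C)) := ⟨_, rfl⟩
  have hκ : 0 < κ := by
    rw [hκdef]
    exact lt_min (by norm_num) (by positivity)
  have hκ8 : κ ≤ 1 / 8 := by
    rw [hκdef]
    exact min_le_left _ _
  have hκC : κ ≤ c / (2 * C) := by
    rw [hκdef]
    exact min_le_right _ _
  refine ⟨κ, hκ, hκ8, max N1 (max 64 (max ⌈(u0 / κ) ^ 2⌉₊
    ⌈(u0 ^ (i + 2) / κ1 ^ (i + 3)) ^ 2⌉₊)), fun n hn => ?_⟩
  have n1 : N1 ≤ n := (le_max_left _ _).trans hn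
  have n' := (le_max_right _ _).trans hn
  have n2 : 64 ≤ n := (le_max_left _ _).trans n'
  have n'' := (le_max_right _ _).trans n'
  have n3 : ⌈(u0 / κ) ^ 2⌉₊ ≤ n := (le_max_left _ _).trans n''
  have n4 : ⌈(u0 ^ (i + 2) / κ1 ^ (i + 3)) ^ 2⌉₊ ≤ n := (le_max_right _ _).trans n''
  obtain ⟨Λ, hΛ, hcov⟩ := h1 n n1
  have hq := Real.real_sqrt_le_nat_sqrt_succ (a := n)
  obtain ⟨s, hs⟩ : ∃ s : ℝ, s = √(n : ℝ) := ⟨_, rfl⟩
  have hn0 : (0 : ℝ) ≤ n := Nat.cast_nonneg n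
  have hs2 : s ^ 2 = n := by
    rw [hs]
    exact Real.sq_sqrt hn0
  have hs8 : 8 ≤ s := by
    rw [hs]
    refine Real.le_sqrt_of_sq_le ?_
    have h64 : ((64 : ℕ) : ℝ) ≤ n := Nat.cast_le.2 n2
    push_cast at h64
    linarith
  have hs3 : u0 / κ ≤ s := by
    rw [hs]
    refine Real.le_sqrt_of_sq_le ?_
    exact (Nat.le_ceil _).trans (Nat.cast_le.2 n3)
  have hs4 : u0 ^ (i + 2) / κ1 ^ (i + 3) ≤ s := by
    rw [hs]
    refine Real.le_sqrt_of_sq_le ?_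
    exact (Nat.le_ceil _).trans (Nat.cast_le.2 n4)
  rw [← hs] at hq hΛ hcov ⊢
  have hs0 : 0 < s := by linarith
  have e1 : κ * s / n = κ / s := by
    rw [← hs2]
    field_simp
  -- the height
  have hH : (u0 / n) ^ (i + 2) ≤ (κ1 / s) ^ (i + 3) := by
    rw [← hs2, div_pow, div_pow, div_le_div_iff₀ (by positivity) (by positivity)]
    have h5 : u0 ^ (i + 2) ≤ κ1 ^ (i + 3) * s := by
      rw [div_le_iff₀ (by positivity)] at hs4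
      linarith
    have h6 : s ≤ s ^ (i + 1) := by
      have h7 : s ^ 1 ≤ s ^ (i + 1) := pow_le_pow_right₀ (by linarith) (by omega)
      rwa [pow_one] at h7
    have h8 : u0 ^ (i + 2) ≤ κ1 ^ (i + 3) * s ^ (i + 1) :=
      h5.trans (mul_le_mul_of_nonneg_left h6 (by positivity))
    have h9 : (s ^ 2) ^ (i + 2) = s ^ (i + 1) * s ^ (i + 3) := by
      rw [← pow_mul, ← pow_add]
      congr 1
      ring
    rw [h9, ← mul_assoc]
    exact mul_le_mul_of_nonneg_right h8 (by positivity)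
  -- the block
  have hB : κ * s ≤ 2 * ((Nat.sqrt n / 4 : ℕ) : ℝ) := by
    have h5 : Nat.sqrt n ≤ 4 * (Nat.sqrt n / 4) + 3 := by omega
    have h6 : ((Nat.sqrt n : ℕ) : ℝ) ≤ 4 * ((Nat.sqrt n / 4 : ℕ) : ℝ) + 3 := by exact_mod_cast h5
    have h7 : κ * s ≤ 1 / 8 * s := mul_le_mul_of_nonneg_right hκ8 hs0.le
    linarith
  have hu : u0 ≤ κ * s := by
    rw [div_le_iff₀ hκ] at hs3
    linarith
  obtain ⟨Λ', hΛ', hcov'⟩ := hlev n (Nat.sqrt n / 4) Λ (η n) u0 (κ * s) (by omega) le_rfl hu hB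
    (cov_mono hcov hH)
  rw [e1] at hcov'
  refine ⟨Λ', hΛ'.trans ?_, hcov'⟩
  have h5 : C * (κ * s) ≤ c / 2 * s := by
    have h6 : C * κ ≤ c / 2 := by
      have h7 : C * κ ≤ C * (c / (2 * C)) := mul_le_mul_of_nonneg_left hκC hC.le
      have h8 : C * (c / (2 * C)) = c / 2 := by field_simp
      linarith
    calc C * (κ * s) = C * κ * s := by ring
      _ ≤ c / 2 * s := mul_le_mul_of_nonneg_right h6 hs0.le
  linarith

end Pool.Agent.Lib.MP_6b2d39_agHx
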