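import Pool.Agent.Lib.MP_6b2d39_agHx.SegA
import Pool.Agent.Lib.MP_6b2d39_agHx.SegD

set_option autoImplicit false

namespace Pool.Agent.Lib.MP_6b2d39_agHx

theorem seg (J : ℕ) : ∃ q : ℝ, 0 < q ∧ ∀ c : ℝ, 0 < c → ∃ κ : ℝ, 0 < κ ∧
    ∃ N0 : ℕ, ∀ n : ℕ, N0 ≤ n → ∃ Λ : ℕ, (Λ : ℝ) ≤ c * √n ∧
      Cov n (Nat.sqrt n / 4) Λ ((κ / √n) ^ 2) ((q / n) ^ (J + 2)) := by
  obtain ⟨q, hq, h⟩ := seg_start J
  refine ⟨q, hq, ?_⟩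
  have key : ∀ k i : ℕ, i + k = J → ∀ c : ℝ, 0 < c → ∃ κ : ℝ, 0 < κ ∧ κ ≤ 1 / 8 ∧
      ∃ N0 : ℕ, ∀ n : ℕ, N0 ≤ n → ∃ Λ : ℕ, (Λ : ℝ) ≤ c * √n ∧
        Cov n (Nat.sqrt n / 4) Λ ((κ / √n) ^ (i + 2)) ((q / n) ^ (J + 2)) := by
    intro k
    induction k with
    | zero =>
      intro i hi
      have hi' : i = J := by omega
      subst hi'
      exact h
    | succ k ih =>
      intro i hi
      exact seg_down i (fun n => (q / n) ^ (J + 2)) (ih (i + 1) (by omega))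
  intro c hc
  obtain ⟨κ, h1, -, h2⟩ := key J 0 (by omega) c hc
  exact ⟨κ, h1, h2⟩

end Pool.Agent.Lib.MP_6b2d39_agHx
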