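import Pool.Agent.Lib.MP_6b2d39_agHx.CovL

set_option autoImplicit false

namespace Pool.Agent.Lib.MP_6b2d39_agHx

/-- HX24. the start: `cov_zero` with `η = (u0 / n) ^ (J + 2)`, then `cov_level J` with `u = u0`,
`u' = κ √n`, `κ = min (1 / 8) (c / C)`; `κ √n / n = κ / √n`; `√n / 8 ≤ 2 (⌊√n⌋ / 4)` for `n`
large. -/
theorem seg_start (J : ℕ) : ∃ q : ℝ, 0 < q ∧ ∀ c : ℝ, 0 < c → ∃ κ : ℝ, 0 < κ ∧ κ ≤ 1 / 8 ∧
    ∃ N0 : ℕ, ∀ n : ℕ, N0 ≤ n → ∃ Λ : ℕ, (Λ : ℝ) ≤ c * √n ∧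
      Cov n (Nat.sqrt n / 4) Λ ((κ / √n) ^ (J + 2)) ((q / n) ^ (J + 2)) := by
  obtain ⟨C, u0, hC, hu0, h⟩ := cov_level J
  refine ⟨u0, by linarith, fun c hc => ?_⟩
  obtain ⟨κ, hκ⟩ : ∃ κ, κ = min (1 / 8) (c / C) := ⟨_, rfl⟩
  have hκ0 : 0 < κ := by
    rw [hκ]
    exact lt_min (by norm_num) (div_pos hc hC)
  have hκ1 : κ ≤ 1 / 8 := by
    rw [hκ]
    exact min_le_left _ _
  have hκ2 : κ ≤ c / C := by
    rw [hκ]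
    exact min_le_right _ _
  have hκ3 : C * κ ≤ c := by
    rw [le_div_iff₀ hC] at hκ2
    linarith
  refine ⟨κ, hκ0, hκ1, ⌈(u0 / κ) ^ 2⌉₊ + 100, fun n hn => ?_⟩
  have hn1 : ((u0 / κ) ^ 2 : ℝ) ≤ n := by
    refine (Nat.le_ceil _).trans ?_
    exact_mod_cast (by omega : ⌈(u0 / κ) ^ 2⌉₊ ≤ n)
  have hn2 : ((100 : ℕ) : ℝ) ≤ n := by exact_mod_cast (by omega : 100 ≤ n)
  have hs1 : u0 / κ ≤ √n := (le_abs_self _).trans (Real.abs_le_sqrt hn1)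
  have hs2 : (10 : ℝ) ≤ √n := by
    refine (le_abs_self _).trans (Real.abs_le_sqrt ?_)
    refine le_trans ?_ hn2
    norm_num
  have hs3 : u0 ≤ κ * √n := by
    rw [div_le_iff₀ hκ0] at hs1
    linarith
  have hs4 : κ * √n ≤ 2 * ((Nat.sqrt n / 4 : ℕ) : ℝ) := by
    have h1 := Real.real_sqrt_lt_nat_sqrt_succ (a := n)
    have h2 : Nat.sqrt n ≤ 4 * (Nat.sqrt n / 4) + 3 := by omega
    have h3 : (Nat.sqrt n : ℝ) ≤ 4 * ((Nat.sqrt n / 4 : ℕ) : ℝ) + 3 := by exact_mod_cast h2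
    have h4 : κ * √n ≤ 1 / 8 * √n := mul_le_mul_of_nonneg_right hκ1 (Real.sqrt_nonneg _)
    linarith
  obtain ⟨Λ, hΛ, hcov⟩ := h n (Nat.sqrt n / 4) 0 ((u0 / n) ^ (J + 2)) u0 (κ * √n) (by omega)
    le_rfl hs3 hs4 cov_zero
  refine ⟨Λ, ?_, ?_⟩
  · refine hΛ.trans ?_
    rw [Nat.cast_zero, zero_add, ← mul_assoc]
    exact mul_le_mul_of_nonneg_right hκ3 (Real.sqrt_nonneg _)
  · have e : κ * √n / n = κ / √n := by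
      rw [mul_div_assoc, Real.sqrt_div_self, div_eq_mul_inv]
    rw [e] at hcov
    exact hcov

end Pool.Agent.Lib.MP_6b2d39_agHx
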