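import Mathlib

set_option autoImplicit false

namespace Pool.Agent.Lib.MP_6b2d39_agHx

/-- HX28. -/
theorem block_step {z D p : ℕ} (hz : 1 ≤ z) :
    Real.log (1 + (D : ℝ) / ((z : ℝ) + p)) - Real.log (1 + (D : ℝ) / ((z : ℝ) + (p + 1 : ℕ))) ≤
      (D : ℝ) / (z : ℝ) ^ 2 := by
  have hz1 : (1 : ℝ) ≤ z := by exact_mod_cast hz
  have hp : (0 : ℝ) ≤ p := Nat.cast_nonneg p
  have hD : (0 : ℝ) ≤ D := Nat.cast_nonneg D
  obtain ⟨a, ha⟩ : ∃ a : ℝ, a = (z : ℝ) + p := ⟨_, rfl⟩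
  have e1 : (z : ℝ) + (p + 1 : ℕ) = a + 1 := by
    rw [ha]
    push_cast
    ring
  rw [e1, ← ha]
  have haz : (z : ℝ) ≤ a := by linarith
  have ha0 : 0 < a := by linarith
  have h1 : 0 < 1 + (D : ℝ) / a := by positivity
  have h2 : 0 < 1 + (D : ℝ) / (a + 1) := by positivity
  rw [← Real.log_div h1.ne' h2.ne']
  refine (Real.log_le_sub_one_of_pos (div_pos h1 h2)).trans ?_
  have h3 : (1 + (D : ℝ) / a) / (1 + (D : ℝ) / (a + 1)) - 1 = (D : ℝ) / (a * (a + 1 + D)) := by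
    have h4 : a + 1 + (D : ℝ) ≠ 0 := by positivity
    field_simp
    ring
  rw [h3]
  refine div_le_div_of_nonneg_left hD (by positivity) ?_
  rw [sq]
  exact mul_le_mul haz (by linarith) (by linarith) ha0.le

/-- HX29. the least `p` with `log (1 + D / (z + p)) ≤ G` -/
theorem select {z D : ℕ} {G H : ℝ} (hD : 2 ≤ D) (hz : 1 ≤ z) (hH : (D : ℝ) / (z : ℝ) ^ 2 ≤ H)
    (h1 : G ≤ Real.log (1 + (D : ℝ) / ((z : ℝ) + 1)))
    (h2 : Real.log (1 + (D : ℝ) / ((z : ℝ) + ((D - 1 : ℕ) : ℝ))) ≤ G) :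
    ∃ p : ℕ, 1 ≤ p ∧ p + 1 ≤ D ∧ G - H ≤ Real.log (1 + (D : ℝ) / ((z : ℝ) + p)) ∧
      Real.log (1 + (D : ℝ) / ((z : ℝ) + p)) ≤ G := by
  classical
  have hex : ∃ p : ℕ, 1 ≤ p ∧ Real.log (1 + (D : ℝ) / ((z : ℝ) + p)) ≤ G := ⟨D - 1, by omega, h2⟩
  obtain ⟨p, hp⟩ : ∃ p, Nat.find hex = p := ⟨_, rfl⟩
  have h3 := Nat.find_spec hex
  have h4 : p ≤ D - 1 := by
    rw [← hp]
    exact Nat.find_min' hex ⟨by omega, h2⟩
  rw [hp] at h3
  refine ⟨p, h3.1, by omega, ?_, h3.2⟩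
  have hH0 : 0 ≤ H := le_trans (by positivity) hH
  by_cases hp1 : p = 1
  · subst hp1
    rw [Nat.cast_one]
    linarith
  · obtain ⟨k, rfl⟩ : ∃ k, p = k + 1 := ⟨p - 1, by omega⟩
    have h5 := Nat.find_min hex (m := k) (by omega)
    have h6 : G < Real.log (1 + (D : ℝ) / ((z : ℝ) + k)) := by
      by_contra hcon
      exact h5 ⟨by omega, not_lt.1 hcon⟩
    have h7 := block_step (D := D) (p := k) hz
    linarith

end Pool.Agent.Lib.MP_6b2d39_agHx
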