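import Pool.Agent.Lib.MP_6b2d39_agHl.StepA

set_option autoImplicit false

namespace Pool.Agent.Lib.MP_6b2d39_agHx

open Pool.Agent.Lib.MP_6b2d39_agHl

/-- HX1. the sharp step with an exceptional row `R` before the step. As `stepA_up`
(`Hl/StepA.lean`) with `row_up_ne` for `b ≥ 1` and `row_up_ne_zero` for `b = 0`. If `0 < A`, the
exceptional row after the step is the `b` with `0 < A - s b < s - x ^ 2` (`n` if there is none);
for `A ≤ 0` it is `0` and all the others are empty. -/
theorem stepN_up {n s : ℕ} {r : ℕ → ℕ} {x x' A : ℝ} (hx : 0 < x) (hs : x * x' = s)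
    (hle : x ^ 2 ≤ s) {R : ℕ} (hR : (r R : ℝ) ≤ x ^ 2 / 2)
    (h : ∀ b, b ≠ R → (r b : ℝ) ≤ max (A - x ^ 2 * b) 0) :
    ∃ R', (∀ b, b ≠ R' → (stp s n r b : ℝ) ≤
        max (x' / x * (A - (s - x ^ 2) / 2) + 5 * x ^ 2 / 8 - x' ^ 2 * b) 0) ∧
      (stp s n r R' : ℝ) ≤ x' ^ 2 / 2 + x ^ 2 / 2 := by
  have hx2 : 0 < x ^ 2 := by positivity
  have hx0 : x ≠ 0 := hx.ne'
  have hs0 : (0 : ℝ) < s := lt_of_lt_of_le hx2 hle
  have hx'2 : 0 ≤ x' ^ 2 := sq_nonneg x'
  have hRs : r R ≤ s := by
    have h1 : (r R : ℝ) ≤ s := by linarith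
    exact_mod_cast h1
  -- all rows: the sum of `ff` and half a square
  have hrow : ∀ b : ℕ, (stp s n r b : ℝ) ≤ ff s (x ^ 2) (A - s * b) + x ^ 2 / 2 := by
    intro b
    rcases Nat.eq_zero_or_pos b with rfl | hb
    · have h1 := row_up_ne_zero (n := n) hx2 hle h
      rw [Nat.cast_zero, mul_zero, sub_zero]
      linarith
    · have h1 := row_up_ne (n := n) hx2 hle hRs h hb
      linarith
  -- outside the interval `(0, s - P)`
  have hout : ∀ b : ℕ, (0 < A ∨ b ≠ 0) → ¬(0 < A - s * b ∧ A - s * b < s - x ^ 2) →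
      (stp s n r b : ℝ) ≤
      max (x' / x * (A - (s - x ^ 2) / 2) + 5 * x ^ 2 / 8 - x' ^ 2 * b) 0 := by
    intro b hA hb
    rcases le_or_gt (A - s * b) 0 with h2 | h2
    · have hb0 : 1 ≤ b := by
        rcases Nat.eq_zero_or_pos b with rfl | hb1
        · rw [Nat.cast_zero, mul_zero, sub_zero] at h2
          rcases hA with hA | hA
          · exact absurd hA (not_lt.2 h2)
          · exact absurd rfl hA
        · exact hb1
      have h1 := row_up_ne (n := n) hx2 hle hRs h hb0
      rw [ff_of_nonpos hx2 h2] at h1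
      exact h1.trans (le_max_right _ _)
    · have h3 : (s : ℝ) - x ^ 2 ≤ A - s * b := by
        by_contra h4
        exact hb ⟨h2, not_le.1 h4⟩
      have h4 := ff_le_sharp hx2 hle h3
      have h5 := hrow b
      refine le_trans ?_ (le_max_left _ _)
      have h6 : (s : ℝ) / x ^ 2 * (A - s * b - (s - x ^ 2) / 2) + x ^ 2 / 8 =
          x' / x * (A - (s - x ^ 2) / 2) + x ^ 2 / 8 - x' ^ 2 * b := by
        rw [← hs]
        field_simp
        ring
      linarith
  rcases le_or_gt A 0 with hA | hA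
  · refine ⟨0, fun b hb => hout b (Or.inr hb) fun hb' => ?_, ?_⟩
    · have h1 : (0 : ℝ) ≤ s * b := by positivity
      linarith [hb'.1]
    · have h1 := hrow 0
      rw [Nat.cast_zero, mul_zero, sub_zero, ff_of_nonpos hx2 hA] at h1
      linarith
  by_cases he : ∃ R : ℕ, 0 < A - s * R ∧ A - s * R < s - x ^ 2
  · obtain ⟨R', hR1, hR2⟩ := he
    refine ⟨R', fun b hb => hout b (Or.inl hA) fun hb' => hb ?_, ?_⟩
    · -- uniqueness
      have h1 : (s : ℝ) * b < s * (R' + 1) := by
        have := hb'.1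
        nlinarith
      have h2 : (s : ℝ) * R' < s * (b + 1) := by
        have := hb'.2
        nlinarith
      have h3 : (b : ℝ) < R' + 1 := lt_of_mul_lt_mul_left h1 hs0.le
      have h4 : (R' : ℝ) < b + 1 := lt_of_mul_lt_mul_left h2 hs0.le
      have h5 : b < R' + 1 := by exact_mod_cast h3
      have h6 : R' < b + 1 := by exact_mod_cast h4
      omega
    · have h1 : ff s (x ^ 2) (A - s * R') ≤ x' ^ 2 / 2 := by
        refine (ff_le_last hx2 hle hR2.le).trans (le_of_eq ?_)
        rw [← hs]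
        field_simp
      have h2 := hrow R'
      linarith
  · refine ⟨n, fun b _ => hout b (Or.inl hA) fun hb' => he ⟨b, hb'⟩, ?_⟩
    rw [stp_zero le_rfl]
    simp only [Nat.cast_zero]
    positivity

end Pool.Agent.Lib.MP_6b2d39_agHx
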