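import Mathlib

set_option autoImplicit false

namespace Pool.Agent.Lib.MP_6b2d39_agHx

/-- HX30. `D ≥ 3 K / 4 - w ≥ 599 / 1000 τ √n`, so `9 / 10 D ^ 2 / z0 ^ 2 ≥ 3 / 10 τ ^ 2 / n`. -/
theorem target_d (τ : ℝ) (hτ : 0 < τ) (hτ' : τ ≤ 1 / 8) : ∃ N0 : ℕ, ∀ n z0 K k w D : ℕ, N0 ≤ n →
    n = z0 + 2 * K → K = D + w + k → k = K / 4 → 4 / 5 * τ * √n ≤ K → (K : ℝ) ≤ 11 / 10 * τ * √n →
    2 * (w : ℝ) ≤ τ ^ 2 / 100 * √n →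
    3 / 10 * τ ^ 2 / n ≤ 9 / 10 * (D : ℝ) ^ 2 / (z0 : ℝ) ^ 2 := by
  refine ⟨1, fun n z0 K k w D hN hn hK hk h1 h2 h3 => ?_⟩
  have hn1 : (1 : ℝ) ≤ (n : ℝ) := by exact_mod_cast hN
  have hn0 : (0 : ℝ) < (n : ℝ) := by linarith
  set s : ℝ := √(n : ℝ) with hs
  have hs1 : 1 ≤ s := by
    rw [hs]
    exact Real.one_le_sqrt.2 hn1
  have hss : s * s = (n : ℝ) := Real.mul_self_sqrt hn0.le
  have hk4 : 4 * (k : ℝ) ≤ (K : ℝ) := by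
    have h : 4 * k ≤ K := by omega
    exact_mod_cast h
  have hKr : (K : ℝ) = (D : ℝ) + (w : ℝ) + (k : ℝ) := by exact_mod_cast hK
  have hnr : (n : ℝ) = (z0 : ℝ) + 2 * (K : ℝ) := by exact_mod_cast hn
  have hK0 : (0 : ℝ) ≤ (K : ℝ) := Nat.cast_nonneg K
  have hτs : 0 < τ * s := mul_pos hτ (by linarith)
  have hτ2 : τ ^ 2 * s ≤ 1 / 8 * (τ * s) := by nlinarith
  have hD : 599 / 1000 * (τ * s) ≤ (D : ℝ) := by nlinarith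
  have hz1 : (z0 : ℝ) ≤ (n : ℝ) := by linarith
  have hz0 : (0 : ℝ) < (z0 : ℝ) := by
    have ha : τ * s ≤ 1 / 8 * s := mul_le_mul_of_nonneg_right hτ' (by linarith)
    have hb : s ≤ s * s := by nlinarith
    nlinarith
  have hD2 : (599 / 1000) ^ 2 * (τ ^ 2 * (n : ℝ)) ≤ (D : ℝ) ^ 2 := by
    have ha : (599 / 1000 * (τ * s)) ^ 2 ≤ (D : ℝ) ^ 2 :=
      pow_le_pow_left₀ (by positivity) hD 2
    have hb : (599 / 1000 * (τ * s)) ^ 2 = (599 / 1000) ^ 2 * (τ ^ 2 * (s * s)) := by ring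
    rw [hb, hss] at ha
    exact ha
  rw [div_le_div_iff₀ hn0 (by positivity)]
  have hz2 : (z0 : ℝ) ^ 2 ≤ (n : ℝ) ^ 2 := pow_le_pow_left₀ hz0.le hz1 2
  have hc : 3 / 10 * τ ^ 2 * (z0 : ℝ) ^ 2 ≤ 3 / 10 * τ ^ 2 * (n : ℝ) ^ 2 :=
    mul_le_mul_of_nonneg_left hz2 (by positivity)
  have hd : 3 / 10 * τ ^ 2 * (n : ℝ) ^ 2 ≤ 9 / 10 * ((599 / 1000) ^ 2 * (τ ^ 2 * (n : ℝ))) * (n : ℝ) := by
    have he : 0 ≤ τ ^ 2 * (n : ℝ) ^ 2 := by positivity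
    nlinarith
  have hf : 9 / 10 * ((599 / 1000) ^ 2 * (τ ^ 2 * (n : ℝ))) * (n : ℝ) ≤
      9 / 10 * (D : ℝ) ^ 2 * (n : ℝ) := by
    refine mul_le_mul_of_nonneg_right ?_ hn0.le
    linarith
  linarith

end Pool.Agent.Lib.MP_6b2d39_agHx
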