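import Mathlib

set_option autoImplicit false

namespace Pool.Agent.Lib.MP_6b2d39_agHx

/-- HX31. `(n - k) ^ 2 / n = ze + k ^ 2 / n` with `ze = n - 2 k = z0 + 2 D + 2 w`;
`2 log ((n - k) / √n) - log ze ∈ [0, 77 / 1000 τ ^ 2 / n]` (`k ≤ 11 / 40 τ √n`),
`|2 log y - log z0| ≤ 64 / 1000 τ ^ 2 / n`. -/
theorem target_e (τ : ℝ) (hτ : 0 < τ) (hτ' : τ ≤ 1 / 8) : ∃ N0 : ℕ, ∀ (n z0 K k w D : ℕ)
    (y v0 η : ℝ), N0 ≤ n →
    n = z0 + 2 * K → K = D + w + k → k = K / 4 → 4 / 5 * τ * √n ≤ K → (K : ℝ) ≤ 11 / 10 * τ * √n →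
    0 < y → |y ^ 2 - z0| ≤ τ ^ 2 / 16 →
    |2 * v0 - Real.log (((z0 + 2 * D + 2 * w : ℕ) : ℝ) / ((z0 + 2 * D : ℕ) : ℝ))| ≤
      τ ^ 2 / 100 / n →
    0 ≤ η → η ≤ τ ^ 2 / 1000 / n →
    |2 * (Real.log (((n : ℝ) - k) / √n) - Real.log y + η - v0) -
      Real.log (((z0 : ℝ) + 2 * D) / z0)| ≤ 1 / 5 * τ ^ 2 / n := by
  refine ⟨9, ?_⟩
  intro n z0 K k w D y v0 η hn hnz hK hk _ hK2 hy hθ hv hη0 hη
  obtain ⟨s, hsd⟩ : ∃ s : ℝ, s = √n := ⟨_, rfl⟩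
  have hn9 : (9 : ℝ) ≤ n := by exact_mod_cast hn
  have hss : s ^ 2 = n := by
    rw [hsd]
    exact Real.sq_sqrt (Nat.cast_nonneg n)
  have hs3 : 3 ≤ s := by
    rw [hsd]
    refine Real.le_sqrt_of_sq_le ?_
    linarith
  rw [← hsd] at hK2 ⊢
  obtain ⟨N, hN⟩ : ∃ N : ℝ, N = n := ⟨_, rfl⟩
  rw [← hN] at hn9 hss hv hη ⊢
  have hN0 : 0 < N := by linarith
  have hs0 : 0 < s := by linarith
  have hτ2 : τ ^ 2 ≤ 1 / 64 := by
    have h6 := pow_le_pow_left₀ hτ.le hτ' 2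
    linarith
  have hτ20 : 0 < τ ^ 2 := by positivity
  -- the real numbers
  have e1 : N = z0 + 2 * (K : ℝ) := by
    rw [hN, hnz]
    push_cast
    ring
  have e2 : (K : ℝ) = D + w + k := by
    rw [hK]
    push_cast
    ring
  have hk4 : (k : ℝ) ≤ K / 4 := by
    rw [hk]
    exact_mod_cast (Nat.cast_div_le : ((K / 4 : ℕ) : ℝ) ≤ (K : ℝ) / (4 : ℕ))
  have hk0 : (0 : ℝ) ≤ k := Nat.cast_nonneg k
  have hD0 : (0 : ℝ) ≤ D := Nat.cast_nonneg D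
  have hw0 : (0 : ℝ) ≤ w := Nat.cast_nonneg w
  have hτs : τ * s ≤ 1 / 8 * s := mul_le_mul_of_nonneg_right hτ' hs0.le
  have hsN : 3 * s ≤ N := by
    rw [← hss, sq]
    exact mul_le_mul_of_nonneg_right hs3 hs0.le
  have hK3 : 2 * (K : ℝ) ≤ 1 / 10 * N := by
    have h1 : 11 / 10 * τ * s = 11 / 10 * (τ * s) := by ring
    rw [h1] at hK2
    linarith
  have hz0 : 9 / 10 * N ≤ (z0 : ℝ) := by linarith
  have hz0p : 0 < (z0 : ℝ) := by linarith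
  obtain ⟨ze, hze⟩ : ∃ ze : ℝ, ze = N - 2 * k := ⟨_, rfl⟩
  have hze1 : ((z0 + 2 * D + 2 * w : ℕ) : ℝ) = ze := by
    push_cast
    rw [hze, e1, e2]
    ring
  have hze2 : 9 / 10 * N ≤ ze := by
    rw [hze]
    linarith
  have hzep : 0 < ze := by linarith
  have hzD : 0 < (z0 : ℝ) + 2 * D := by linarith
  have hzD1 : ((z0 + 2 * D : ℕ) : ℝ) = (z0 : ℝ) + 2 * D := by
    push_cast
    ring
  rw [hze1, hzD1, Real.log_div hzep.ne' hzD.ne'] at hv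
  rw [Real.log_div hzD.ne' hz0p.ne']
  have hNk : 0 < N - k := by linarith
  -- A
  have hA1 : 2 * Real.log ((N - k) / s) - Real.log ze = Real.log ((N - k) ^ 2 / N / ze) := by
    rw [Real.log_div (by positivity) hzep.ne']
    congr 1
    rw [← hss, ← div_pow, Real.log_pow]
    norm_num
  have hA2 : (N - k) ^ 2 / N / ze - 1 = (k : ℝ) ^ 2 / (N * ze) := by
    have h1 : (N - k) ^ 2 = N * ze + (k : ℝ) ^ 2 := by
      rw [hze]
      ring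
    have h2 : N * ze ≠ 0 := by positivity
    rw [div_div, h1, add_div, div_self h2]
    ring
  have hkk : (k : ℝ) ^ 2 ≤ 121 / 1600 * τ ^ 2 * N := by
    have h1 : (k : ℝ) ≤ 11 / 40 * τ * s := by linarith
    have h2 := pow_le_pow_left₀ hk0 h1 2
    have h3 : (11 / 40 * τ * s) ^ 2 = 121 / 1600 * τ ^ 2 * s ^ 2 := by ring
    rw [h3, hss] at h2
    exact h2
  have hA3 : (k : ℝ) ^ 2 / (N * ze) ≤ 85 / 1000 * τ ^ 2 / N := by
    rw [div_le_div_iff₀ (by positivity) hN0]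
    have h1 : (k : ℝ) ^ 2 * N ≤ 121 / 1600 * τ ^ 2 * N * N := mul_le_mul_of_nonneg_right hkk hN0.le
    have h2 : 85 / 1000 * τ ^ 2 * N * (9 / 10 * N) ≤ 85 / 1000 * τ ^ 2 * N * ze :=
      mul_le_mul_of_nonneg_left hze2 (by positivity)
    have h3 : 0 ≤ τ ^ 2 * N * N := by positivity
    calc (k : ℝ) ^ 2 * N ≤ 121 / 1600 * τ ^ 2 * N * N := h1
      _ = 121 / 1600 * (τ ^ 2 * N * N) := by ring
      _ ≤ 765 / 10000 * (τ ^ 2 * N * N) := by linarith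
      _ = 85 / 1000 * τ ^ 2 * N * (9 / 10 * N) := by ring
      _ ≤ 85 / 1000 * τ ^ 2 * N * ze := h2
      _ = 85 / 1000 * τ ^ 2 * (N * ze) := by ring
  have hk20 : 0 ≤ (k : ℝ) ^ 2 / (N * ze) := by positivity
  have hA4 : 2 * Real.log ((N - k) / s) - Real.log ze ≤ 85 / 1000 * τ ^ 2 / N := by
    rw [hA1]
    have h1 := Real.log_le_sub_one_of_pos (show 0 < (N - k) ^ 2 / N / ze by positivity)
    rw [hA2] at h1
    linarith
  have hA5 : 0 ≤ 2 * Real.log ((N - k) / s) - Real.log ze := by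
    rw [hA1]
    exact Real.log_nonneg (by linarith)
  -- B
  obtain ⟨hθ1, hθ2⟩ := abs_le.1 hθ
  have hy2 : 8 / 10 * N ≤ y ^ 2 := by linarith
  have hy2p : 0 < y ^ 2 := by positivity
  have hB1 : 2 * Real.log y - Real.log z0 = Real.log (y ^ 2 / z0) := by
    rw [Real.log_div hy2p.ne' hz0p.ne', Real.log_pow]
    norm_num
  have hB2 : 2 * Real.log y - Real.log z0 ≤ 79 / 1000 * τ ^ 2 / N := by
    rw [hB1]
    have h1 := Real.log_le_sub_one_of_pos (show 0 < y ^ 2 / z0 by positivity)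
    have h2 : y ^ 2 / z0 - 1 ≤ 79 / 1000 * τ ^ 2 / N := by
      have h3 : y ^ 2 / z0 - 1 = (y ^ 2 - z0) / z0 := by
        field_simp
      rw [h3, div_le_div_iff₀ hz0p hN0]
      have h4 : (y ^ 2 - z0) * N ≤ τ ^ 2 / 16 * N := mul_le_mul_of_nonneg_right hθ2 hN0.le
      have h5 : 79 / 1000 * τ ^ 2 * (9 / 10 * N) ≤ 79 / 1000 * τ ^ 2 * z0 :=
        mul_le_mul_of_nonneg_left hz0 (by positivity)
      have h6 : 0 ≤ τ ^ 2 * N := by positivity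
      have h7 : 79 / 1000 * τ ^ 2 * (9 / 10 * N) = 711 / 10000 * (τ ^ 2 * N) := by ring
      have h8 : τ ^ 2 / 16 * N = 1 / 16 * (τ ^ 2 * N) := by ring
      linarith
    linarith
  have hB3 : -(79 / 1000 * τ ^ 2 / N) ≤ 2 * Real.log y - Real.log z0 := by
    have h1 := Real.log_le_sub_one_of_pos (show 0 < (z0 : ℝ) / y ^ 2 by positivity)
    have h0 : Real.log ((z0 : ℝ) / y ^ 2) = -(2 * Real.log y - Real.log z0) := by
      rw [Real.log_div hz0p.ne' hy2p.ne', Real.log_pow]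
      push_cast
      ring
    have h2 : (z0 : ℝ) / y ^ 2 - 1 ≤ 79 / 1000 * τ ^ 2 / N := by
      have h3 : (z0 : ℝ) / y ^ 2 - 1 = (z0 - y ^ 2) / y ^ 2 := by
        field_simp
      rw [h3, div_le_div_iff₀ hy2p hN0]
      have h4 : ((z0 : ℝ) - y ^ 2) * N ≤ τ ^ 2 / 16 * N :=
        mul_le_mul_of_nonneg_right (by linarith) hN0.le
      have h5 : 79 / 1000 * τ ^ 2 * (8 / 10 * N) ≤ 79 / 1000 * τ ^ 2 * y ^ 2 :=
        mul_le_mul_of_nonneg_left hy2 (by positivity)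
      have h6 : 0 ≤ τ ^ 2 * N := by positivity
      have h7 : 79 / 1000 * τ ^ 2 * (8 / 10 * N) = 632 / 10000 * (τ ^ 2 * N) := by ring
      have h8 : τ ^ 2 / 16 * N = 1 / 16 * (τ ^ 2 * N) := by ring
      linarith
    rw [h0] at h1
    linarith
  -- the end
  obtain ⟨hv1, hv2⟩ := abs_le.1 hv
  obtain ⟨q, hq⟩ : ∃ q : ℝ, q = τ ^ 2 / N := ⟨_, rfl⟩
  have hq0 : 0 < q := by
    rw [hq]
    positivity
  have r1 : 85 / 1000 * τ ^ 2 / N = 85 / 1000 * q := by rw [hq]; ring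
  have r2 : 79 / 1000 * τ ^ 2 / N = 79 / 1000 * q := by rw [hq]; ring
  have r3 : τ ^ 2 / 100 / N = 1 / 100 * q := by rw [hq]; ring
  have r4 : τ ^ 2 / 1000 / N = 1 / 1000 * q := by rw [hq]; ring
  have r5 : 1 / 5 * τ ^ 2 / N = 1 / 5 * q := by rw [hq]; ring
  rw [r1] at hA4
  rw [r2] at hB2 hB3
  rw [r3] at hv1 hv2
  rw [r4] at hη
  rw [r5, abs_le]
  constructor <;> linarith

end Pool.Agent.Lib.MP_6b2d39_agHx
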