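import Pool.Agent.Lib.MP_6b2d39_agHx.Defs

set_option autoImplicit false

namespace Pool.Agent.Lib.MP_6b2d39_agHx

/-- HX14. -/
theorem Wd.append {B z z' z'' : ℕ} {v w : ℝ} (h : Wd B z z' v) (h' : Wd B z' z'' w) :
    Wd B z z'' (v + w) := by
  induction h with
  | nil z => rwa [zero_add]
  | cons D p h1 h2 h3 _ ih =>
    rw [add_assoc]
    exact Wd.cons D p h1 h2 h3 (ih h')

theorem Wd.mono {B B' z z' : ℕ} {v : ℝ} (h : Wd B z z' v) (hB : B ≤ B') : Wd B' z z' v := by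
  induction h with
  | nil z => exact Wd.nil z
  | cons D p h1 h2 h3 _ ih => exact Wd.cons D p h1 h2 (h3.trans hB) ih

theorem Wd.even {B z z' : ℕ} {v : ℝ} (h : Wd B z z' v) : ∃ w, z' = z + 2 * w := by
  induction h with
  | nil z => exact ⟨0, rfl⟩
  | cons D p h1 h2 h3 _ ih =>
    obtain ⟨w, hw⟩ := ih
    exact ⟨D + w, by omega⟩

end Pool.Agent.Lib.MP_6b2d39_agHx
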