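import Pool.Agent.Lib.MP_6b2d39_agHx.WdB

set_option autoImplicit false

namespace Pool.Agent.Lib.MP_6b2d39_agHx

/-- HX17. `(z + p + D) ^ 2 z - (z + 2 D) (z + p) ^ 2 = D (D z - 2 p z - 2 p ^ 2)`, of absolute value
at most `D ^ 2 z` (`p + 1 ≤ D`, `D ^ 2 ≤ z`), so the difference is `log (1 + y)` with
`|y| ≤ D ^ 2 / z ^ 2 ≤ 1 / 2`, `|log (1 + y)| ≤ 2 |y|`. -/
theorem letter_range {D p z : ℕ} (hp : 1 ≤ p) (hD : p + 1 ≤ D) (hz : 4 * D ^ 2 ≤ z) :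
    |2 * Real.log (1 + (D : ℝ) / ((z : ℝ) + p)) - Real.log (((z : ℝ) + 2 * D) / z)| ≤
      2 * (D : ℝ) ^ 2 / (z : ℝ) ^ 2 := by
  have hpR : (1 : ℝ) ≤ p := by exact_mod_cast hp
  have hDR : (p : ℝ) + 1 ≤ D := by exact_mod_cast hD
  have hzR : 4 * (D : ℝ) ^ 2 ≤ z := by exact_mod_cast hz
  have hD0 : (0 : ℝ) < D := by linarith
  have hz0 : (0 : ℝ) < z := by nlinarith
  have hw0 : (0 : ℝ) < (z : ℝ) + p := by linarith
  have hpD : (p : ℝ) ^ 2 ≤ (D : ℝ) ^ 2 := by nlinarith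
  have hN : (z : ℝ) ^ 3 ≤ ((z : ℝ) + p + D) ^ 2 * z := by
    have h1 : (z : ℝ) ^ 2 ≤ ((z : ℝ) + p + D) ^ 2 := pow_le_pow_left₀ hz0.le (by linarith) 2
    calc (z : ℝ) ^ 3 = (z : ℝ) ^ 2 * z := by ring
      _ ≤ _ := mul_le_mul_of_nonneg_right h1 hz0.le
  have hM : (z : ℝ) ^ 3 ≤ ((z : ℝ) + p) ^ 2 * (z + 2 * D) := by
    have h1 : (z : ℝ) ^ 2 ≤ ((z : ℝ) + p) ^ 2 := pow_le_pow_left₀ hz0.le (by linarith) 2
    calc (z : ℝ) ^ 3 = (z : ℝ) ^ 2 * z := by ring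
      _ ≤ _ := mul_le_mul h1 (by linarith) hz0.le (by positivity)
  have hz3 : (0 : ℝ) < (z : ℝ) ^ 3 := by positivity
  have hN0 : 0 < ((z : ℝ) + p + D) ^ 2 * z := lt_of_lt_of_le hz3 hN
  have hM0 : 0 < ((z : ℝ) + p) ^ 2 * (z + 2 * D) := lt_of_lt_of_le hz3 hM
  have hid : ((z : ℝ) + p + D) ^ 2 * z - ((z : ℝ) + p) ^ 2 * (z + 2 * D) =
      D * (D * z - 2 * p * z - 2 * (p : ℝ) ^ 2) := by ring
  have hup : ((z : ℝ) + p + D) ^ 2 * z - ((z : ℝ) + p) ^ 2 * (z + 2 * D) ≤ (D : ℝ) ^ 2 * z := by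
    rw [hid]
    have h1 : (0 : ℝ) ≤ (p : ℝ) * z := by positivity
    have h2 : (0 : ℝ) ≤ (p : ℝ) ^ 2 := by positivity
    calc (D : ℝ) * (D * z - 2 * p * z - 2 * (p : ℝ) ^ 2) ≤ D * (D * z) :=
          mul_le_mul_of_nonneg_left (by linarith) hD0.le
      _ = _ := by ring
  have hlo : ((z : ℝ) + p) ^ 2 * (z + 2 * D) - ((z : ℝ) + p + D) ^ 2 * z ≤ (D : ℝ) ^ 2 * z := by
    have h3 : ((z : ℝ) + p) ^ 2 * (z + 2 * D) - ((z : ℝ) + p + D) ^ 2 * z =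
        D * (2 * p * z + 2 * (p : ℝ) ^ 2 - D * z) := by ring
    rw [h3]
    have h4 : ((p : ℝ) + 1) * z ≤ D * z := mul_le_mul_of_nonneg_right hDR hz0.le
    have h5 : (p : ℝ) ^ 2 ≤ z := by nlinarith
    calc (D : ℝ) * (2 * p * z + 2 * (p : ℝ) ^ 2 - D * z) ≤ D * (D * z) :=
          mul_le_mul_of_nonneg_left (by linarith) hD0.le
      _ = _ := by ring
  have heq : 2 * Real.log (1 + (D : ℝ) / ((z : ℝ) + p)) - Real.log (((z : ℝ) + 2 * D) / z) =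
      Real.log (((z : ℝ) + p + D) ^ 2 * z) - Real.log (((z : ℝ) + p) ^ 2 * (z + 2 * D)) := by
    have h1 : (1 : ℝ) + (D : ℝ) / ((z : ℝ) + p) = ((z : ℝ) + p + D) / ((z : ℝ) + p) := by
      field_simp
    have h6 : (z : ℝ) + p + D ≠ 0 := by positivity
    have h7 : (z : ℝ) + 2 * D ≠ 0 := by positivity
    rw [h1, Real.log_div h6 hw0.ne', Real.log_div h7 hz0.ne',
      Real.log_mul (pow_ne_zero 2 h6) hz0.ne', Real.log_mul (pow_ne_zero 2 hw0.ne') h7,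
      Real.log_pow, Real.log_pow]
    push_cast
    ring
  have hq : (D : ℝ) ^ 2 * z / (z : ℝ) ^ 3 = (D : ℝ) ^ 2 / (z : ℝ) ^ 2 := by
    field_simp
  have hq0 : (0 : ℝ) ≤ (D : ℝ) ^ 2 / (z : ℝ) ^ 2 := by positivity
  have hfin : 2 * (D : ℝ) ^ 2 / (z : ℝ) ^ 2 =
      (D : ℝ) ^ 2 / (z : ℝ) ^ 2 + (D : ℝ) ^ 2 / (z : ℝ) ^ 2 := by ring
  have hkey : ∀ x y c t : ℝ, 0 < x → 0 < y → 0 < c → c ≤ y → x - y ≤ t → 0 ≤ t →
      Real.log x - Real.log y ≤ t / c := by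
    intro x y c t hx hy hc hcy hxy ht
    rw [← Real.log_div hx.ne' hy.ne']
    have h8 : Real.log (x / y) ≤ x / y - 1 := Real.log_le_sub_one_of_pos (div_pos hx hy)
    have h9 : x / y - 1 = (x - y) / y := by field_simp
    rw [h9] at h8
    calc Real.log (x / y) ≤ (x - y) / y := h8
      _ ≤ t / y := div_le_div_of_nonneg_right hxy hy.le
      _ ≤ t / c := div_le_div_of_nonneg_left ht hc hcy
  have ht0 : (0 : ℝ) ≤ (D : ℝ) ^ 2 * z := by positivity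
  rw [heq, abs_le]
  constructor
  · have := hkey _ _ _ _ hM0 hN0 hz3 hN hlo ht0
    rw [hq] at this
    linarith
  · have := hkey _ _ _ _ hN0 hM0 hz3 hM hup ht0
    rw [hq] at this
    linarith

/-- HX18. (induction; `2 D ^ 2 / z ^ 2 ≤ B (2 D) / z0 ^ 2`) -/
theorem Wd.range {B z0 z z' : ℕ} {v : ℝ} (h : Wd B z z' v) (h0 : 1 ≤ z0) (hz : z0 ≤ z)
    (hB : 4 * B ^ 2 ≤ z0) :
    |2 * v - Real.log ((z' : ℝ) / z)| ≤ B * ((z' : ℝ) - z) / (z0 : ℝ) ^ 2 := by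
  have h0R : (0 : ℝ) < z0 := by exact_mod_cast h0
  induction h with
  | nil z =>
    have hz1 : (0 : ℝ) < z := lt_of_lt_of_le h0R (by exact_mod_cast hz)
    rw [div_self hz1.ne', Real.log_one]
    simp
  | @cons z z' v D p h1 h2 h3 hw ih =>
    have hzz : z0 ≤ z + 2 * D := by omega
    have ih' := ih hzz
    have hz1 : (z0 : ℝ) ≤ z := by exact_mod_cast hz
    have hz2 : (0 : ℝ) < z := lt_of_lt_of_le h0R hz1
    have hle : 4 * D ^ 2 ≤ z := by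
      have h4 : D ^ 2 ≤ B ^ 2 := Nat.pow_le_pow_left h3 2
      omega
    have hl := letter_range h1 h2 hle
    obtain ⟨w, hw'⟩ := hw.even
    have hz'0 : (0 : ℝ) < z' := by
      have h5 : 0 < z' := by omega
      exact_mod_cast h5
    have hzD : (0 : ℝ) < (z : ℝ) + 2 * D := by positivity
    have hc : ((z + 2 * D : ℕ) : ℝ) = (z : ℝ) + 2 * D := by push_cast; ring
    rw [hc] at ih'
    have hlog : Real.log ((z' : ℝ) / z) =
        Real.log (((z : ℝ) + 2 * D) / z) + Real.log ((z' : ℝ) / ((z : ℝ) + 2 * D)) := by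
      rw [Real.log_div hz'0.ne' hz2.ne', Real.log_div hzD.ne' hz2.ne',
        Real.log_div hz'0.ne' hzD.ne']
      ring
    have hDB : (D : ℝ) ≤ B := by exact_mod_cast h3
    have hD0 : (0 : ℝ) ≤ D := by positivity
    have hb : 2 * (D : ℝ) ^ 2 / (z : ℝ) ^ 2 ≤ B * (2 * D) / (z0 : ℝ) ^ 2 := by
      have h6 : 2 * (D : ℝ) ^ 2 ≤ B * (2 * D) := by nlinarith
      have h7 : (z0 : ℝ) ^ 2 ≤ (z : ℝ) ^ 2 := pow_le_pow_left₀ h0R.le hz1 2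
      have h8 : (0 : ℝ) < (z0 : ℝ) ^ 2 := by positivity
      exact div_le_div₀ (by positivity) h6 h8 h7
    have hsum : B * ((z' : ℝ) - z) / (z0 : ℝ) ^ 2 =
        B * (2 * D) / (z0 : ℝ) ^ 2 + B * ((z' : ℝ) - ((z : ℝ) + 2 * D)) / (z0 : ℝ) ^ 2 := by
      ring
    have hsplit : 2 * (Real.log (1 + (D : ℝ) / ((z : ℝ) + p)) + v) - Real.log ((z' : ℝ) / z) =
        (2 * Real.log (1 + (D : ℝ) / ((z : ℝ) + p)) - Real.log (((z : ℝ) + 2 * D) / z)) +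
        (2 * v - Real.log ((z' : ℝ) / ((z : ℝ) + 2 * D))) := by
      rw [hlog]
      ring
    rw [hsplit, hsum]
    exact (abs_add_le _ _).trans (add_le_add (hl.trans hb) ih')

end Pool.Agent.Lib.MP_6b2d39_agHx
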