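import Pool.Agent.Lib.MP_6b2d39_agHx.Seg
import Pool.Agent.Lib.MP_6b2d39_agHx.WdR
import Pool.Agent.Lib.MP_6b2d39_agHx.BlockHi
import Pool.Agent.Lib.MP_6b2d39_agHx.BlockLo
import Pool.Agent.Lib.MP_6b2d39_agHx.Select
import Pool.Agent.Lib.MP_6b2d39_agHx.TNumD
import Pool.Agent.Lib.MP_6b2d39_agHx.TNumE

set_option autoImplicit false

namespace Pool.Agent.Lib.MP_6b2d39_agHx

/-- HX32. the word: `seg A` with `c = τ ^ 2 / 100`, `Λ = 2 w` (`Wd.even`), `k = K / 4`,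
`D = K - w - k`, `G = log ((n - k) / √n) - log y + η - v0`, `H = (κ / √n) ^ 2`; `target_d`,
`target_e`, `block_hi`, `block_lo`, `select`; `t = G - log (1 + D / (z0 + p))`. -/
theorem exists_word (τ : ℝ) (hτ : 0 < τ) (hτ' : τ ≤ 1 / 8) (A : ℕ) : ∃ N0 : ℕ, ∀ (n z0 K : ℕ)
    (y : ℝ), N0 ≤ n → n = z0 + 2 * K → 4 / 5 * τ * √n ≤ K → (K : ℝ) ≤ 11 / 10 * τ * √n →
    0 < y → |y ^ 2 - z0| ≤ τ ^ 2 / 16 →
    ∃ (k : ℕ) (η V : ℝ), 1 ≤ k ∧ k ≤ K ∧ 0 ≤ η ∧ 4 * η ≤ 1 / (n : ℝ) ^ (A + 1) ∧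
      Wd (Nat.sqrt n / 4) z0 (n - 2 * k) V ∧ Real.log (((n : ℝ) - k) / √n) - Real.log y ≤ V ∧
      V ≤ Real.log (((n : ℝ) - k) / √n) - Real.log y + 2 * η := by
  obtain ⟨q, hq, hseg⟩ := seg A
  obtain ⟨κ, hκ, N1, hcov⟩ := hseg (τ ^ 2 / 100) (by positivity)
  obtain ⟨N2, hd⟩ := target_d τ hτ hτ'
  obtain ⟨N3, he⟩ := target_e τ hτ hτ'
  obtain ⟨N4, hN4⟩ := exists_nat_ge ((100 / τ + 1 / κ ^ 2 + 100) ^ 2 + 4 * q ^ (A + 2) +
    1000 * q ^ (A + 2) / τ ^ 2)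
  refine ⟨max (max N1 N2) (max N3 N4), ?_⟩
  intro n z0 K y hn hnz hK1 hK2 hy hyz
  have hn1 : N1 ≤ n := le_trans (le_trans (le_max_left _ _) (le_max_left _ _)) hn
  have hn2 : N2 ≤ n := le_trans (le_trans (le_max_right _ _) (le_max_left _ _)) hn
  have hn3 : N3 ≤ n := le_trans (le_trans (le_max_left _ _) (le_max_right _ _)) hn
  have hn4 : N4 ≤ n := le_trans (le_trans (le_max_right _ _) (le_max_right _ _)) hn
  have hnR : (100 / τ + 1 / κ ^ 2 + 100) ^ 2 + 4 * q ^ (A + 2) +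
      1000 * q ^ (A + 2) / τ ^ 2 ≤ (n : ℝ) := hN4.trans (by exact_mod_cast hn4)
  have hqp : 0 < q ^ (A + 2) := by positivity
  have hqt : 0 < 1000 * q ^ (A + 2) / τ ^ 2 := by positivity
  have h1τ : 0 < 100 / τ := by positivity
  have h1κ : 0 < 1 / κ ^ 2 := by positivity
  have hs1 : 100 / τ + 1 / κ ^ 2 + 100 ≤ √(n : ℝ) := by
    apply Real.le_sqrt_of_sq_le
    linarith
  have hn0 : (0 : ℝ) < n := by
    have : 0 < (100 / τ + 1 / κ ^ 2 + 100) ^ 2 := by positivity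
    linarith
  set s : ℝ := √(n : ℝ) with hs
  have hss : s * s = n := Real.mul_self_sqrt hn0.le
  have hs100 : 100 ≤ s := by linarith
  have hsτ : 100 ≤ τ * s := by
    have : 100 / τ ≤ s := by linarith
    rwa [div_le_iff₀' hτ] at this
  have hsκ : 1 ≤ κ ^ 2 * s := by
    have : 1 / κ ^ 2 ≤ s := by linarith
    rwa [div_le_iff₀' (by positivity)] at this
  have hnN : (n : ℝ) = z0 + 2 * K := by exact_mod_cast hnz
  have hsn : 100 * s ≤ n := by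
    rw [← hss]
    exact mul_le_mul_of_nonneg_right hs100 (by linarith)
  have hτs : τ * s ≤ 1 / 8 * s := mul_le_mul_of_nonneg_right hτ' (by linarith)
  have hK3 : (K : ℝ) ≤ 11 / 80 * s := by
    calc (K : ℝ) ≤ 11 / 10 * τ * s := hK2
      _ ≤ 11 / 10 * (1 / 8) * s := by gcongr
      _ = 11 / 80 * s := by ring
  have hz9 : 9 / 10 * (n : ℝ) ≤ z0 := by linarith
  obtain ⟨Λ, hΛ, hC⟩ := hcov n hn1
  -- bounds on `B`
  set B : ℕ := Nat.sqrt n / 4 with hB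
  have hBle : (B : ℝ) ≤ s / 4 := by
    have h1 : ((Nat.sqrt n : ℕ) : ℝ) ≤ s := Real.nat_sqrt_le_real_sqrt
    have h2 : (B : ℝ) ≤ (Nat.sqrt n : ℝ) / 4 := by
      have := @Nat.cast_div_le ℝ _ _ _ (Nat.sqrt n) 4
      simpa using this
    linarith
  have hBge : s / 4 - 1 ≤ (B : ℝ) := by
    have h1 : s < (Nat.sqrt n : ℝ) + 1 := Real.real_sqrt_lt_nat_sqrt_succ
    have h2 : Nat.sqrt n + 1 ≤ 4 * B + 4 := by omega
    have h3 : (Nat.sqrt n : ℝ) + 1 ≤ 4 * B + 4 := by exact_mod_cast h2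
    linarith
  -- the parity of `Λ`
  have hτ2 : τ ^ 2 ≤ τ / 8 := by nlinarith
  have hΛ2 : (Λ : ℝ) ≤ τ / 800 * s := by
    calc (Λ : ℝ) ≤ τ ^ 2 / 100 * s := hΛ
      _ ≤ τ / 8 / 100 * s := by gcongr
      _ = τ / 800 * s := by ring
  have hΛn : (Λ : ℝ) ≤ n / 2 := by linarith
  obtain ⟨w, hw⟩ : ∃ w, Λ = 2 * w := by
    have hz : n ≤ 2 * (n - Λ) := by
      have : 2 * Λ ≤ n := by
        have : (2 * Λ : ℝ) ≤ n := by linarith
        exact_mod_cast this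
      omega
    have hΛn' : Λ ≤ n := by
      have : (Λ : ℝ) ≤ n := by linarith
      exact_mod_cast this
    obtain ⟨v0, hv0⟩ := hC (n - Λ) hz (by omega)
    obtain ⟨v, hv, -⟩ := hv0 0 le_rfl (by positivity)
    obtain ⟨w, hw⟩ := hv.even
    exact ⟨w, by omega⟩
  subst hw
  have hwR : 2 * (w : ℝ) ≤ τ ^ 2 / 100 * s := by
    have : ((2 * w : ℕ) : ℝ) = 2 * (w : ℝ) := by push_cast; ring
    rw [← this]; exact hΛ
  have hwR2 : 2 * (w : ℝ) ≤ τ / 800 * s := by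
    have : ((2 * w : ℕ) : ℝ) = 2 * (w : ℝ) := by push_cast; ring
    rw [← this]; exact hΛ2
  obtain ⟨k, hk⟩ : ∃ k, k = K / 4 := ⟨_, rfl⟩
  have hk4 : 4 * k ≤ K := by omega
  have hk4' : K ≤ 4 * k + 3 := by omega
  have hk4R : 4 * (k : ℝ) ≤ K := by exact_mod_cast hk4
  have hk4R' : (K : ℝ) ≤ 4 * k + 3 := by exact_mod_cast hk4'
  have hwk : w + k ≤ K := by
    have : (w : ℝ) + k ≤ K := by linarith
    exact_mod_cast this
  obtain ⟨D, hD⟩ : ∃ D, K = D + w + k := ⟨K - w - k, by omega⟩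
  have hDR : (K : ℝ) = D + w + k := by exact_mod_cast hD
  have hw0 : (0 : ℝ) ≤ w := by positivity
  have hk0 : (0 : ℝ) ≤ k := by positivity
  have hD40 : 40 ≤ D := by
    have : (40 : ℝ) ≤ D := by linarith
    exact_mod_cast this
  have hDle : (D : ℝ) ≤ 11 / 80 * s := by linarith
  have hD0 : (0 : ℝ) ≤ D := by positivity
  have hz16 : 16 * D ^ 2 ≤ z0 := by
    have : 16 * (D : ℝ) ^ 2 ≤ z0 := by
      have h1 : (D : ℝ) ^ 2 ≤ (11 / 80 * s) ^ 2 := by gcongr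
      have h2 : (11 / 80 * s) ^ 2 = 121 / 6400 * n := by rw [← hss]; ring
      linarith
    exact_mod_cast this
  have hz01 : 1 ≤ z0 := by
    have : 1 ≤ D ^ 2 := Nat.one_le_pow _ _ (by omega)
    omega
  have hz0R : (0 : ℝ) < z0 := by exact_mod_cast (by omega : 0 < z0)
  have h2z : n ≤ 2 * (z0 + 2 * D) := by
    have : (n : ℝ) ≤ 2 * (z0 + 2 * D) := by linarith
    exact_mod_cast this
  have hzn : z0 + 2 * D + 2 * w ≤ n := by omega
  have hzn' : z0 + 2 * D + 2 * w = n - 2 * k := by omega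
  obtain ⟨v0, hv0⟩ := hC (z0 + 2 * D) h2z hzn
  set η : ℝ := (q / n) ^ (A + 2) with hη
  have hη0 : 0 ≤ η := by positivity
  have hηe : η = q ^ (A + 2) / n / (n : ℝ) ^ (A + 1) := by
    rw [hη, div_pow, div_div, ← pow_succ']
  have hn1' : (1 : ℝ) ≤ (n : ℝ) := by linarith
  have hη4 : 4 * η ≤ 1 / (n : ℝ) ^ (A + 1) := by
    rw [hηe, ← mul_div_assoc]
    gcongr
    rw [← mul_div_assoc, div_le_one hn0]
    have : 0 < (100 / τ + 1 / κ ^ 2 + 100) ^ 2 := by positivity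
    linarith
  have hηs : η ≤ τ ^ 2 / 1000 / n := by
    rw [hηe, div_right_comm]
    apply div_le_div_of_nonneg_right _ hn0.le
    have h1 : q ^ (A + 2) / (n : ℝ) ^ (A + 1) ≤ q ^ (A + 2) / n := by
      gcongr
      exact le_self_pow₀ hn1' (by omega)
    refine h1.trans ?_
    rw [div_le_iff₀ hn0]
    have h2 : 1000 * q ^ (A + 2) / τ ^ 2 ≤ n := by
      have : 0 < (100 / τ + 1 / κ ^ 2 + 100) ^ 2 := by positivity
      linarith
    rw [div_le_iff₀ (by positivity)] at h2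
    linarith
  have hHp : (0 : ℝ) ≤ (κ / s) ^ 2 := by positivity
  -- the range of `v0`
  have hrange : |2 * v0 - Real.log (((z0 + 2 * D + 2 * w : ℕ) : ℝ) / ((z0 + 2 * D : ℕ) : ℝ))| ≤
      τ ^ 2 / 100 / n := by
    obtain ⟨v, hv, hv'⟩ := hv0 0 le_rfl hHp
    have hB4 : 4 * B ^ 2 ≤ z0 := by
      have : 4 * (B : ℝ) ^ 2 ≤ z0 := by
        have h1 : (B : ℝ) ^ 2 ≤ (s / 4) ^ 2 := by gcongr
        have h2 : (s / 4) ^ 2 = n / 16 := by rw [← hss]; ring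
        linarith
      exact_mod_cast this
    have hr := hv.range hz01 (by omega) hB4
    have h1 : (B : ℝ) * (((z0 + 2 * D + 2 * w : ℕ) : ℝ) - ((z0 + 2 * D : ℕ) : ℝ)) / (z0 : ℝ) ^ 2 ≤
        τ ^ 2 / 320 / n := by
      have e : (((z0 + 2 * D + 2 * w : ℕ) : ℝ) - ((z0 + 2 * D : ℕ) : ℝ)) = 2 * w := by
        push_cast; ring
      rw [e, div_le_div_iff₀ (by positivity) hn0]
      have h2 : (B : ℝ) * (2 * w) ≤ s / 4 * (τ ^ 2 / 100 * s) := by gcongr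
      have h3 : (9 / 10 * (n : ℝ)) ^ 2 ≤ (z0 : ℝ) ^ 2 := by gcongr
      have h4 : s / 4 * (τ ^ 2 / 100 * s) = τ ^ 2 / 400 * n := by rw [← hss]; ring
      rw [h4] at h2
      calc (B : ℝ) * (2 * w) * n ≤ τ ^ 2 / 400 * n * n := by gcongr
        _ = τ ^ 2 / 400 * n ^ 2 := by ring
        _ ≤ τ ^ 2 / 320 * (9 / 10 * (n : ℝ)) ^ 2 := by
          have : 0 ≤ τ ^ 2 * (n : ℝ) ^ 2 := by positivity
          linarith
        _ ≤ τ ^ 2 / 320 * (z0 : ℝ) ^ 2 := by gcongr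
    have h5 : |2 * v - Real.log (((z0 + 2 * D + 2 * w : ℕ) : ℝ) / ((z0 + 2 * D : ℕ) : ℝ))| ≤
        τ ^ 2 / 320 / n := hr.trans h1
    have h6 : |v - v0| ≤ η := by simpa using hv'
    have h7 : τ ^ 2 / 320 / n + 2 * η ≤ τ ^ 2 / 100 / n := by
      have h8 : 0 ≤ τ ^ 2 / n := by positivity
      have e1 : τ ^ 2 / 320 / n = 1 / 320 * (τ ^ 2 / n) := by ring
      have e2 : τ ^ 2 / 100 / n = 1 / 100 * (τ ^ 2 / n) := by ring
      have e3 : τ ^ 2 / 1000 / n = 1 / 1000 * (τ ^ 2 / n) := by ring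
      rw [e1, e2]
      rw [e3] at hηs
      linarith
    rw [abs_le] at h5 h6 ⊢
    constructor <;> linarith [h5.1, h5.2, h6.1, h6.2]
  have hE := he n z0 K k w D y v0 η hn3 hnz hD hk hK1 hK2 hy hyz hrange hη0 hηs
  have hDd := hd n z0 K k w D hn2 hnz hD hk hK1 hK2 hwR
  set G : ℝ := Real.log (((n : ℝ) - k) / s) - Real.log y + η - v0 with hG
  have hτn : 0 ≤ τ ^ 2 / n := by positivity
  have e3 : 3 / 10 * τ ^ 2 / n = 3 / 10 * (τ ^ 2 / n) := by ring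
  have e5 : 1 / 5 * τ ^ 2 / n = 1 / 5 * (τ ^ 2 / n) := by ring
  rw [e5] at hE
  rw [e3] at hDd
  have hE' := abs_le.1 hE
  have hbh := block_hi hD40 hz16
  have hbl := block_lo hD40 hz16
  have g1 : G ≤ Real.log (1 + (D : ℝ) / ((z0 : ℝ) + 1)) := by
    linarith [hE'.1, hE'.2]
  have g2 : Real.log (1 + (D : ℝ) / ((z0 : ℝ) + ((D - 1 : ℕ) : ℝ))) ≤ G := by
    linarith [hE'.1, hE'.2]
  have hH : (D : ℝ) / (z0 : ℝ) ^ 2 ≤ (κ / s) ^ 2 := by
    rw [div_pow, div_le_div_iff₀ (by positivity) (by positivity)]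
    have h3 : (9 / 10 * (n : ℝ)) ^ 2 ≤ (z0 : ℝ) ^ 2 := by gcongr
    have hs2 : s ^ 2 = n := by rw [sq, hss]
    rw [hs2]
    calc (D : ℝ) * n ≤ 11 / 80 * s * n := by gcongr
      _ ≤ 81 / 100 * (κ ^ 2 * s) * s * n := by
        have : 1 * (s * n) ≤ (κ ^ 2 * s) * (s * n) := by gcongr
        have h0 : 0 ≤ s * n := by positivity
        linarith
      _ = κ ^ 2 * (9 / 10 * (n : ℝ)) ^ 2 := by rw [← hss]; ring
      _ ≤ κ ^ 2 * (z0 : ℝ) ^ 2 := by gcongr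
  obtain ⟨p, hp1, hpD, hpG, hpG'⟩ := select (by omega : 2 ≤ D) hz01 hH g1 g2
  obtain ⟨v, hv, hvt⟩ := hv0 (G - Real.log (1 + (D : ℝ) / ((z0 : ℝ) + p))) (by linarith)
    (by linarith)
  refine ⟨k, η, Real.log (1 + (D : ℝ) / ((z0 : ℝ) + p)) + v, ?_, by omega, hη0, hη4, ?_, ?_, ?_⟩
  · have : (1 : ℝ) ≤ k := by linarith
    exact_mod_cast this
  · rw [← hzn']
    refine Wd.cons D p hp1 hpD ?_ hv
    have : (D : ℝ) ≤ B := by linarith
    exact_mod_cast this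
  · have := (abs_le.1 hvt).1
    linarith
  · have := (abs_le.1 hvt).2
    linarith

end Pool.Agent.Lib.MP_6b2d39_agHx
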